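import Pool.Agent.Lib.MP_4e7804_co.Av.SpecU

/-!
# MP_4e7804_co: the number of active choices (`StmtActU`)
-/

set_option autoImplicit false

open Finset

namespace Pool.Agent.Lib.MP_4e7804_co.Av

namespace ActUN

private theorem vl_eq {d : ℕ} (η : Fin (d + 1) → (Fin d → ℤ) → ℝ) (w : Fin d → ℝ)
    (z : Fin (d + 1) → ℝ) (i : Fin (d + 1)) (o : Option (Fin d → ℤ)) :
    Gp.vl η w z (i, o) = Gp.vc o ⬝ᵥ w + o.elim (z i) (η i) := by
  cases o with
  | none => simp [Gp.vl, Gp.vc, dotProduct]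
  | some p => simp [Gp.vl, Gp.vc, dotProduct, val]

private theorem mem_QQ {d : ℕ} {A : Fin (d + 1) → Finset (Fin d → ℤ)} {j : Fin (d + 1)}
    {q : Fin d → Finset (Option (Fin d → ℤ))} (h : q ∈ QQ A j) (k : Fin d) :
    q k ⊆ OO A (j.succAbove k) ∧ (q k).card = 2 := by
  have h1 := Fintype.mem_piFinset.1 h k
  exact Finset.mem_powersetCard.1 h1

private theorem mem_Act {d : ℕ} {A : Fin (d + 1) → Finset (Fin d → ℤ)} {j : Fin (d + 1)}
    {P₂ : (Fin d → Finset (Option (Fin d → ℤ))) → Fin (d + 1) → Option (Fin d → ℤ) →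
      Option (Fin d → ℤ) → (Fin (d + 1) → ℝ) × ℝ} {z : Fin (d + 1) → ℝ}
    {q : Fin d → Finset (Option (Fin d → ℤ))} (h : q ∈ Act A j P₂ z) :
    q ∈ QQ A j ∧ Rg q ∧ ∀ k, ∀ o ∈ OO A (j.succAbove k), o ∉ q k → ∀ o' ∈ q k,
      0 < ev (P₂ q (j.succAbove k) o o') z := by
  classical
  unfold Act at h
  exact Finset.mem_filter.1 h

end ActUN

open ActUN in
theorem tActU (hLemM : StmtLemM) (hSys : StmtSys) : StmtActU := by
  classical
  intro d A η j P₁ P₂ hF z
  have hu : ∀ q : Fin d → Finset (Option (Fin d → ℤ)), ∃ w : Fin d → ℝ,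
      q ∈ Act A j P₂ z → Eqs η j q z w := by
    intro q
    by_cases h : q ∈ Act A j P₂ z
    · obtain ⟨h1, h2, -⟩ := mem_Act h
      obtain ⟨w, hw, -⟩ := hSys d A η j q h1 h2 z
      exact ⟨w, fun _ => hw⟩
    · exact ⟨0, fun h' => absurd h' h⟩
  choose u hu using hu
  have key : ∀ q ∈ Act A j P₂ z, ∀ k, ∀ o ∈ OO A (j.succAbove k), o ∉ q k → ∀ o' ∈ q k,
      Gp.vl η (u q) z (j.succAbove k, o') < Gp.vl η (u q) z (j.succAbove k, o) := by
    intro q hq k o ho hoq o' ho'
    obtain ⟨h1, h2, h3⟩ := mem_Act hq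
    have h4 := hF.eq₂ q h1 h2 (j.succAbove k) o ho o' ((mem_QQ h1 k).1 ho')
      (fun h => hoq (h ▸ ho')) (fun k' hk' => by
        have : k' = k := Fin.succAbove_right_injective hk'
        rw [this]
        exact hoq) z (u q) (hu q hq)
    have h5 := h3 k o ho hoq o' ho'
    rw [← h4] at h5
    linarith
  have hinj : Set.InjOn u (Act A j P₂ z : Set (Fin d → Finset (Option (Fin d → ℤ)))) := by
    intro q hq q' hq' huu
    have hq : q ∈ Act A j P₂ z := hq
    have hq' : q' ∈ Act A j P₂ z := hq'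
    obtain ⟨h1, -, -⟩ := mem_Act hq
    obtain ⟨h1', -, -⟩ := mem_Act hq'
    funext k
    apply Finset.eq_of_subset_of_card_le
    · intro o ho
      by_contra hoq'
      have hne : (q' k).Nonempty := by
        rw [← Finset.card_pos, (mem_QQ h1' k).2]
        norm_num
      obtain ⟨o', ho'⟩ := hne
      have h2 := key q' hq' k o ((mem_QQ h1 k).1 ho) hoq' o' ho'
      rw [← huu] at h2
      by_cases h3 : o' ∈ q k
      · have h4 := hu q hq k o ho o' h3
        linarith
      · have h4 := key q hq k o' ((mem_QQ h1' k).1 ho') h3 o ho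
        linarith
    · rw [(mem_QQ h1 k).2, (mem_QQ h1' k).2]
  have hqq : ∀ w : Fin d → ℝ, ∃ q : Fin d → Finset (Option (Fin d → ℤ)),
      w ∈ (Act A j P₂ z).image u → q ∈ Act A j P₂ z ∧ u q = w := by
    intro w
    by_cases h : w ∈ (Act A j P₂ z).image u
    · obtain ⟨q, hq, hqw⟩ := Finset.mem_image.1 h
      exact ⟨q, fun _ => ⟨hq, hqw⟩⟩
    · exact ⟨fun _ => ∅, fun h' => absurd h' h⟩
  choose qq hqq using hqq
  have hmain := hLemM d (Option (Fin d → ℤ)) (fun k => OO A (j.succAbove k)) (fun _ o => Gp.vc o)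
    (fun k o => o.elim (z (j.succAbove k)) (η (j.succAbove k))) ((Act A j P₂ z).image u) qq
    (by
      intro w hw k
      obtain ⟨hq, hqw⟩ := hqq w hw
      obtain ⟨h1, h2, -⟩ := mem_Act hq
      have e := vl_eq η w z (j.succAbove k)
      have hlt : ∀ o ∈ qq w k, ∀ o' ∈ OO A (j.succAbove k), o' ∉ qq w k →
          Gp.vc o ⬝ᵥ w + o.elim (z (j.succAbove k)) (η (j.succAbove k)) <
            Gp.vc o' ⬝ᵥ w + o'.elim (z (j.succAbove k)) (η (j.succAbove k)) := by
        intro o ho o' ho' hoq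
        have h3 := key (qq w) hq k o' ho' hoq o ho
        rw [hqw] at h3
        rw [← e o, ← e o']
        exact h3
      refine ⟨(mem_QQ h1 k).1, (mem_QQ h1 k).2, ?_, hlt⟩
      intro o ho o' ho'
      by_cases hoq : o' ∈ qq w k
      · have h3 := hu (qq w) hq k o ho o' hoq
        rw [hqw] at h3
        rw [← e o, ← e o']
        exact h3.le
      · exact (hlt o ho o' ho' hoq).le)
    (by
      intro w hw w' hw'
      obtain ⟨hq, -⟩ := hqq w hw
      exact (mem_Act hq).2.1 w' hw')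
  rw [Finset.card_image_of_injOn hinj] at hmain
  refine hmain.trans (le_of_eq ?_)
  apply Finset.prod_congr rfl
  intro k _
  simp only [OO, Finset.card_insertNone]
  omega

end Pool.Agent.Lib.MP_4e7804_co.Av
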