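import Pool.Agent.Lib.MP_4e7804_co.Av.SpecU

/-!
# MP_4e7804_co, package Av: avoiding finitely many affine functionals

In every nonempty open set there is a rational point at which finitely many nontrivial affine
functionals do not vanish.
-/

set_option autoImplicit false

open Finset

namespace Pool.Agent.Lib.MP_4e7804_co.Av

namespace AvdN

/-- a nontrivial affine functional does not vanish on a nonempty open set -/
private lemma one (m : ℕ) (a : Fin m → ℝ) (b : ℝ) (h : a ≠ 0 ∨ b ≠ 0) (D : Set (Fin m → ℝ))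
    (hD : IsOpen D) (z₀ : Fin m → ℝ) (hz₀ : z₀ ∈ D) : ∃ z ∈ D, a ⬝ᵥ z + b ≠ 0 := by
  by_cases ha : a = 0
  · refine ⟨z₀, hz₀, ?_⟩
    rw [ha, zero_dotProduct, zero_add]
    exact h.resolve_left (fun h' => h' ha)
  by_contra hc
  push Not at hc
  obtain ⟨k, hk⟩ : ∃ k, a k ≠ 0 := by
    by_contra h'
    push Not at h'
    exact ha (funext h')
  have hcont : Continuous (fun t : ℝ => z₀ + t • (Pi.single k (1 : ℝ) : Fin m → ℝ)) := by
    fun_prop
  have hopen : IsOpen ((fun t : ℝ => z₀ + t • (Pi.single k (1 : ℝ) : Fin m → ℝ)) ⁻¹' D) :=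
    hD.preimage hcont
  have h0 : (0 : ℝ) ∈ (fun t : ℝ => z₀ + t • (Pi.single k (1 : ℝ) : Fin m → ℝ)) ⁻¹' D := by
    simpa using hz₀
  obtain ⟨e, he, hball⟩ := Metric.isOpen_iff.mp hopen 0 h0
  have hmem : (e / 2 : ℝ) ∈ (fun t : ℝ => z₀ + t • (Pi.single k (1 : ℝ) : Fin m → ℝ)) ⁻¹' D := by
    apply hball
    rw [Metric.mem_ball, dist_zero_right, Real.norm_eq_abs, abs_of_pos (by positivity)]
    linarith
  have h1 := hc _ hmem
  have h2 := hc _ hz₀
  rw [dotProduct_add, dotProduct_smul, dotProduct_single_one, smul_eq_mul] at h1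
  have h3 : e / 2 * a k = 0 := by linarith
  rcases mul_eq_zero.mp h3 with h4 | h4
  · linarith
  · exact hk h4

/-- finitely many nontrivial affine functionals do not vanish on a smaller nonempty open set -/
private lemma many (m : ℕ) (F : Finset ((Fin m → ℝ) × ℝ)) :
    (∀ f ∈ F, f.1 ≠ 0 ∨ f.2 ≠ 0) → ∀ D : Set (Fin m → ℝ), IsOpen D → D.Nonempty →
      ∃ D' : Set (Fin m → ℝ), IsOpen D' ∧ D'.Nonempty ∧ D' ⊆ D ∧
        ∀ f ∈ F, ∀ z ∈ D', f.1 ⬝ᵥ z + f.2 ≠ 0 := by
  classical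
  induction F using Finset.induction_on with
  | empty => intro _ D hD hne; exact ⟨D, hD, hne, subset_rfl, by simp⟩
  | insert f F hf ih =>
    intro hF D hD hne
    obtain ⟨D', hD', hne', hsub, hz⟩ :=
      ih (fun g hg => hF g (Finset.mem_insert_of_mem hg)) D hD hne
    obtain ⟨z₀, hz₀⟩ := hne'
    obtain ⟨z, hzD, hzf⟩ := one m f.1 f.2 (hF f (Finset.mem_insert_self f F)) D' hD' z₀ hz₀
    refine ⟨D' ∩ {z | f.1 ⬝ᵥ z + f.2 ≠ 0}, hD'.inter ?_, ⟨z, hzD, hzf⟩,
      fun y hy => hsub hy.1, ?_⟩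
    · have hcont : Continuous (fun z : Fin m → ℝ => f.1 ⬝ᵥ z + f.2) := by
        unfold dotProduct
        fun_prop
      exact isOpen_ne_fun hcont continuous_const
    · intro g hg y hy
      rcases Finset.mem_insert.mp hg with rfl | hg
      · exact hy.2
      · exact hz g hg y hy.1

end AvdN

/-- **Avd** -/
theorem tAvd : StmtAvd := by
  intro m F hF D hD hne
  obtain ⟨D', hD', hne', hsub, hz⟩ := AvdN.many m F hF D hD hne
  have hdense : DenseRange (fun z : Fin m → ℚ => fun k => ((z k : ℚ) : ℝ)) := by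
    have := DenseRange.piMap (fun _ : Fin m => Rat.denseRange_cast (𝕜 := ℝ))
    exact this
  obtain ⟨z, hy⟩ := hdense.exists_mem_open hD' hne'
  exact ⟨z, hsub hy, fun f hf => hz f hf _ hy⟩

end Pool.Agent.Lib.MP_4e7804_co.Av
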