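import Pool.Agent.Lib.MP_4e7804_co.Av.SpecL
import Pool.Agent.Lib.MP_4e7804_co.Lo.Boxes

/-!
# MP_4e7804_co, Av: counting vertices by boxes
-/

set_option autoImplicit false

open Finset

namespace Pool.Agent.Lib.MP_4e7804_co.Av

namespace BxN

open Filter Topology

/-- a point of the interval with a given number of elements of `R` below it -/
private theorem level (R : Finset ℚ) (lo : ℚ) : (∀ r ∈ R, lo < r) → ∀ k ≤ R.card, ∀ hi : ℚ, lo < hi →
    (∀ r ∈ R, r < hi) → ∃ u : ℚ, lo < u ∧ u < hi ∧ u ∉ R ∧ (R.filter (· < u)).card = k := by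
  classical
  induction R using Finset.induction_on_max with
  | empty =>
    intro _ k hk M hM _
    obtain ⟨u, h1, h2⟩ := exists_between hM
    refine ⟨u, h1, h2, by simp, ?_⟩
    simp at hk
    simp [hk]
  | insert a s hs ih =>
    intro hpos k hk M hM hlt
    have ha : a ∉ s := fun h => lt_irrefl _ (hs a h)
    rw [card_insert_of_notMem ha] at hk
    have hapos : lo < a := hpos a (mem_insert_self _ _)
    rcases Nat.lt_or_ge k (s.card + 1) with hk' | hk'
    · obtain ⟨u, hu0, hua, hus, hcard⟩ := ih (fun r hr => hpos r (mem_insert_of_mem hr)) k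
        (by omega) a hapos hs
      refine ⟨u, hu0, hua.trans (hlt a (mem_insert_self _ _)), ?_, ?_⟩
      · simp only [mem_insert, not_or]
        exact ⟨ne_of_lt hua, hus⟩
      · rw [filter_insert, if_neg (by linarith)]
        exact hcard
    · have hk2 : k = s.card + 1 := by omega
      have haM : a < M := hlt a (mem_insert_self _ _)
      have hall : ∀ r ∈ insert a s, r < (a + M) / 2 := by
        intro r hr
        rcases mem_insert.1 hr with rfl | h
        · linarith
        · have := hs r h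
          linarith
      refine ⟨(a + M) / 2, by linarith, by linarith, fun h => lt_irrefl _ (hall _ h), ?_⟩
      rw [filter_true_of_mem hall, card_insert_of_notMem ha, hk2]

/-- the moving point -/
private def Y {n : ℕ} (h : Fin n) (u : Fin n → ℚ) (t : ℚ) : Fin n → ℚ := fun l =>
  if l = h then 1 else u l + t ^ (l.val + 1)

private theorem ev_notMem (S : Set ℚ) (hS : S.Finite) : ∀ᶠ t in 𝓝[>] (0 : ℚ), t ∉ S := by
  have h1 : (S \ {0})ᶜ ∈ 𝓝 (0 : ℚ) :=
    (hS.subset Set.sdiff_subset).isClosed.isOpen_compl.mem_nhds (by simp)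
  filter_upwards [mem_nhdsWithin_of_mem_nhds h1, self_mem_nhdsWithin] with t ht ht0 htS
  exact ht ⟨htS, by simpa using (ne_of_gt ht0)⟩

private theorem generic {n : ℕ} (h : Fin n) (u : Fin n → ℚ) (α β : Fin n → ℝ) (hne : α ≠ β) :
    ∀ᶠ t in 𝓝[>] (0 : ℚ), α ⬝ᵥ (fun l => ((Y h u t l : ℚ) : ℝ)) ≠
      β ⬝ᵥ (fun l => ((Y h u t l : ℚ) : ℝ)) := by
  classical
  let p : Polynomial ℝ := ∑ l : Fin n, Polynomial.C (α l - β l) *
    (if l = h then 1 else Polynomial.C ((u l : ℚ) : ℝ) + Polynomial.X ^ (l.val + 1))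
  have hp : p ≠ 0 := by
    intro hp
    have h1 : ∀ l, l ≠ h → α l = β l := by
      intro l0 hl0
      have h2 : p.coeff (l0.val + 1) = α l0 - β l0 := by
        simp only [p, Polynomial.finsetSum_coeff, Polynomial.coeff_C_mul]
        rw [Finset.sum_eq_single l0]
        · rw [if_neg hl0, Polynomial.coeff_add, Polynomial.coeff_C, if_neg (by omega),
            Polynomial.coeff_X_pow, if_pos rfl]
          ring
        · intro l _ hl
          by_cases hlh : l = h
          · rw [if_pos hlh, Polynomial.coeff_one, if_neg (by omega), mul_zero]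
          · rw [if_neg hlh, Polynomial.coeff_add, Polynomial.coeff_C, if_neg (by omega),
              Polynomial.coeff_X_pow, if_neg, add_zero, mul_zero]
            intro h3
            exact hl (Fin.ext (by omega))
        · intro h3
          exact absurd (mem_univ l0) h3
      rw [hp, Polynomial.coeff_zero] at h2
      linarith
    have h2 : p = Polynomial.C (α h - β h) := by
      simp only [p]
      rw [Finset.sum_eq_single h]
      · rw [if_pos rfl, mul_one]
      · intro l _ hl
        rw [h1 l hl, sub_self, Polynomial.C_0, zero_mul]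
      · intro h3
        exact absurd (mem_univ h) h3
    rw [hp] at h2
    have h3 : α h - β h = 0 := Polynomial.C_eq_zero.1 h2.symm
    apply hne
    funext l
    by_cases hl : l = h
    · rw [hl]
      linarith
    · exact h1 l hl
  have hev : ∀ t : ℚ, p.eval (t : ℝ) = α ⬝ᵥ (fun l => ((Y h u t l : ℚ) : ℝ)) -
      β ⬝ᵥ (fun l => ((Y h u t l : ℚ) : ℝ)) := by
    intro t
    simp only [p, Polynomial.eval_finsetSum, dotProduct, ← Finset.sum_sub_distrib]
    refine Finset.sum_congr rfl fun l _ => ?_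
    by_cases hl : l = h
    · simp [Y, hl]
    · simp only [Y, hl, if_false, Polynomial.eval_mul, Polynomial.eval_C, Polynomial.eval_add,
        Polynomial.eval_pow, Polynomial.eval_X]
      push_cast
      ring
  have hfin : {t : ℚ | Polynomial.IsRoot p (t : ℝ)}.Finite :=
    (Polynomial.finite_setOfPred_isRoot hp).preimage (Rat.cast_injective.injOn)
  filter_upwards [ev_notMem _ hfin] with t ht hcon
  apply ht
  change p.eval (t : ℝ) = 0
  rw [hev, hcon, sub_self]

private theorem ev_lt (u r : ℚ) (m : ℕ) (hur : u < r) :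
    ∀ᶠ t in 𝓝[>] (0 : ℚ), u + t ^ (m + 1) < r := by
  have hc : Continuous (fun t : ℚ => u + t ^ (m + 1)) := by fun_prop
  have h1 : Tendsto (fun t : ℚ => u + t ^ (m + 1)) (𝓝 0) (𝓝 u) := by
    have := hc.tendsto 0
    simpa using this
  exact nhdsWithin_le_nhds (h1.eventually (gt_mem_nhds hur))

/-- a rational point with the prescribed ranks at which the values are different -/
private theorem point {n : ℕ} (M : Finset (Fin n → ℝ)) (h : Fin n) (lo hi : Fin n → ℚ)
    (R : Fin n → Finset ℚ) (hlh : ∀ l, l ≠ h → lo l < hi l)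
    (hR : ∀ l, ∀ r ∈ R l, lo l < r ∧ r < hi l) (g : ∀ l, Fin ((R l).card + 1)) :
    ∃ y : Fin n → ℚ, y h = 1 ∧ (∀ l, l ≠ h → lo l < y l ∧ y l < hi l) ∧
      (∀ l, l ≠ h → ((R l).filter (· < y l)).card = g l) ∧
      ∀ α ∈ M, ∀ β ∈ M, α ≠ β → α ⬝ᵥ (fun l => ((y l : ℚ) : ℝ)) ≠
        β ⬝ᵥ (fun l => ((y l : ℚ) : ℝ)) := by
  classical
  have hu : ∀ l, ∃ u : ℚ, l ≠ h → lo l < u ∧ u < hi l ∧ u ∉ R l ∧
      ((R l).filter (· < u)).card = g l := by
    intro l
    by_cases hl : l = h
    · exact ⟨0, fun hc => absurd hl hc⟩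
    · obtain ⟨u, hu⟩ := level (R l) (lo l) (fun r hr => (hR l r hr).1) (g l)
        (by have := (g l).2; omega) (hi l) (hlh l hl) (fun r hr => (hR l r hr).2)
      exact ⟨u, fun _ => hu⟩
  choose u hu using hu
  have e1 : ∀ᶠ t in 𝓝[>] (0 : ℚ), ∀ l, l ≠ h → u l + t ^ (l.val + 1) < hi l := by
    rw [eventually_all]
    intro l
    by_cases hl : l = h
    · exact Eventually.of_forall fun t hc => absurd hl hc
    · filter_upwards [ev_lt (u l) (hi l) l.val (hu l hl).2.1] with t ht _
      exact ht
  have e2 : ∀ᶠ t in 𝓝[>] (0 : ℚ), ∀ l, ∀ r ∈ R l, u l < r → u l + t ^ (l.val + 1) < r := by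
    rw [eventually_all]
    intro l
    rw [eventually_all_finset]
    intro r _
    by_cases hl : u l < r
    · filter_upwards [ev_lt (u l) r l.val hl] with t ht _
      exact ht
    · exact Eventually.of_forall fun t hc => absurd hc hl
  have e3 : ∀ᶠ t in 𝓝[>] (0 : ℚ), ∀ α ∈ M, ∀ β ∈ M, α ≠ β →
      α ⬝ᵥ (fun l => ((Y h u t l : ℚ) : ℝ)) ≠ β ⬝ᵥ (fun l => ((Y h u t l : ℚ) : ℝ)) := by
    rw [eventually_all_finset]
    intro α _
    rw [eventually_all_finset]
    intro β _
    by_cases hne : α = β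
    · exact Eventually.of_forall fun t hc => absurd hne hc
    · filter_upwards [generic h u α β hne] with t ht _
      exact ht
  obtain ⟨t, ⟨⟨h1, h2⟩, h3⟩, h4⟩ := (((e1.and e2).and e3).and
    (self_mem_nhdsWithin : ∀ᶠ t in 𝓝[>] (0 : ℚ), t ∈ Set.Ioi (0 : ℚ))).exists
  have ht0 : (0 : ℚ) < t := h4
  refine ⟨Y h u t, by simp [Y], fun l hl => ?_, fun l hl => ?_, h3⟩
  · have h5 : 0 < t ^ (l.val + 1) := pow_pos ht0 _
    have h6 := (hu l hl).1
    simp only [Y, hl, if_false]
    exact ⟨by linarith, h1 l hl⟩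
  · rw [← (hu l hl).2.2.2]
    congr 1
    ext r
    simp only [mem_filter, and_congr_right_iff, Y, hl, if_false]
    intro hr
    have h5 : 0 < t ^ (l.val + 1) := pow_pos ht0 _
    constructor
    · intro hrx
      rcases lt_trichotomy r (u l) with h | h | h
      · exact h
      · exact absurd (h ▸ hr) (hu l hl).2.2.1
      · exact absurd (h2 l r hr h) (not_lt.2 hrx.le)
    · intro hru
      linarith

end BxN

open BxN in
/-- **Bx**: counting vertices by boxes. -/
theorem tBx : StmtBx := by
  classical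
  intro n M hM h lo hi R hRh hlh hR hsheet
  choose y hy1 hybox hyrank hygen using point M h lo hi R hlh hR
  let v : (∀ l, Fin ((R l).card + 1)) → Fin n → ℝ := fun g l => ((y g l : ℚ) : ℝ)
  have hmin : ∀ g, ∃ a ∈ M, ∀ b ∈ M, b ≠ a → a ⬝ᵥ v g < b ⬝ᵥ v g := by
    intro g
    obtain ⟨a, haS, ha⟩ := M.exists_min_image (fun b => b ⬝ᵥ v g) hM
    refine ⟨a, haS, fun b hb hba => lt_of_le_of_ne (ha b hb) ?_⟩
    exact hygen g a haS b hb (Ne.symm hba)
  choose a haS hamin using hmin
  have hinj : Function.Injective a := by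
    intro g g' hgg
    by_contra hne
    obtain ⟨i, hi'⟩ := Function.ne_iff.1 hne
    have main : ∀ g g' : (∀ l, Fin ((R l).card + 1)), a g = a g' → ∀ i, (g i : ℕ) < g' i →
        False := by
      intro g g' hgg i hlt
      have hih : i ≠ h := by
        rintro rfl
        have h1 := (g' i).2
        have h2 : (R i).card = 0 := by rw [hRh, card_empty]
        omega
      have hex : ∃ ρ ∈ R i, y g i ≤ ρ ∧ ρ < y g' i := by
        by_contra hcon
        push Not at hcon
        have hsub : (R i).filter (· < y g' i) ⊆ (R i).filter (· < y g i) := by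
          intro r hr
          rw [mem_filter] at hr ⊢
          refine ⟨hr.1, ?_⟩
          by_contra hc
          exact absurd hr.2 (not_lt.2 (hcon r hr.1 (not_lt.1 hc)))
        have := card_le_card hsub
        rw [hyrank g' i hih, hyrank g i hih] at this
        omega
      obtain ⟨ρ, hρR, hρ1, hρ2⟩ := hex
      have hden : 0 < y g' i - y g i := by linarith
      obtain ⟨t, ht0, ht1, htρ⟩ : ∃ t : ℚ, 0 ≤ t ∧ t < 1 ∧
          (1 - t) * y g i + t * y g' i = ρ := by
        refine ⟨(ρ - y g i) / (y g' i - y g i), div_nonneg (by linarith) hden.le, ?_, ?_⟩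
        · rw [div_lt_one hden]
          linarith
        · field_simp
          ring
      let z : Fin n → ℚ := fun j => (1 - t) * y g j + t * y g' j
      have hz1 : z h = 1 := by
        simp only [z, hy1]
        ring
      have hzb : ∀ l, l ≠ h → lo l < z l ∧ z l < hi l := by
        intro l hl
        obtain ⟨b1, b2⟩ := hybox g l hl
        obtain ⟨c1, c2⟩ := hybox g' l hl
        have p1 : 0 < 1 - t := by linarith
        simp only [z]
        constructor
        · nlinarith [mul_pos p1 (sub_pos.2 b1), mul_nonneg ht0 (sub_pos.2 c1).le]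
        · nlinarith [mul_pos p1 (sub_pos.2 b2), mul_nonneg ht0 (sub_pos.2 c2).le]
      obtain ⟨b, hbS, hba, hble⟩ := hsheet z hz1 hzb ⟨i, by simpa [z, htρ] using hρR⟩ (a g) (haS g)
      have hcomb : ∀ γ : Fin n → ℝ, γ ⬝ᵥ (fun l => ((z l : ℚ) : ℝ)) =
          (1 - (t : ℝ)) * (γ ⬝ᵥ v g) + (t : ℝ) * (γ ⬝ᵥ v g') := by
        intro γ
        have hv : (fun l => ((z l : ℚ) : ℝ)) = (1 - (t : ℝ)) • v g + (t : ℝ) • v g' := by
          funext j
          simp [z, v]
        rw [hv, dotProduct_add, dotProduct_smul, dotProduct_smul, smul_eq_mul, smul_eq_mul]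
      rw [hcomb, hcomb] at hble
      have ht0' : (0 : ℝ) ≤ t := by exact_mod_cast ht0
      have ht1' : (t : ℝ) < 1 := by exact_mod_cast ht1
      have h1 := hamin g b hbS hba
      have h2 := hamin g' b hbS (by rw [← hgg]; exact hba)
      rw [← hgg] at h2
      have h3 : (1 - (t : ℝ)) * (a g ⬝ᵥ v g) < (1 - (t : ℝ)) * (b ⬝ᵥ v g) :=
        mul_lt_mul_of_pos_left h1 (by linarith)
      have h4 : (t : ℝ) * (a g ⬝ᵥ v g') ≤ (t : ℝ) * (b ⬝ᵥ v g') :=
        mul_le_mul_of_nonneg_left h2.le ht0'
      linarith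
    rcases lt_or_gt_of_ne (fun h => hi' (Fin.ext h) : (g i : ℕ) ≠ g' i) with h | h
    · exact main g g' hgg i h
    · exact main g' g hgg.symm i h
  have hext : ∀ g, a g ∈ (convexHull ℝ (M : Set (Fin n → ℝ))).extremePoints ℝ := fun g =>
    Boxes_extreme _ (a g) (haS g) _ (fun b hb hba => hamin g b hb hba)
  have hfin : ((convexHull ℝ (M : Set (Fin n → ℝ))).extremePoints ℝ).Finite :=
    M.finite_toSet.subset extremePoints_convexHull_subset
  have hcard : (Set.range a).ncard = ∏ i, ((R i).card + 1) := by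
    rw [← Set.image_univ, Set.ncard_image_of_injective _ hinj, Set.ncard_univ,
      Nat.card_eq_fintype_card, Fintype.card_pi]
    simp
  rw [← hcard]
  exact Set.ncard_le_ncard (by rintro _ ⟨g, rfl⟩; exact hext g) hfin

end Pool.Agent.Lib.MP_4e7804_co.Av
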