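import Pool.Agent.Lib.MP_4e7804_co.Av.SpecL

set_option autoImplicit false

open Finset

namespace Pool.Agent.Lib.MP_4e7804_co.Av

namespace CAN

/-- the parameters -/
private def P (κ μ b : ℕ) (v : ℕ → ℕ) : Pm where
  κ := κ
  μ := μ
  v := v
  a := fun i => if i = 0 then (v 0 - 1) / (μ + 1) else v i - 1
  G := fun i => if i = 0 then μ + 1 else 1
  g := fun c i => if c < κ then (if i = c then (if c = 0 then μ + 1 else 1) + 1 else 1)
    else (if i = 0 then c - κ + 1 else 1)
  b := fun c => if c = κ + μ then 1 else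
    if c = 0 then (b - 1) / (κ + μ) + (b - 1) % (κ + μ) else (b - 1) / (κ + μ)
  B := b + ∑ i ∈ range κ, v i

variable {κ μ b : ℕ} {v : ℕ → ℕ}

private lemma g_ne_lt (hκ : 1 ≤ κ) {c c' : ℕ} (hc' : c' ≤ κ + μ) (hcc : c < c') :
    ∃ i < κ, (P κ μ b v).g c i ≠ (P κ μ b v).g c' i := by
  by_cases hc : c < κ
  · refine ⟨c, hc, ?_⟩
    simp only [P, if_pos hc, if_true]
    split_ifs <;> omega
  · refine ⟨0, by omega, ?_⟩
    have h2 : ¬ c' < κ := by omega
    simp only [P, if_neg hc, if_neg h2, if_true]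
    omega

private lemma ok (hκ : 1 ≤ κ) (hv : ∀ i < κ, 2 ≤ v i) (hv0 : μ + 2 ≤ v 0)
    (hb : κ + μ + 1 ≤ b) : (P κ μ b v).Ok where
  a_pos := by
    intro i hi
    have h1 := hv i hi
    simp only [P]
    by_cases h0 : i = 0
    · rw [if_pos h0]
      exact Nat.div_pos (by omega) (by omega)
    · rw [if_neg h0]
      omega
  G_pos := by
    intro i _
    simp only [P]
    split_ifs <;> omega
  aG := by
    intro i hi
    have h1 := hv i hi
    simp only [P]
    by_cases h0 : i = 0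
    · subst h0
      simp only [if_true]
      have := Nat.div_mul_le_self (v 0 - 1) (μ + 1)
      omega
    · rw [if_neg h0, if_neg h0]
      omega
  v_le := by
    intro i hi
    have h1 : v i ≤ ∑ i ∈ range κ, v i :=
      single_le_sum (f := v) (fun _ _ => Nat.zero_le _) (mem_range.2 hi)
    simp only [P]
    omega
  b_le := by
    intro c _
    have h1 : (κ + μ) * ((b - 1) / (κ + μ)) + (b - 1) % (κ + μ) = b - 1 := Nat.div_add_mod _ _
    have h2 : (b - 1) / (κ + μ) ≤ (κ + μ) * ((b - 1) / (κ + μ)) :=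
      Nat.le_mul_of_pos_left _ (by omega)
    simp only [P]
    split_ifs <;> omega
  bD := by
    simp only [P, Pm.D, if_true]
  gD := by
    intro i _
    simp only [P, Pm.D]
    rw [if_neg (by omega)]
    split_ifs <;> omega
  g_pos := by
    intro c hc _ i _
    simp only [P, Pm.D] at hc ⊢
    split_ifs <;> omega
  g_self := by
    intro c hc _
    have hc' : c < κ := hc
    simp only [P, if_pos hc', if_true]
  g_oth := by
    intro c hc _ i _ hic
    have hc' : c < κ := hc
    simp only [P, if_pos hc', if_neg hic]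
    split_ifs <;> omega
  g_ne := by
    intro c hc c' hc' hne _ _
    simp only [Pm.D, P] at hc hc'
    rcases lt_or_gt_of_ne hne with h | h
    · exact g_ne_lt hκ hc' h
    · obtain ⟨i, hi, h2⟩ := g_ne_lt (b := b) (v := v) hκ hc h
      exact ⟨i, hi, h2.symm⟩

private lemma fr_lt {c : ℕ} (hc : c < κ) : (P κ μ b v).fr c = (range κ).erase c := by
  ext i
  unfold Pm.fr
  rw [mem_filter, mem_erase]
  simp only [P]
  rw [if_pos hc]
  by_cases h : i = c
  · subst h
    rw [if_pos rfl]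
    constructor
    · rintro ⟨_, h2⟩
      omega
    · rintro ⟨h2, _⟩
      exact absurd rfl h2
  · rw [if_neg h]
    constructor
    · rintro ⟨h1, _⟩
      exact ⟨h, h1⟩
    · rintro ⟨_, h1⟩
      refine ⟨h1, ?_⟩
      split_ifs <;> omega

private lemma fr_ge {c : ℕ} (hc : κ ≤ c) (hc' : c ≤ κ + μ) :
    (P κ μ b v).fr c = range κ := by
  ext i
  unfold Pm.fr
  rw [mem_filter]
  simp only [P]
  rw [if_neg (by omega)]
  constructor
  · exact fun h => h.1
  · intro h
    refine ⟨h, ?_⟩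
    split_ifs <;> omega

private lemma sum_b (hκ : 1 ≤ κ) (hb : κ + μ + 1 ≤ b) :
    ∑ c ∈ range (κ + μ + 1), (P κ μ b v).b c = b := by
  have h1 : (κ + μ) * ((b - 1) / (κ + μ)) + (b - 1) % (κ + μ) = b - 1 := Nat.div_add_mod _ _
  rw [sum_range_succ]
  have h2 : ∀ c ∈ range (κ + μ), (P κ μ b v).b c =
      (b - 1) / (κ + μ) + if c = 0 then (b - 1) % (κ + μ) else 0 := by
    intro c hc
    rw [mem_range] at hc
    simp only [P]
    rw [if_neg (by omega)]
    split_ifs <;> omega
  rw [sum_congr rfl h2, sum_add_distrib, sum_const, card_range, smul_eq_mul, sum_ite_eq',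
    if_pos (mem_range.2 (by omega)), h1]
  simp only [P, if_true]
  omega

private lemma prodA (hκ : 1 ≤ κ) : ∏ i ∈ range κ, (P κ μ b v).a i =
    (v 0 - 1) / (μ + 1) * ∏ i ∈ Ico 1 κ, (v i - 1) := by
  rw [range_eq_Ico, prod_eq_prod_Ico_succ_bot (by omega : 0 < κ)]
  congr 1
  refine prod_congr rfl fun i hi => ?_
  rw [mem_Ico] at hi
  simp only [P]
  rw [if_neg (by omega)]

private lemma prod_erase' (κ : ℕ) (a : ℕ → ℕ) :
    (∏ c ∈ range κ, ∏ i ∈ (range κ).erase c, a i) * ∏ i ∈ range κ, a i =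
      (∏ i ∈ range κ, a i) ^ κ := by
  rw [← prod_mul_distrib]
  have h1 : ∀ c ∈ range κ, (∏ i ∈ (range κ).erase c, a i) * a c = ∏ i ∈ range κ, a i :=
    fun c hc => prod_erase_mul _ _ hc
  rw [prod_congr rfl h1, prod_const, card_range]

end CAN

open CAN in
/-- StmtCA -/
theorem tCA (hCore : StmtCore) : StmtCA := by
  intro κ μ b v hκ hv hv0 hb
  obtain ⟨N', hN, hle⟩ := hCore (CAN.P κ μ b v) (CAN.ok hκ hv hv0 hb)
  have hvec : (CAN.P κ μ b v).vec = vecC κ μ b v := by
    have h1 := CAN.sum_b (v := v) hκ hb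
    funext j
    refine Fin.cases ?_ (fun l => ?_) j
    · exact h1
    · rfl
  refine ⟨N', ?_, ?_⟩
  · rw [← hvec]
    exact hN
  · refine le_trans ?_ hle
    rw [← CAN.prodA (b := b) hκ]
    set A : ℕ := ∏ i ∈ range κ, (CAN.P κ μ b v).a i with hA
    set q : ℕ := (b - 1) / (κ + μ) with hq
    have hif : ∀ i < (CAN.P κ μ b v).κ, 1 ≤ (CAN.P κ μ b v).g (CAN.P κ μ b v).D i := by
      intro i _
      simp only [CAN.P, Pm.D]
      split_ifs <;> omega
    rw [if_pos hif]
    have h1 : ∀ c ∈ range (κ + μ), (q - 1) * ∏ i ∈ (CAN.P κ μ b v).fr c, (CAN.P κ μ b v).a i ≤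
        1 + ((CAN.P κ μ b v).b c - 1) * ∏ i ∈ (CAN.P κ μ b v).fr c, (CAN.P κ μ b v).a i := by
      intro c hc
      rw [mem_range] at hc
      have h2 : q ≤ (CAN.P κ μ b v).b c := by
        simp only [CAN.P]
        rw [if_neg (by omega)]
        split_ifs <;> omega
      have h3 : (q - 1) * ∏ i ∈ (CAN.P κ μ b v).fr c, (CAN.P κ μ b v).a i ≤
          ((CAN.P κ μ b v).b c - 1) * ∏ i ∈ (CAN.P κ μ b v).fr c, (CAN.P κ μ b v).a i :=
        Nat.mul_le_mul_right _ (by omega)
      omega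
    have h4 : ∏ c ∈ range (κ + μ), ∏ i ∈ (CAN.P κ μ b v).fr c, (CAN.P κ μ b v).a i =
        (∏ c ∈ range κ, ∏ i ∈ (range κ).erase c, (CAN.P κ μ b v).a i) * A ^ μ := by
      rw [prod_range_add]
      congr 1
      · refine prod_congr rfl fun c hc => ?_
        rw [CAN.fr_lt (mem_range.1 hc)]
      · have h5 : ∀ c ∈ range μ, ∏ i ∈ (CAN.P κ μ b v).fr (κ + c), (CAN.P κ μ b v).a i = A := by
          intro c hc
          rw [mem_range] at hc
          rw [CAN.fr_ge (by omega) (by omega)]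
        rw [prod_congr rfl h5, prod_const, card_range]
    calc ((q - 1) * A) ^ (κ + μ)
        = (q - 1) ^ (κ + μ) * ((∏ c ∈ range κ, ∏ i ∈ (range κ).erase c,
            (CAN.P κ μ b v).a i) * A * A ^ μ) := by
          rw [hA, CAN.prod_erase', mul_pow, ← pow_add]
      _ = (∏ c ∈ range (κ + μ), ((q - 1) * ∏ i ∈ (CAN.P κ μ b v).fr c,
            (CAN.P κ μ b v).a i)) * A := by
          rw [prod_mul_distrib, prod_const, card_range, h4]
          ring
      _ ≤ (∏ c ∈ range (CAN.P κ μ b v).D, (1 + ((CAN.P κ μ b v).b c - 1) *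
            ∏ i ∈ (CAN.P κ μ b v).fr c, (CAN.P κ μ b v).a i)) *
          (1 + ∏ i ∈ range (CAN.P κ μ b v).κ, (CAN.P κ μ b v).a i) := by
          refine Nat.mul_le_mul (prod_le_prod' h1) ?_
          exact Nat.le_add_left _ _

end Pool.Agent.Lib.MP_4e7804_co.Av
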