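import Pool.Agent.Lib.MP_4e7804_co.Av.SpecL

/-!
# MP_4e7804_co: only small colours with few vertices (module CB)
-/

set_option autoImplicit false

open Finset

namespace Pool.Agent.Lib.MP_4e7804_co.Av

namespace CBN

/-- an enumeration of a finite set which starts with given elements -/
private theorem exists_enum {α : Type} (T : Finset α) (κ : ℕ) (base : ℕ → α)
    (hb : ∀ c < κ, base c ∈ T) (hinj : ∀ c < κ, ∀ c' < κ, base c = base c' → c = c') :
    ∃ f : ℕ → α, (∀ c < κ, f c = base c) ∧ (∀ c < T.card, f c ∈ T) ∧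
      ∀ c < T.card, ∀ c' < T.card, f c = f c' → c = c' := by
  classical
  have hST : (range κ).image base ⊆ T := by
    intro x hx
    obtain ⟨c, hc, rfl⟩ := Finset.mem_image.1 hx
    exact hb c (Finset.mem_range.1 hc)
  have hSc : ((range κ).image base).card = κ := by
    rw [Finset.card_image_of_injOn, Finset.card_range]
    intro c hc c' hc' h
    exact hinj c (by simpa using hc) c' (by simpa using hc') h
  have hRc : (T \ (range κ).image base).card = T.card - κ := by
    rw [Finset.card_sdiff_of_subset hST, hSc]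
  obtain ⟨e⟩ : Nonempty ({x // x ∈ T \ (range κ).image base} ≃
      Fin (T \ (range κ).image base).card) := ⟨Finset.equivFin _⟩
  obtain ⟨f, hlow, hhigh⟩ : ∃ f : ℕ → α, (∀ c < κ, f c = base c) ∧
      ∀ c, κ ≤ c → ∀ h : c - κ < (T \ (range κ).image base).card,
        f c = (e.symm ⟨c - κ, h⟩ : {x // x ∈ T \ (range κ).image base}) := by
    refine ⟨fun c => if c < κ then base c else
      if h : c - κ < (T \ (range κ).image base).card then
        ((e.symm ⟨c - κ, h⟩ : {x // x ∈ T \ (range κ).image base}) : α) else base 0, ?_, ?_⟩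
    · intro c hc
      exact if_pos hc
    · intro c hc h
      change (if c < κ then base c else _) = _
      rw [if_neg (not_lt.2 hc), dif_pos h]
  refine ⟨f, hlow, ?_, ?_⟩
  · intro c hc
    rcases lt_or_ge c κ with h | h
    · rw [hlow c h]
      exact hb c h
    · rw [hhigh c h (by omega)]
      exact (Finset.mem_sdiff.1 (e.symm ⟨c - κ, by omega⟩).2).1
  · have key : ∀ c < κ, ∀ c', κ ≤ c' → c' < T.card → f c ≠ f c' := by
      intro c hc c' hc' hT h
      rw [hlow c hc, hhigh c' hc' (by omega)] at h
      have h1 := (Finset.mem_sdiff.1 (e.symm ⟨c' - κ, by omega⟩).2).2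
      rw [← h] at h1
      exact h1 (Finset.mem_image.2 ⟨c, Finset.mem_range.2 hc, rfl⟩)
    intro c hc c' hc' h
    rcases lt_or_ge c κ with h1 | h1 <;> rcases lt_or_ge c' κ with h2 | h2
    · rw [hlow c h1, hlow c' h2] at h
      exact hinj c h1 c' h2 h
    · exact absurd h (key c h1 c' h2 hc')
    · exact absurd h.symm (key c' h2 c h1 hc)
    · rw [hhigh c h1 (by omega), hhigh c' h2 (by omega)] at h
      have h3 := e.symm.injective (Subtype.ext h)
      have h4 : c - κ = c' - κ := congrArg Fin.val h3
      omega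

/-- a lower bound for a product over `range D` -/
private theorem pow_le_prod (D r q : ℕ) (hr : r ≤ D) (f : ℕ → ℕ) (h1 : ∀ c < r, q ≤ f c)
    (h2 : ∀ c < D, 1 ≤ f c) : q ^ r ≤ ∏ c ∈ range D, f c := by
  obtain ⟨k, rfl⟩ := Nat.exists_eq_add_of_le hr
  rw [Finset.prod_range_add]
  calc q ^ r = q ^ r * 1 := (mul_one _).symm
    _ ≤ (∏ c ∈ range r, f c) * ∏ c ∈ range k, f (r + c) := by
      refine Nat.mul_le_mul ?_ ?_
      · calc q ^ r = ∏ _c ∈ range r, q := by rw [Finset.prod_const, Finset.card_range]
          _ ≤ ∏ c ∈ range r, f c :=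
            Finset.prod_le_prod (fun _ _ => Nat.zero_le _) fun c hc => h1 c (Finset.mem_range.1 hc)
      · exact Nat.one_le_iff_ne_zero.2 (Finset.prod_ne_zero_iff.2 fun c hc => by
          have := h2 (r + c) (by have := Finset.mem_range.1 hc; omega)
          omega)

end CBN

open CBN in
theorem tCB (hCore : StmtCore) : StmtCB := by
  classical
  intro κ μ b v hκ hv hb
  obtain ⟨E, hE⟩ : ∃ E, E = ∏ i ∈ range κ, v i := ⟨_, rfl⟩
  rw [← hE]
  obtain ⟨r, hr⟩ : ∃ r, r = min (κ + μ) E := ⟨_, rfl⟩
  rw [← hr]
  obtain ⟨q, hq⟩ : ∃ q, q = (b - 1) / r := ⟨_, rfl⟩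
  rw [← hq]
  have hκE : κ ≤ E := by
    calc κ ≤ 2 ^ κ := Nat.lt_two_pow_self.le
      _ = ∏ _i ∈ range κ, 2 := by rw [Finset.prod_const, Finset.card_range]
      _ ≤ ∏ i ∈ range κ, v i :=
        Finset.prod_le_prod (fun _ _ => Nat.zero_le _) fun i hi => hv i (Finset.mem_range.1 hi)
      _ = E := hE.symm
  have hrD : r ≤ κ + μ := by omega
  have hrE : r ≤ E := by omega
  have hκr : κ ≤ r := by omega
  -- the positions
  have hT : (Fintype.piFinset fun i : Fin κ => Icc 1 (v i)).card = E := by
    rw [Fintype.card_piFinset, hE, ← Fin.prod_univ_eq_prod_range]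
    refine Finset.prod_congr rfl fun i _ => ?_
    rw [Nat.card_Icc, Nat.add_sub_cancel]
  obtain ⟨pos, hpos, hposT, hposi⟩ := exists_enum (Fintype.piFinset fun i : Fin κ => Icc 1 (v i)) κ
    (fun c i => if i.val = c then v c else 1)
    (by
      intro c _
      rw [Fintype.mem_piFinset]
      intro i
      have h2 := hv i i.2
      rw [Finset.mem_Icc]
      split_ifs with h
      · rw [h] at h2 ⊢
        exact ⟨by omega, le_rfl⟩
      · exact ⟨le_rfl, by omega⟩)
    (by
      intro c hc c' hc' h
      have h1 := congrFun h ⟨c, hc⟩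
      have h2 := hv c hc
      simp only [if_true] at h1
      by_contra hne
      rw [if_neg hne] at h1
      omega)
  rw [hT] at hposT hposi
  have hI : ∀ c < r, ∀ i : Fin κ, 1 ≤ pos c i ∧ pos c i ≤ v i := fun c hc i =>
    Finset.mem_Icc.1 (Fintype.mem_piFinset.1 (hposT c (by omega)) i)
  -- the parameters
  let Q : Pm :=
    { κ := κ
      μ := μ
      v := v
      a := fun _ => 1
      G := fun i => v i - 1
      g := fun c i => if c < r then (if h : i < κ then pos c ⟨i, h⟩ else 0) else
        if c < κ + μ then 1 else 0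
      b := fun c => if c = κ + μ then 1 else (if c < r then q else 0) + if c = 0 then (b - 1) % r else 0
      B := b + ∑ i ∈ range κ, v i }
  have hgr : ∀ c < r, ∀ i (h : i < κ), Q.g c i = pos c ⟨i, h⟩ := by
    intro c hc i h
    change (if c < r then (if h : i < κ then pos c ⟨i, h⟩ else 0) else _) = _
    rw [if_pos hc, dif_pos h]
  have hgD : ∀ i, Q.g (κ + μ) i = 0 := by
    intro i
    change (if κ + μ < r then _ else if κ + μ < κ + μ then 1 else 0) = 0
    rw [if_neg (by omega), if_neg (by omega)]
  have hbc : ∀ c < κ + μ, Q.b c = (if c < r then q else 0) + if c = 0 then (b - 1) % r else 0 := by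
    intro c hc
    exact if_neg (by omega)
  have hbD : Q.b (κ + μ) = 1 := if_pos rfl
  have hbr : ∀ c < κ + μ, 1 ≤ Q.b c → c < r := by
    intro c hc h
    by_contra hn
    rw [hbc c hc, if_neg hn, if_neg (by omega)] at h
    omega
  have hdiv : r * q + (b - 1) % r = b - 1 := by
    rw [hq]
    exact Nat.div_add_mod _ _
  have hqr : q ≤ r * q := Nat.le_mul_of_pos_left q (by omega)
  have hOk : Q.Ok :=
    { a_pos := fun _ _ => le_rfl
      G_pos := fun i hi => by
        have := hv i hi
        change 1 ≤ v i - 1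
        omega
      aG := fun i hi => by
        have := hv i hi
        change 1 * (v i - 1) + 1 ≤ v i
        omega
      v_le := fun i hi => by
        change v i ≤ b + ∑ i ∈ range κ, v i
        have hi' : i ∈ range κ := Finset.mem_range.2 hi
        have := Finset.single_le_sum (f := v) (fun _ _ => Nat.zero_le _) hi'
        omega
      b_le := fun c hc => by
        change Q.b c ≤ b + ∑ i ∈ range κ, v i
        have hc' : c ≤ κ + μ := hc
        rcases Nat.lt_or_eq_of_le hc' with h | h
        · rw [hbc c h]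
          split_ifs <;> omega
        · rw [h, hbD]
          omega
      bD := hbD
      gD := fun i _ => by
        change Q.g (κ + μ) i ≤ v i - 1
        rw [hgD]
        exact Nat.zero_le _
      g_pos := fun c hc h i hi => by
        have h1 := hbr c hc h
        have h2 := hI c h1 ⟨i, hi⟩
        have h3 := hv i hi
        rw [hgr c h1 i hi]
        change 1 ≤ pos c ⟨i, hi⟩ ∧ pos c ⟨i, hi⟩ ≤ v i - 1 + 1
        have h4 : pos c ⟨i, hi⟩ ≤ v i := h2.2
        omega
      g_self := fun c hc h => by
        have hc' : c < κ := hc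
        have h3 := hv c hc
        rw [hgr c (by omega) c hc, hpos c hc]
        change (if c = c then v c else 1) = v c - 1 + 1
        rw [if_pos rfl]
        omega
      g_oth := fun c hc h i hi hne => by
        have hc' : c < κ := hc
        have h3 := hv i hi
        rw [hgr c (by omega) i hi, hpos c hc]
        change (if i = c then v c else 1) ≤ v i - 1
        rw [if_neg hne]
        omega
      g_ne := by
        have key : ∀ c < κ + μ, 1 ≤ Q.b c → ∃ i < Q.κ, Q.g c i ≠ Q.g (κ + μ) i := by
          intro c hc h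
          have h1 := hbr c hc h
          refine ⟨0, hκ, ?_⟩
          rw [hgr c h1 0 hκ, hgD]
          have h2 := hI c h1 ⟨0, hκ⟩
          omega
        intro c hc c' hc' hne h h'
        have hcc : c ≤ κ + μ := hc
        have hcc' : c' ≤ κ + μ := hc'
        rcases Nat.lt_or_eq_of_le hcc with h1 | h1 <;> rcases Nat.lt_or_eq_of_le hcc' with h2 | h2
        · have h3 := hbr c h1 h
          have h4 := hbr c' h2 h'
          have h5 : pos c ≠ pos c' := fun h6 => hne (hposi c (by omega) c' (by omega) h6)
          obtain ⟨i, hi⟩ := Function.ne_iff.1 h5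
          refine ⟨i, i.2, ?_⟩
          rw [hgr c h3 i i.2, hgr c' h4 i i.2]
          exact hi
        · rw [h2]
          exact key c h1 h
        · rw [h1]
          obtain ⟨i, hi, h3⟩ := key c' h2 h'
          exact ⟨i, hi, h3.symm⟩
        · omega }
  -- the number of vertices of the big colour
  have hsum : ∑ c ∈ range (κ + μ + 1), Q.b c = b := by
    rw [Finset.sum_range_succ, hbD, Finset.sum_congr rfl fun c hc => hbc c (Finset.mem_range.1 hc),
      Finset.sum_add_distrib]
    have h1 : ∑ c ∈ range (κ + μ), (if c < r then q else 0) = r * q := by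
      rw [← Finset.sum_filter]
      have h2 : (range (κ + μ)).filter (fun c => c < r) = range r := by
        ext c
        simp only [Finset.mem_filter, Finset.mem_range]
        omega
      rw [h2, Finset.sum_const, Finset.card_range, smul_eq_mul]
    have h3 : ∑ c ∈ range (κ + μ), (if c = 0 then (b - 1) % r else 0) = (b - 1) % r := by
      rw [Finset.sum_ite_eq' (range (κ + μ)) 0 fun _ => (b - 1) % r, if_pos]
      rw [Finset.mem_range]
      omega
    rw [h1, h3]
    omega
  have hvec : Q.vec = vecC κ μ b v := by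
    have h1 : Q.vec = vecC κ μ (∑ c ∈ range (κ + μ + 1), Q.b c) v := rfl
    rw [h1, hsum]
  obtain ⟨N', hN, hle⟩ := hCore Q hOk
  rw [hvec] at hN
  refine ⟨N', hN, le_trans ?_ hle⟩
  have h1 : q ^ r ≤ ∏ c ∈ range Q.D, (1 + (Q.b c - 1) * ∏ i ∈ Q.fr c, Q.a i) := by
    refine pow_le_prod _ _ _ hrD _ ?_ ?_
    · intro c hc
      have h2 : ∏ i ∈ Q.fr c, Q.a i = 1 := Finset.prod_eq_one fun _ _ => rfl
      rw [h2, mul_one, hbc c (by omega), if_pos hc]
      omega
    · intro c _
      omega
  have h2 : 1 ≤ (if ∀ i < Q.κ, 1 ≤ Q.g Q.D i then 1 + ∏ i ∈ range Q.κ, Q.a i else 1) := by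
    split_ifs <;> omega
  calc q ^ r = q ^ r * 1 := (mul_one _).symm
    _ ≤ _ := Nat.mul_le_mul h1 h2

end Pool.Agent.Lib.MP_4e7804_co.Av
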