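import Pool.Agent.Lib.MP_4e7804_co.Av.SpecU

/-!
# MP_4e7804_co, `V_n(v)` for every `v`, module CntU: the number of regions
-/

set_option autoImplicit false

open Finset

namespace Pool.Agent.Lib.MP_4e7804_co.Av

namespace CntUN

/-- the labels of the colours different from `j` -/
private def UU {d : ℕ} (A : Fin (d + 1) → Finset (Fin d → ℤ)) (j : Fin (d + 1)) :
    Finset (Option (Fin d → ℤ)) :=
  univ.biUnion fun k : Fin d => OO A (j.succAbove k)

/-- all labels -/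
private def VV {d : ℕ} (A : Fin (d + 1) → Finset (Fin d → ℤ)) : Finset (Option (Fin d → ℤ)) :=
  univ.biUnion fun i : Fin (d + 1) => OO A i

open Classical in
/-- first part of the type -/
private noncomputable def T1 {d : ℕ} (A : Fin (d + 1) → Finset (Fin d → ℤ)) (j : Fin (d + 1))
    (P₁ : (Fin d → Finset (Option (Fin d → ℤ))) → (Fin (d + 1) → ℝ) × ℝ)
    (z : Fin (d + 1) → ℝ) : Finset (Fin d → Finset (Option (Fin d → ℤ))) :=
  (QQ A j).filter fun q => 0 < ev (P₁ q) z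

open Classical in
/-- second part of the type -/
private noncomputable def T2 {d : ℕ} (A : Fin (d + 1) → Finset (Fin d → ℤ)) (j : Fin (d + 1))
    (P₂ : (Fin d → Finset (Option (Fin d → ℤ))) → Fin (d + 1) → Option (Fin d → ℤ) →
      Option (Fin d → ℤ) → (Fin (d + 1) → ℝ) × ℝ) (z : Fin (d + 1) → ℝ) :
    Finset ((Fin d → Finset (Option (Fin d → ℤ))) × Fin d × Option (Fin d → ℤ) ×
      Option (Fin d → ℤ)) :=
  (QQ A j ×ˢ (univ : Finset (Fin d)) ×ˢ UU A j ×ˢ UU A j).filter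
    fun x => 0 < ev (P₂ x.1 (j.succAbove x.2.1) x.2.2.1 x.2.2.2) z

open Classical in
/-- the functionals -/
private noncomputable def FF {d : ℕ} (A : Fin (d + 1) → Finset (Fin d → ℤ)) (j : Fin (d + 1))
    (P₁ : (Fin d → Finset (Option (Fin d → ℤ))) → (Fin (d + 1) → ℝ) × ℝ)
    (P₂ : (Fin d → Finset (Option (Fin d → ℤ))) → Fin (d + 1) → Option (Fin d → ℤ) →
      Option (Fin d → ℤ) → (Fin (d + 1) → ℝ) × ℝ) : Finset ((Fin (d + 1) → ℝ) × ℝ) :=
  ((QQ A j).filter fun q => ¬ Rg q).image P₁ ∪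
    ((QQ A j ×ˢ (univ : Finset (Fin (d + 1))) ×ˢ VV A ×ˢ VV A).filter fun x =>
      Rg x.1 ∧ x.2.2.1 ∈ OO A x.2.1 ∧ x.2.2.2 ∈ OO A x.2.1 ∧ x.2.2.1 ≠ x.2.2.2 ∧
        ∀ k, j.succAbove k = x.2.1 → x.2.2.1 ∉ x.1 k).image
      fun x => P₂ x.1 x.2.1 x.2.2.1 x.2.2.2

section
variable {d : ℕ} {A : Fin (d + 1) → Finset (Fin d → ℤ)} {j : Fin (d + 1)}
  {η : Fin (d + 1) → (Fin d → ℤ) → ℝ}
  {P₁ : (Fin d → Finset (Option (Fin d → ℤ))) → (Fin (d + 1) → ℝ) × ℝ}
  {P₂ : (Fin d → Finset (Option (Fin d → ℤ))) → Fin (d + 1) → Option (Fin d → ℤ) →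
      Option (Fin d → ℤ) → (Fin (d + 1) → ℝ) × ℝ}

private theorem mem_UU {k : Fin d} {o : Option (Fin d → ℤ)} (h : o ∈ OO A (j.succAbove k)) :
    o ∈ UU A j := mem_biUnion.mpr ⟨k, mem_univ _, h⟩

private theorem mem_VV {i : Fin (d + 1)} {o : Option (Fin d → ℤ)} (h : o ∈ OO A i) :
    o ∈ VV A := mem_biUnion.mpr ⟨i, mem_univ _, h⟩

private theorem sub_OO {q : Fin d → Finset (Option (Fin d → ℤ))} (hq : q ∈ QQ A j) (k : Fin d) :
    q k ⊆ OO A (j.succAbove k) := by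
  have h1 := Fintype.mem_piFinset.mp hq k
  exact (mem_powersetCard.mp h1).1

private theorem FF_one {q : Fin d → Finset (Option (Fin d → ℤ))} (hq : q ∈ QQ A j)
    (hr : ¬ Rg q) : P₁ q ∈ FF A j P₁ P₂ := by
  classical
  unfold FF
  exact mem_union_left _ (mem_image_of_mem _ (mem_filter.mpr ⟨hq, hr⟩))

private theorem FF_two {q : Fin d → Finset (Option (Fin d → ℤ))} (hq : q ∈ QQ A j)
    (hr : Rg q) {i : Fin (d + 1)} {o o' : Option (Fin d → ℤ)} (ho : o ∈ OO A i)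
    (ho' : o' ∈ OO A i) (hne : o ≠ o') (hk : ∀ k, j.succAbove k = i → o ∉ q k) :
    P₂ q i o o' ∈ FF A j P₁ P₂ := by
  classical
  unfold FF
  refine mem_union_right _ (mem_image.mpr ⟨(q, i, o, o'), mem_filter.mpr ⟨?_, ?_⟩, rfl⟩)
  · exact mem_product.mpr ⟨hq, mem_product.mpr ⟨mem_univ _, mem_product.mpr
      ⟨mem_VV ho, mem_VV ho'⟩⟩⟩
  · exact ⟨hr, ho, ho', hne, hk⟩

private theorem FF_ne (hF : IsFnl A η j P₁ P₂) : ∀ f ∈ FF A j P₁ P₂, f.1 ≠ 0 ∨ f.2 ≠ 0 := by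
  classical
  intro f hf
  unfold FF at hf
  rcases mem_union.mp hf with h | h
  · obtain ⟨q, hq, rfl⟩ := mem_image.mp h
    obtain ⟨hq1, hq2⟩ := mem_filter.mp hq
    exact hF.ne₁ q hq1 hq2
  · obtain ⟨⟨q, i, o, o'⟩, hx, rfl⟩ := mem_image.mp h
    obtain ⟨hx1, hr, ho, ho', hne, hk⟩ := mem_filter.mp hx
    exact hF.ne₂ q (mem_product.mp hx1).1 hr i o ho o' ho' hne hk

private theorem act_sub {z z' : Fin (d + 1) → ℝ} (h : T2 A j P₂ z = T2 A j P₂ z') :
    Act A j P₂ z ⊆ Act A j P₂ z' := by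
  classical
  intro q hq
  unfold Act at hq ⊢
  obtain ⟨hq1, hr, hq2⟩ := mem_filter.mp hq
  refine mem_filter.mpr ⟨hq1, hr, ?_⟩
  intro k o ho hoq o' ho'
  have h1 : (q, k, o, o') ∈ T2 A j P₂ z := by
    unfold T2
    refine mem_filter.mpr ⟨?_, hq2 k o ho hoq o' ho'⟩
    exact mem_product.mpr ⟨hq1, mem_product.mpr ⟨mem_univ _, mem_product.mpr
      ⟨mem_UU ho, mem_UU (sub_OO hq1 k ho')⟩⟩⟩
  rw [h] at h1
  unfold T2 at h1
  exact (mem_filter.mp h1).2

private theorem sign_mul {f : (Fin (d + 1) → ℝ) × ℝ} {z z' : Fin (d + 1) → ℝ} (h1 : ev f z ≠ 0)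
    (h2 : ev f z' ≠ 0) (h : 0 < ev f z ↔ 0 < ev f z') : 0 < ev f z * ev f z' := by
  rcases lt_or_gt_of_ne h1 with h3 | h3
  · have h4 : ¬ 0 < ev f z' := fun h5 => absurd (h.mpr h5) (not_lt.mpr h3.le)
    have h5 : ev f z' < 0 := lt_of_le_of_ne (not_lt.mp h4) h2
    exact mul_pos_of_neg_of_neg h3 h5
  · exact mul_pos h3 (h.mp h3)

private theorem card_QQ {m : ℕ} (hm : ∀ k : Fin d, (A (j.succAbove k)).card ≤ m) :
    (QQ A j).card ≤ (2 ^ (m + 1)) ^ d := by
  unfold QQ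
  rw [Fintype.card_piFinset]
  have h : ∀ k ∈ (univ : Finset (Fin d)),
      ((OO A (j.succAbove k)).powersetCard 2).card ≤ 2 ^ (m + 1) := by
    intro k _
    rw [card_powersetCard, OO, card_insertNone]
    exact (Nat.choose_le_two_pow _ _).trans (Nat.pow_le_pow_right (by norm_num)
      (Nat.add_le_add_right (hm k) 1))
  have h2 := Finset.prod_le_pow_card univ _ _ h
  rwa [card_univ, Fintype.card_fin] at h2

private theorem card_UU {m : ℕ} (hm : ∀ k : Fin d, (A (j.succAbove k)).card ≤ m) :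
    (UU A j).card ≤ d * (m + 1) := by
  unfold UU
  have h := Finset.card_biUnion_le_card_mul (univ : Finset (Fin d))
    (fun k : Fin d => OO A (j.succAbove k)) (m + 1) (by
      intro k _
      show (OO A (j.succAbove k)).card ≤ m + 1
      rw [OO, card_insertNone]
      exact Nat.add_le_add_right (hm k) 1)
  rwa [card_univ, Fintype.card_fin] at h

private theorem isOpen_Rgn (S : Finset (Fin (d + 1) →₀ ℕ)) (ϕ : (Fin (d + 1) →₀ ℕ) → ℚ)
    (α : Fin (d + 1) →₀ ℕ) : IsOpen (Rgn S ϕ α) := by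
  have h : Rgn S ϕ α = ⋂ β ∈ S, {z : Fin (d + 1) → ℝ | β ≠ α →
      (ϕ α : ℝ) + ∑ i, (α i : ℝ) * z i < (ϕ β : ℝ) + ∑ i, (β i : ℝ) * z i} := by
    ext z
    simp only [Rgn, Set.mem_ofPred_eq, Set.mem_iInter]
  rw [h]
  refine isOpen_biInter_finset (fun β _ => ?_)
  by_cases hb : β = α
  · have : {z : Fin (d + 1) → ℝ | β ≠ α →
      (ϕ α : ℝ) + ∑ i, (α i : ℝ) * z i < (ϕ β : ℝ) + ∑ i, (β i : ℝ) * z i} = Set.univ := by
      ext z
      simp [hb]
    rw [this]
    exact isOpen_univ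
  · have : {z : Fin (d + 1) → ℝ | β ≠ α →
      (ϕ α : ℝ) + ∑ i, (α i : ℝ) * z i < (ϕ β : ℝ) + ∑ i, (β i : ℝ) * z i} =
      {z : Fin (d + 1) → ℝ |
      (ϕ α : ℝ) + ∑ i, (α i : ℝ) * z i < (ϕ β : ℝ) + ∑ i, (β i : ℝ) * z i} := by
      ext z
      simp [hb]
    rw [this]
    refine isOpen_lt ?_ ?_
    · fun_prop
    · fun_prop

/-- existence of the label -/
private theorem label (hSys : StmtSys) (hF : IsFnl A η j P₁ P₂) (z : Fin (d + 1) → ℝ)
    (hz : ∀ f ∈ FF A j P₁ P₂, ev f z ≠ 0) {q : Fin d → Finset (Option (Fin d → ℤ))}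
    (hq : q ∈ Act A j P₂ z) :
    ∃ o ∈ OO A j, ∀ o' ∈ OO A j, o' ≠ o → 0 < ev (P₂ q j o' o) z := by
  classical
  unfold Act at hq
  obtain ⟨hq1, hr, -⟩ := mem_filter.mp hq
  obtain ⟨w, hw, -⟩ := hSys d A η j q hq1 hr z
  have hne : (OO A j).Nonempty := ⟨none, by rw [OO]; exact none_mem_insertNone⟩
  obtain ⟨o, ho, hmin⟩ := exists_min_image (OO A j) (fun o => Gp.vl η w z (j, o)) hne
  refine ⟨o, ho, fun o' ho' hoo => ?_⟩
  have hk : ∀ k, j.succAbove k = j → o' ∉ q k := fun k hk => absurd hk (Fin.succAbove_ne j k)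
  have h1 := hF.eq₂ q hq1 hr j o' ho' o ho hoo hk z w hw
  have h2 := hmin o' ho'
  have h3 : ev (P₂ q j o' o) z ≠ 0 := hz _ (FF_two hq1 hr ho' ho hoo hk)
  have h4 : 0 ≤ ev (P₂ q j o' o) z := by
    rw [← h1]
    exact sub_nonneg.mpr h2
  exact lt_of_le_of_ne h4 h3.symm

end

end CntUN

open CntUN in
theorem tCntU (hAvd : StmtAvd) (hInjU : StmtInjU) (hActU : StmtActU) (hSys : StmtSys) :
    StmtCntU := by
  classical
  intro d m
  refine ⟨2 ^ ((2 ^ (m + 1)) ^ d + (2 ^ (m + 1)) ^ d * (d * ((d * (m + 1)) * (d * (m + 1))))), ?_⟩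
  intro A η j P₁ P₂ hF hm S ϕ hT
  -- the set of the exponents with a region
  have hcard : Nat.card {α // α ∈ S ∧ (Rgn S ϕ α).Nonempty} =
      (S.filter fun α => (Rgn S ϕ α).Nonempty).card :=
    Nat.subtype_card _ (fun α => by rw [mem_filter])
  rw [hcard]
  -- the points
  have hpt : ∀ α : Fin (d + 1) →₀ ℕ, ∃ z : Fin (d + 1) → ℚ, α ∈ S ∧ (Rgn S ϕ α).Nonempty →
      (fun k => ((z k : ℚ) : ℝ)) ∈ Rgn S ϕ α ∧
        ∀ f ∈ FF A j P₁ P₂, ev f (fun k => ((z k : ℚ) : ℝ)) ≠ 0 := by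
    intro α
    by_cases h : α ∈ S ∧ (Rgn S ϕ α).Nonempty
    · obtain ⟨z, hz1, hz2⟩ := hAvd (d + 1) (FF A j P₁ P₂) (FF_ne hF) (Rgn S ϕ α)
        (isOpen_Rgn S ϕ α) h.2
      exact ⟨z, fun _ => ⟨hz1, hz2⟩⟩
    · exact ⟨0, fun h' => absurd h' h⟩
  choose z hz using hpt
  let zr : (Fin (d + 1) →₀ ℕ) → Fin (d + 1) → ℝ := fun α k => ((z α k : ℚ) : ℝ)
  let τ := fun α : Fin (d + 1) →₀ ℕ => (T1 A j P₁ (zr α), T2 A j P₂ (zr α))
  -- the types
  have himg : ((S.filter fun α => (Rgn S ϕ α).Nonempty).image τ).card ≤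
      2 ^ ((2 ^ (m + 1)) ^ d + (2 ^ (m + 1)) ^ d * (d * ((d * (m + 1)) * (d * (m + 1))))) := by
    have hsub : (S.filter fun α => (Rgn S ϕ α).Nonempty).image τ ⊆
        (QQ A j).powerset ×ˢ (QQ A j ×ˢ (univ : Finset (Fin d)) ×ˢ UU A j ×ˢ UU A j).powerset := by
      intro t ht
      obtain ⟨α, -, rfl⟩ := mem_image.mp ht
      refine mem_product.mpr ⟨mem_powerset.mpr ?_, mem_powerset.mpr ?_⟩
      · exact filter_subset _ _
      · exact filter_subset _ _
    refine (card_le_card hsub).trans ?_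
    rw [card_product, card_powerset, card_powerset, card_product, card_product, card_product,
      card_univ, Fintype.card_fin, ← pow_add]
    refine Nat.pow_le_pow_right (by norm_num) ?_
    refine Nat.add_le_add (card_QQ hm) ?_
    exact Nat.mul_le_mul (card_QQ hm) (Nat.mul_le_mul le_rfl
      (Nat.mul_le_mul (card_UU hm) (card_UU hm)))
  -- the fibres
  have hfib : ∀ t ∈ (S.filter fun α => (Rgn S ϕ α).Nonempty).image τ,
      ((S.filter fun α => (Rgn S ϕ α).Nonempty).filter fun α => τ α = t).card ≤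
        ((A j).card + 1) ^ ∏ k : Fin d, (A (j.succAbove k)).card := by
    intro t ht
    obtain ⟨α₀, hα₀, hτ₀⟩ := mem_image.mp ht
    -- the labels
    have hlab : ∀ (α : Fin (d + 1) →₀ ℕ) (q : Fin d → Finset (Option (Fin d → ℤ))),
        ∃ o : Option (Fin d → ℤ), (α ∈ S ∧ (Rgn S ϕ α).Nonempty) → q ∈ Act A j P₂ (zr α) →
          o ∈ OO A j ∧ ∀ o' ∈ OO A j, o' ≠ o → 0 < ev (P₂ q j o' o) (zr α) := by
      intro α q
      by_cases h : (α ∈ S ∧ (Rgn S ϕ α).Nonempty) ∧ q ∈ Act A j P₂ (zr α)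
      · obtain ⟨o, ho, ho'⟩ := label hSys hF (zr α) (hz α h.1).2 h.2
        exact ⟨o, fun _ _ => ⟨ho, ho'⟩⟩
      · exact ⟨none, fun h1 h2 => absurd ⟨h1, h2⟩ h⟩
    choose lab hlab using hlab
    have hact : ∀ α, τ α = t → Act A j P₂ (zr α) = Act A j P₂ (zr α₀) := by
      intro α hα
      have h1 : T2 A j P₂ (zr α) = T2 A j P₂ (zr α₀) := by
        have h2 := hα.trans hτ₀.symm
        exact congrArg Prod.snd h2
      exact Subset.antisymm (act_sub h1) (act_sub h1.symm)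
    have hE : (Act A j P₂ (zr α₀)).card ≤ ∏ k : Fin d, (A (j.succAbove k)).card :=
      hActU d A η j P₁ P₂ hF (zr α₀)
    have h1 : ((S.filter fun α => (Rgn S ϕ α).Nonempty).filter fun α => τ α = t).card ≤
        (Fintype.piFinset fun _ : {q // q ∈ Act A j P₂ (zr α₀)} => OO A j).card := by
      refine Finset.card_le_card_of_injOn (fun α q => lab α q.1) ?_ ?_
      · intro α hα
        obtain ⟨hα1, hα2⟩ := mem_filter.mp (mem_coe.mp hα)
        refine mem_coe.mpr (Fintype.mem_piFinset.mpr (fun q => ?_))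
        have hq : q.1 ∈ Act A j P₂ (zr α) := by
          rw [hact α hα2]
          exact q.2
        exact (hlab α q.1 (mem_filter.mp hα1) hq).1
      · intro α hα β hβ hαβ
        obtain ⟨hα1, hα2⟩ := mem_filter.mp (mem_coe.mp hα)
        obtain ⟨hβ1, hβ2⟩ := mem_filter.mp (mem_coe.mp hβ)
        have hα3 := mem_filter.mp hα1
        have hβ3 := mem_filter.mp hβ1
        have hzα := hz α hα3
        have hzβ := hz β hβ3
        have hτ := hα2.trans hβ2.symm
        have hT1 : T1 A j P₁ (zr α) = T1 A j P₁ (zr β) := congrArg Prod.fst hτ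
        have hT2 : T2 A j P₂ (zr α) = T2 A j P₂ (zr β) := congrArg Prod.snd hτ
        refine hInjU d A η j P₁ P₂ hF S ϕ hT α hα3.1 β hβ3.1 (z α) (z β) hzα.1 hzβ.1 ?_ ?_ ?_
        · intro q hq hr
          refine sign_mul (hzα.2 _ (FF_one hq hr)) (hzβ.2 _ (FF_one hq hr)) ?_
          have h2 : q ∈ T1 A j P₁ (zr α) ↔ q ∈ T1 A j P₁ (zr β) := by rw [hT1]
          unfold T1 at h2
          rw [mem_filter, mem_filter] at h2
          exact ⟨fun h => (h2.mp ⟨hq, h⟩).2, fun h => (h2.mpr ⟨hq, h⟩).2⟩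
        · intro q hq hr k o ho hoq o' ho'
          have ho'2 : o' ∈ OO A (j.succAbove k) := sub_OO hq k ho'
          have hne : o ≠ o' := by
            rintro rfl
            exact hoq ho'
          have hk : ∀ k', j.succAbove k' = j.succAbove k → o ∉ q k' := by
            intro k' hk'
            have : k' = k := Fin.succAbove_right_injective hk'
            rw [this]
            exact hoq
          have hmem : P₂ q (j.succAbove k) o o' ∈ FF A j P₁ P₂ := FF_two hq hr ho ho'2 hne hk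
          refine sign_mul (hzα.2 _ hmem) (hzβ.2 _ hmem) ?_
          have hprod : (q, k, o, o') ∈
              QQ A j ×ˢ (univ : Finset (Fin d)) ×ˢ UU A j ×ˢ UU A j :=
            mem_product.mpr ⟨hq, mem_product.mpr ⟨mem_univ _, mem_product.mpr
              ⟨mem_UU ho, mem_UU ho'2⟩⟩⟩
          have h2 : (q, k, o, o') ∈ T2 A j P₂ (zr α) ↔ (q, k, o, o') ∈ T2 A j P₂ (zr β) := by
            rw [hT2]
          unfold T2 at h2
          rw [mem_filter, mem_filter] at h2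
          exact ⟨fun h => (h2.mp ⟨hprod, h⟩).2, fun h => (h2.mpr ⟨hprod, h⟩).2⟩
        · intro q hq
          have hq0 : q ∈ Act A j P₂ (zr α₀) := by
            rw [← hact α hα2]
            exact hq
          have hqβ : q ∈ Act A j P₂ (zr β) := by
            rw [hact β hβ2]
            exact hq0
          have h3 : lab α q = lab β q := congrFun hαβ ⟨q, hq0⟩
          have h4 := hlab α q hα3 hq
          have h5 := hlab β q hβ3 hqβ
          refine ⟨lab α q, h4.1, fun o' ho' hne => ⟨h4.2 o' ho' hne, ?_⟩⟩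
          rw [h3] at hne ⊢
          exact h5.2 o' ho' hne
    refine h1.trans ?_
    rw [Fintype.card_piFinset, Finset.prod_const, card_univ, Fintype.card_coe, OO,
      card_insertNone]
    exact Nat.pow_le_pow_right (Nat.succ_pos _) hE
  -- the sum
  have h2 := Finset.card_le_mul_card_image (f := τ)
    (S.filter fun α => (Rgn S ϕ α).Nonempty) _ hfib
  refine h2.trans ?_
  rw [mul_comm]
  exact Nat.mul_le_mul_right _ himg

end Pool.Agent.Lib.MP_4e7804_co.Av
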