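import Pool.Agent.Lib.MP_4e7804_co.Av.SpecL
import Pool.Agent.Lib.MP_4e7804_co.Lo.Generic
import Pool.Agent.Lib.MP_4e7804_co.Tl.Low

/-! MP_4e7804_co, Av/Core: the number of vertices of the construction. -/

set_option autoImplicit false

open Finset

namespace Pool.Agent.Lib.MP_4e7804_co.Av

namespace CoreN

private theorem geo (B κ : ℕ) : ∑ i ∈ range κ, B * (B + 1) ^ i + 1 = (B + 1) ^ κ := by
  induction κ with
  | zero => simp
  | succ κ ih =>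
    rw [sum_range_succ, pow_succ]
    have h : (B + 1) ^ κ * (B + 1) = B * (B + 1) ^ κ + (B + 1) ^ κ := by ring
    rw [h, ← ih]
    ring

private theorem digs (κ B : ℕ) (a t : ℕ → ℕ) (I : Finset ℕ) (hI : I ⊆ range κ)
    (ha : ∀ i ∈ I, a i ≤ B) (ht : ∀ i ∈ I, t i < a i) :
    ∑ i ∈ I, (t i : ℚ) * ((B + 1 : ℕ) : ℚ) ^ i < ((B + 1 : ℕ) : ℚ) ^ κ := by
  have h1 : ∑ i ∈ I, t i * (B + 1) ^ i ≤ ∑ i ∈ range κ, B * (B + 1) ^ i := by
    calc ∑ i ∈ I, t i * (B + 1) ^ i ≤ ∑ i ∈ I, B * (B + 1) ^ i :=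
          sum_le_sum fun i hi => Nat.mul_le_mul_right _ (by
            have := ht i hi
            have := ha i hi
            omega)
      _ ≤ ∑ i ∈ range κ, B * (B + 1) ^ i := sum_le_sum_of_subset hI
  have h2 : ∑ i ∈ I, t i * (B + 1) ^ i < (B + 1) ^ κ := by
    have := geo B κ
    omega
  have h3 : ((∑ i ∈ I, t i * (B + 1) ^ i : ℕ) : ℚ) < (((B + 1) ^ κ : ℕ) : ℚ) := by
    exact_mod_cast h2
  push_cast at h3 ⊢
  exact h3

private theorem aB (Q : Pm) (hQ : Q.Ok) (i : ℕ) (hi : i < Q.κ) : Q.a i ≤ Q.B := by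
  have h1 := hQ.aG i hi
  have h2 := hQ.v_le i hi
  have h3 : Q.a i * 1 ≤ Q.a i * Q.G i := Nat.mul_le_mul_left _ (hQ.G_pos i hi)
  omega

private theorem frB (Q : Pm) (hQ : Q.Ok) (c : ℕ) : ∀ i ∈ Q.fr c, Q.a i ≤ Q.B := fun i hi =>
  aB Q hQ i (mem_range.1 (mem_filter.1 hi).1)

private theorem rng (Q : Pm) (hQ : Q.Ok) (c : ℕ) (hc : c < Q.D) (x : ℕ) (t : ℕ → ℕ)
    (hx : x + 1 < Q.b c) (ht : ∀ i ∈ Q.fr c, t i < Q.a i) :
    0 < ((Q.B + 1 : ℕ) : ℚ) ^ Q.κ * (1 + x) - ∑ i ∈ Q.fr c, (t i : ℚ) * ((Q.B + 1 : ℕ) : ℚ) ^ i ∧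
    ((Q.B + 1 : ℕ) : ℚ) ^ Q.κ * (1 + x) - ∑ i ∈ Q.fr c, (t i : ℚ) * ((Q.B + 1 : ℕ) : ℚ) ^ i
      < Q.S := by
  have h1 := digs Q.κ Q.B Q.a t (Q.fr c) (filter_subset _ _) (frB Q hQ c) ht
  have h0 : 0 ≤ ∑ i ∈ Q.fr c, (t i : ℚ) * ((Q.B + 1 : ℕ) : ℚ) ^ i :=
    sum_nonneg fun i _ => by positivity
  have hP : 0 < ((Q.B + 1 : ℕ) : ℚ) ^ Q.κ := by positivity
  have hx0 : (0 : ℚ) ≤ x := Nat.cast_nonneg x
  have hb := hQ.b_le c hc.le
  have hx1 : (x : ℚ) + 1 ≤ Q.B := by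
    have : x + 1 ≤ Q.B := by omega
    exact_mod_cast this
  have hS : (Q.S : ℚ) = ((Q.B : ℚ) + 2) * ((Q.B + 1 : ℕ) : ℚ) ^ Q.κ := by
    unfold Pm.S Pm.M
    push_cast
    ring
  rw [hS]
  constructor
  · nlinarith [mul_nonneg hP.le hx0]
  · nlinarith [mul_le_mul_of_nonneg_left hx1 hP.le]

private theorem lowK (Q : Pm) (hQ : Q.Ok) (K : ℚ) (hK : KB Q K) (t : ℕ → ℕ)
    (ht : ∀ i < Q.κ, t i < Q.a i) :
    -K < -1 - ∑ i ∈ range Q.κ, ((Q.L : ℚ) * Q.g Q.D i + (t i : ℚ) * (Q.M : ℚ) ^ i) := by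
  have hD : ¬ Q.D < Q.κ := by
    unfold Pm.D
    omega
  have hfr : Q.fr Q.D = range Q.κ := by
    unfold Pm.fr
    exact filter_true_of_mem fun i hi => hQ.gD i (mem_range.1 hi)
  let w : ℕ → ℚ := fun l => if l < Q.κ then (Q.L : ℚ) * Q.g Q.D l + (t l : ℚ) * (Q.M : ℚ) ^ l
    else if l = Q.D then 1 else 0
  have hwD : w Q.D = 1 := by simp [w, hD]
  have hwi : ∀ i, i < Q.κ → w i = (Q.L : ℚ) * Q.g Q.D i + (t i : ℚ) * (Q.M : ℚ) ^ i := by
    intro i hi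
    simp [w, hi]
  have hnear : Q.Near Q.D w := by
    refine ⟨hwD, ?_, ?_⟩
    · intro i hi
      rw [hwi i hi]
      have h1 : (0 : ℚ) ≤ (t i : ℚ) * (Q.M : ℚ) ^ i := by positivity
      have h2 : t i * Q.M ^ i ≤ Q.S := by
        unfold Pm.S
        refine Nat.mul_le_mul ?_ (Nat.pow_le_pow_right ?_ hi.le)
        · have := ht i hi
          have := aB Q hQ i hi
          omega
        · unfold Pm.M
          omega
      have h3 : (t i : ℚ) * (Q.M : ℚ) ^ i ≤ Q.S := by exact_mod_cast h2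
      constructor <;> linarith
    · intro l hl hlD
      have h1 : w l = 0 := by
        have h1 : ¬ l < Q.κ := by omega
        have h2 : l ≠ Q.D := by omega
        simp [w, h1, h2]
      rw [h1]
      exact ⟨le_refl _, Nat.cast_nonneg _⟩
  have h1 := hK.2 Q.D le_rfl w hnear Q.D le_rfl 0 (by rw [hQ.bD]; exact one_pos)
  have h2 : Q.lc Q.D 0 w =
      -1 - ∑ i ∈ range Q.κ, ((Q.L : ℚ) * Q.g Q.D i + (t i : ℚ) * (Q.M : ℚ) ^ i) := by
    unfold Pm.lc Pm.om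
    rw [hfr, hwD, sum_congr rfl fun i hi => hwi i (mem_range.1 hi)]
    simp
    ring
  rw [← h2]
  exact (abs_lt.1 h1).1

end CoreN

open CoreN in
theorem tCore (hKb : StmtKb) (hVtx : StmtVtx) (hExF : StmtExF) (hSh1 : StmtSh1) (hSh2 : StmtSh2)
    (hDig : StmtDig) (hBx : StmtBx) : StmtCore := by
  classical
  intro Q hQ
  obtain ⟨K, hK⟩ := hKb Q hQ
  obtain ⟨N, hN⟩ : ∃ N : ℤ, 2 * K < N := exists_int_gt (2 * K)
  obtain ⟨v1, v2, v3, v4⟩ := hVtx Q K N hQ hK hN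
  obtain ⟨cf, hcf⟩ := exists_generic (Q.conf N) v3
  have hne : ∀ i, ∀ a ∈ Q.sets N i, cf i a ≠ 0 := fun i a ha => hcf.ne_zero i a (v4 i a ha)
  obtain ⟨F, hF⟩ := hExF Q N hQ cf hne
  refine ⟨numVertices (newton F), ⟨Q.conf N, cf, F, v1, v2, hcf, hF, rfl⟩, ?_⟩
  have hM : (Tl.Mx F).Nonempty := by
    unfold Tl.Mx
    rw [Finset.image_nonempty, Finset.nonempty_iff_ne_empty]
    intro h0
    exact hF.1.ne_zero (MvPolynomial.support_eq_empty.1 h0)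
  choose R' hR1 hR2 using fun c : ℕ =>
    hDig Q.κ Q.B (Q.b c) Q.a (Q.fr c) (filter_subset _ _) (frB Q hQ c)
  obtain ⟨R₀, hR3, hR4⟩ := hDig Q.κ Q.B 2 Q.a (range Q.κ) (Finset.Subset.refl _)
    (fun i hi => aB Q hQ i (mem_range.1 hi))
  -- the box
  let lo : Fin (Q.D + 1 + 1) → ℚ := Fin.cons (-K) fun l : Fin (Q.D + 1) =>
    (Q.lo l : ℚ) + Q.be l
  let hi : Fin (Q.D + 1 + 1) → ℚ := Fin.cons 0 fun l : Fin (Q.D + 1) =>
    (Q.lo l : ℚ) + Q.be l + Q.S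
  let s₀ : ℚ := -1 - (Q.L : ℚ) * ∑ i ∈ range Q.κ, (Q.g Q.D i : ℚ) - (Q.M : ℚ) ^ Q.κ
  let Z : Finset ℚ := if ∀ i < Q.κ, 1 ≤ Q.g Q.D i then R₀.image (fun r => s₀ + r) else ∅
  let R : Fin (Q.D + 1 + 1) → Finset ℚ := Fin.cons Z fun l : Fin (Q.D + 1) =>
    if l.val < Q.D then (R' l).image (fun r => (Q.lo l : ℚ) + Q.be l + r) else ∅
  have hSpos : (0 : ℚ) < Q.S := by
    have : 0 < Q.S := by
      unfold Pm.S Pm.M
      positivity
    exact_mod_cast this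
  have hlast : Fin.last (Q.D + 1) = Fin.succ (Fin.last Q.D) := rfl
  have hRlast : R (Fin.last (Q.D + 1)) = ∅ := by
    rw [hlast]
    simp [R]
  have hR0 : ∀ r ∈ R 0, ∃ t : ℕ → ℕ, (∀ i < Q.κ, 1 ≤ Q.g Q.D i) ∧ (∀ i < Q.κ, t i < Q.a i) ∧
      r = -1 - ∑ i ∈ range Q.κ, ((Q.L : ℚ) * Q.g Q.D i + (t i : ℚ) * (Q.M : ℚ) ^ i) := by
    intro r hr
    have hr' : r ∈ Z := hr
    by_cases hc : ∀ i < Q.κ, 1 ≤ Q.g Q.D i
    · have hZ : Z = R₀.image (fun r => s₀ + r) := if_pos hc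
      rw [hZ] at hr'
      obtain ⟨q, hq, rfl⟩ := mem_image.1 hr'
      obtain ⟨x, t, hx, ht, hqe⟩ := hR4 q hq
      refine ⟨t, hc, fun i hi => ht i (mem_range.2 hi), ?_⟩
      have hx0 : x = 0 := by omega
      subst hx0
      have hqe' : q = (Q.M : ℚ) ^ Q.κ - ∑ i ∈ range Q.κ, (t i : ℚ) * (Q.M : ℚ) ^ i := by
        rw [hqe]
        unfold Pm.M
        push_cast
        ring
      rw [hqe', sum_add_distrib, ← mul_sum]
      ring
    · have hZ : Z = ∅ := if_neg hc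
      rw [hZ] at hr'
      exact absurd hr' (notMem_empty _)
  have hRs : ∀ l : Fin (Q.D + 1), ∀ r ∈ R l.succ, l.val < Q.D ∧ ∃ (x : ℕ) (t : ℕ → ℕ),
      x + 1 < Q.b l ∧ (∀ i ∈ Q.fr l, t i < Q.a i) ∧
      r = (Q.lo l : ℚ) + Q.be l + (((Q.B + 1 : ℕ) : ℚ) ^ Q.κ * (1 + x) -
        ∑ i ∈ Q.fr l, (t i : ℚ) * ((Q.B + 1 : ℕ) : ℚ) ^ i) := by
    intro l r hr
    have hr' : r ∈ (if l.val < Q.D then (R' l).image (fun r => (Q.lo l : ℚ) + Q.be l + r)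
      else ∅) := hr
    by_cases hl : l.val < Q.D
    · rw [if_pos hl] at hr'
      obtain ⟨q, hq, rfl⟩ := mem_image.1 hr'
      obtain ⟨x, t, hx, ht, hqe⟩ := hR2 l q hq
      exact ⟨hl, x, t, hx, ht, by rw [hqe]⟩
    · rw [if_neg hl] at hr'
      exact absurd hr' (notMem_empty _)
  have h1 : ∀ l, l ≠ Fin.last (Q.D + 1) → lo l < hi l := by
    intro l
    refine Fin.cases ?_ (fun l => ?_) l
    · intro _
      show -K < 0
      linarith [hK.1]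
    · intro _
      show (Q.lo l : ℚ) + Q.be l < (Q.lo l : ℚ) + Q.be l + Q.S
      linarith
  have h2 : ∀ l, ∀ r ∈ R l, lo l < r ∧ r < hi l := by
    intro l
    refine Fin.cases ?_ (fun l => ?_) l
    · intro r hr
      obtain ⟨t, _, ht, rfl⟩ := hR0 r hr
      have h3 : 0 ≤ ∑ i ∈ range Q.κ, ((Q.L : ℚ) * Q.g Q.D i + (t i : ℚ) * (Q.M : ℚ) ^ i) :=
        sum_nonneg fun i _ => by positivity
      refine ⟨lowK Q hQ K hK t ht, ?_⟩
      show -1 - ∑ i ∈ range Q.κ, ((Q.L : ℚ) * Q.g Q.D i + (t i : ℚ) * (Q.M : ℚ) ^ i) < 0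
      linarith
    · intro r hr
      obtain ⟨hl, x, t, hx, ht, rfl⟩ := hRs l r hr
      obtain ⟨h3, h4⟩ := rng Q hQ l hl x t hx ht
      constructor
      · show (Q.lo l : ℚ) + Q.be l < _
        linarith
      · show _ < (Q.lo l : ℚ) + Q.be l + Q.S
        linarith
  have h3 : ∀ y : Fin (Q.D + 1 + 1) → ℚ, y (Fin.last (Q.D + 1)) = 1 →
      (∀ l, l ≠ Fin.last (Q.D + 1) → lo l < y l ∧ y l < hi l) → (∃ l, y l ∈ R l) →
      (fun l => ((y l : ℚ) : ℝ)) ∈ Tl.trp (Tl.Mx F) := by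
    intro y hy1 hy2 hy3
    have hyh : ∀ l : Fin (Q.D + 1), Q.yh y l = y l.succ - Q.be l := by
      intro l
      unfold Pm.yh
      rw [dif_pos l.2]
      rfl
    have hbox : Q.Box K y := by
      have h0 := hy2 0 (by
        intro h
        have := congrArg Fin.val h
        simp at this)
      refine ⟨hy1, h0.1, h0.2, ?_⟩
      intro l hl
      have h4 := hy2 (Fin.succ ⟨l, by omega⟩) (by
        intro h
        have := congrArg Fin.val h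
        simp at this
        omega)
      have h5 : (Q.lo l : ℚ) + Q.be l < y (Fin.succ ⟨l, by omega⟩) := h4.1
      have h6 : y (Fin.succ ⟨l, by omega⟩) < (Q.lo l : ℚ) + Q.be l + Q.S := h4.2
      have h7 := hyh ⟨l, by omega⟩
      simp only at h7
      rw [h7]
      constructor <;> linarith
    obtain ⟨l, hl⟩ := hy3
    revert hl
    refine Fin.cases ?_ (fun l => ?_) l
    · intro hl
      obtain ⟨t, hg, ht, he⟩ := hR0 _ hl
      exact hSh2 Q K N hQ hK hN cf F hne hF hg t ht y hbox he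
    · intro hl
      obtain ⟨hlD, x, t, hx, ht, he⟩ := hRs l _ hl
      refine hSh1 Q K N hQ hK hN cf F hne hF l hlD x hx t ht y hbox ?_
      rw [hyh l, he]
      unfold Pm.M
      ring
  have h4 := hBx (Q.D + 1 + 1) (Tl.Mx F) hM (Fin.last (Q.D + 1)) lo hi R hRlast h1 h2 h3
  rw [Tl.LowN.newton F]
  refine le_trans (le_of_eq ?_) h4
  rw [Fin.prod_univ_succ, Fin.prod_univ_castSucc]
  have e1 : ((R 0).card + 1) =
      if ∀ i < Q.κ, 1 ≤ Q.g Q.D i then 1 + ∏ i ∈ range Q.κ, Q.a i else 1 := by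
    show Z.card + 1 = _
    by_cases hc : ∀ i < Q.κ, 1 ≤ Q.g Q.D i
    · have hZ : Z = R₀.image (fun r => s₀ + r) := if_pos hc
      rw [hZ, if_pos hc, card_image_of_injective _ (add_right_injective s₀), hR3]
      ring
    · have hZ : Z = ∅ := if_neg hc
      rw [hZ, if_neg hc]
      rfl
  have e2 : (R (Fin.succ (Fin.last Q.D))).card + 1 = 1 := by
    rw [← hlast, hRlast]
    rfl
  have e3 : ∀ l : Fin Q.D, (R (Fin.succ (Fin.castSucc l))).card + 1 =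
      1 + (Q.b l - 1) * ∏ i ∈ Q.fr l, Q.a i := by
    intro l
    have h5 : R (Fin.succ (Fin.castSucc l)) =
        (R' l).image (fun r => (Q.lo l : ℚ) + Q.be l + r) := by
      show (if (Fin.castSucc l).val < Q.D then _ else _) = _
      rw [if_pos (show (Fin.castSucc l).val < Q.D from l.2)]
    rw [h5, card_image_of_injective _ (add_right_injective _), hR1]
    ring
  rw [e1, e2, mul_one, prod_congr rfl fun l _ => e3 l,
    Fin.prod_univ_eq_prod_range (fun c => 1 + (Q.b c - 1) * ∏ i ∈ Q.fr c, Q.a i) Q.D]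
  ring

end Pool.Agent.Lib.MP_4e7804_co.Av
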