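import Pool.Agent.Lib.MP_4e7804_co.Av.SpecL

/-!
# Counting numbers with prescribed digits
-/

set_option autoImplicit false

open Finset

namespace Pool.Agent.Lib.MP_4e7804_co.Av

namespace DigN

/-- The numbers with digits `t i < a i` at the places `i ∈ I`, zero elsewhere. -/
private theorem digits (B : ℕ) (a : ℕ → ℕ) : ∀ (κ : ℕ) (I : Finset ℕ), I ⊆ range κ →
    (∀ i ∈ I, a i ≤ B) → ∃ R : Finset ℕ, R.card = ∏ i ∈ I, a i ∧ ∀ X ∈ R, X < (B + 1) ^ κ ∧
      ∃ t : ℕ → ℕ, (∀ i ∈ I, t i < a i) ∧ X = ∑ i ∈ I, t i * (B + 1) ^ i := by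
  intro κ
  induction κ with
  | zero =>
    intro I hI _
    have h0 : I = ∅ := by
      apply Finset.subset_empty.mp
      simpa using hI
    subst h0
    refine ⟨{0}, by simp, ?_⟩
    intro X hX
    have : X = 0 := by simpa using hX
    subst this
    exact ⟨by simp, fun _ => 0, by simp, by simp⟩
  | succ κ ih =>
    intro I hI ha
    by_cases hκ : κ ∈ I
    · have hI' : I.erase κ ⊆ range κ := by
        intro i hi
        have h1 := Finset.ne_of_mem_erase hi
        have h2 := hI (Finset.mem_of_mem_erase hi)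
        rw [mem_range] at h2 ⊢
        omega
      obtain ⟨R, hR, hR'⟩ := ih (I.erase κ) hI' (fun i hi => ha i (Finset.mem_of_mem_erase hi))
      have hpos : 0 < (B + 1) ^ κ := by positivity
      refine ⟨((range (a κ)) ×ˢ R).image (fun p => p.1 * (B + 1) ^ κ + p.2), ?_, ?_⟩
      · rw [card_image_of_injOn, card_product, card_range, hR, Finset.mul_prod_erase I a hκ]
        rintro ⟨d, X⟩ h1 ⟨d', X'⟩ h2 h3
        simp only [coe_product, Set.mem_prod, mem_coe, mem_range] at h1 h2
        simp only at h3
        have hX := (hR' X h1.2).1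
        have hX' := (hR' X' h2.2).1
        have e1 : (d * (B + 1) ^ κ + X) / (B + 1) ^ κ = d := by
          rw [add_comm, Nat.add_mul_div_right _ _ hpos, Nat.div_eq_of_lt hX, zero_add]
        have e2 : (d' * (B + 1) ^ κ + X') / (B + 1) ^ κ = d' := by
          rw [add_comm, Nat.add_mul_div_right _ _ hpos, Nat.div_eq_of_lt hX', zero_add]
        have hd : d = d' := by rw [← e1, ← e2, h3]
        subst hd
        have : X = X' := by omega
        rw [this]
      · intro Y hY
        obtain ⟨⟨d, X⟩, h1, h2⟩ := mem_image.mp hY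
        rw [mem_product, mem_range] at h1
        simp only at h1 h2
        obtain ⟨hX, t, ht, hXt⟩ := hR' X h1.2
        have hd : d + 1 ≤ B + 1 := by
          have := ha κ hκ
          omega
        refine ⟨?_, Function.update t κ d, ?_, ?_⟩
        · calc Y = d * (B + 1) ^ κ + X := h2.symm
            _ < d * (B + 1) ^ κ + (B + 1) ^ κ := by omega
            _ = (d + 1) * (B + 1) ^ κ := by ring
            _ ≤ (B + 1) * (B + 1) ^ κ := Nat.mul_le_mul_right _ hd
            _ = (B + 1) ^ (κ + 1) := by ring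
        · intro i hi
          by_cases h : i = κ
          · subst h
            rw [Function.update_self]
            exact h1.1
          · rw [Function.update_of_ne h]
            exact ht i (Finset.mem_erase.mpr ⟨h, hi⟩)
        · rw [← Finset.add_sum_erase I _ hκ, Function.update_self, ← h2, hXt]
          congr 1
          apply Finset.sum_congr rfl
          intro i hi
          rw [Function.update_of_ne (Finset.ne_of_mem_erase hi)]
    · have hI' : I ⊆ range κ := by
        intro i hi
        have h2 := hI hi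
        rw [mem_range] at h2 ⊢
        rcases Nat.lt_succ_iff_lt_or_eq.mp h2 with h | h
        · exact h
        · subst h
          exact absurd hi hκ
      obtain ⟨R, hR, hR'⟩ := ih I hI' ha
      refine ⟨R, hR, ?_⟩
      intro X hX
      obtain ⟨h1, h2⟩ := hR' X hX
      exact ⟨lt_of_lt_of_le h1 (Nat.pow_le_pow_right (by omega) (by omega)), h2⟩

end DigN

/-- **Dig.** -/
theorem tDig : StmtDig := by
  intro κ B b a I hI ha
  obtain ⟨R, hR, hR'⟩ := DigN.digits B a κ I hI ha
  have hpos : 0 < (B + 1) ^ κ := by positivity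
  refine ⟨((range (b - 1)) ×ˢ R).image
    (fun p => ((B + 1 : ℕ) : ℚ) ^ κ * (1 + (p.1 : ℚ)) - (p.2 : ℚ)), ?_, ?_⟩
  · rw [card_image_of_injOn, card_product, card_range, hR]
    rintro ⟨x, X⟩ h1 ⟨x', X'⟩ h2 h3
    simp only [coe_product, Set.mem_prod, mem_coe, mem_range] at h1 h2
    simp only at h3
    have hX := (hR' X h1.2).1
    have hX' := (hR' X' h2.2).1
    have h4 : (B + 1) ^ κ * (1 + x) + X' = (B + 1) ^ κ * (1 + x') + X := by
      have h5 : ((B + 1 : ℕ) : ℚ) ^ κ * (1 + (x : ℚ)) + X' =
          ((B + 1 : ℕ) : ℚ) ^ κ * (1 + (x' : ℚ)) + X := by linarith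
      exact_mod_cast h5
    have e1 : ((B + 1) ^ κ * (1 + x) + X') / (B + 1) ^ κ = 1 + x := by
      rw [add_comm, Nat.add_mul_div_left _ _ hpos, Nat.div_eq_of_lt hX', zero_add]
    have e2 : ((B + 1) ^ κ * (1 + x') + X) / (B + 1) ^ κ = 1 + x' := by
      rw [add_comm, Nat.add_mul_div_left _ _ hpos, Nat.div_eq_of_lt hX, zero_add]
    have hx : x = x' := by
      have : 1 + x = 1 + x' := by rw [← e1, ← e2, h4]
      omega
    subst hx
    have : X = X' := by omega
    rw [this]
  · intro r hr
    obtain ⟨⟨x, X⟩, h1, h2⟩ := mem_image.mp hr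
    rw [mem_product, mem_range] at h1
    simp only at h1 h2
    obtain ⟨_, t, ht, hXt⟩ := hR' X h1.2
    refine ⟨x, t, by omega, ht, ?_⟩
    rw [← h2, hXt]
    push_cast
    rfl

end Pool.Agent.Lib.MP_4e7804_co.Av
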