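import Pool.Agent.Lib.MP_4e7804_co.Av.SpecL

/-!
# The values of the vertices
-/

set_option autoImplicit false

open Finset

namespace Pool.Agent.Lib.MP_4e7804_co.Av

namespace DtN

private theorem sum_ite_lt (w a : ℕ → ℚ) {κ D : ℕ} (h : κ ≤ D) :
    ∑ l ∈ range (D + 1), w l * (if l < κ then a l else 0) = ∑ l ∈ range κ, w l * a l := by
  have h1 : range κ ⊆ range (D + 1) := range_subset_range.2 (by omega)
  rw [← sum_subset h1 (fun l _ hl => ?_)]
  · refine sum_congr rfl fun l hl => ?_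
    rw [if_pos (mem_range.1 hl)]
  · rw [if_neg (fun h2 => hl (mem_range.2 h2)), mul_zero]

private theorem sum_ite_mem (w : ℕ → ℚ) {D : ℕ} (s : Finset ℕ) (h : s ⊆ range (D + 1)) :
    ∑ l ∈ range (D + 1), w l * (if l ∈ s then 1 else 0) = ∑ l ∈ s, w l := by
  rw [← sum_subset h (fun l _ hl => ?_)]
  · refine sum_congr rfl fun l hl => ?_
    rw [if_pos hl, mul_one]
  · rw [if_neg hl, mul_zero]

private theorem sum_ite_one (w : ℕ → ℚ) {c D : ℕ} (h : c ≤ D) (C : ℚ) :
    ∑ l ∈ range (D + 1), w l * (if l = c then C else 0) = w c * C := by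
  rw [sum_eq_single c (fun l _ hl => by rw [if_neg hl, mul_zero])
    (fun hc => absurd (mem_range.2 (by omega)) hc), if_pos rfl]

end DtN

open DtN

theorem tDt : StmtDt := by
  intro Q N w hw
  refine ⟨fun c hc x => ?_, fun i hi x => ?_, fun l => ?_⟩
  · have hκ : Q.κ ≤ Q.D := Nat.le_add_right _ _
    have hfr : Q.fr c ⊆ range (Q.D + 1) := (filter_subset _ _).trans
      (range_subset_range.2 (by omega))
    have e0 : dot (Q.wv w) (Q.big N c x) = ∑ l ∈ range (Q.D + 1),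
        (w l * (if l < Q.κ then -2 * (N : ℚ) * ((Q.g c l : ℚ) - Q.g Q.D l) else 0) -
          ((x : ℚ) + 1) * (w l * (if l = c then 1 else 0) + w l * (if l ∈ Q.fr c then 1 else 0)) +
          w l * (if l = Q.D then ((N : ℚ) * Q.L *
            (∑ i ∈ range Q.κ, ((Q.g c i : ℚ) ^ 2 - (Q.g Q.D i : ℚ) ^ 2)) +
            ∑ y ∈ range x, (Q.vt c y : ℚ)) else 0)) := by
      rw [← Fin.sum_univ_eq_sum_range (fun l =>
        (w l * (if l < Q.κ then -2 * (N : ℚ) * ((Q.g c l : ℚ) - Q.g Q.D l) else 0) -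
          ((x : ℚ) + 1) * (w l * (if l = c then 1 else 0) + w l * (if l ∈ Q.fr c then 1 else 0)) +
          w l * (if l = Q.D then ((N : ℚ) * Q.L *
            (∑ i ∈ range Q.κ, ((Q.g c i : ℚ) ^ 2 - (Q.g Q.D i : ℚ) ^ 2)) +
            ∑ y ∈ range x, (Q.vt c y : ℚ)) else 0))) (Q.D + 1)]
      unfold dot
      refine sum_congr rfl fun l _ => ?_
      simp only [Pm.wv, Pm.big, Pm.Om]
      push_cast
      ring
    rw [e0, sum_add_distrib, sum_sub_distrib, ← mul_sum, sum_add_distrib,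
      sum_ite_lt w (fun l => -2 * (N : ℚ) * ((Q.g c l : ℚ) - Q.g Q.D l)) hκ,
      sum_ite_one w hc, sum_ite_mem w (Q.fr c) hfr, sum_ite_one w le_rfl, hw]
    have e1 : Q.TT N c w = ∑ l ∈ range Q.κ, w l * (-2 * (N : ℚ) * ((Q.g c l : ℚ) - Q.g Q.D l)) +
        (N : ℚ) * Q.L * (∑ i ∈ range Q.κ, ((Q.g c i : ℚ) ^ 2 - (Q.g Q.D i : ℚ) ^ 2)) := by
      rw [Pm.TT, mul_sum, mul_sum, ← sum_add_distrib]
      refine sum_congr rfl fun l _ => ?_
      ring
    rw [e1, Pm.lc, Pm.om]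
    ring
  · have hD : i ≤ Q.D := le_trans hi.le (Nat.le_add_right _ _)
    have e0 : dot (Q.wv w) (Q.sml i x) = ∑ l ∈ range (Q.D + 1),
        (w l * (if l = i then (Q.v i : ℚ) - x else 0) +
          w l * (if l = Q.D then ∑ y ∈ range x, (Q.th i y : ℚ) else 0)) := by
      rw [← Fin.sum_univ_eq_sum_range (fun l => (w l * (if l = i then (Q.v i : ℚ) - x else 0) +
          w l * (if l = Q.D then ∑ y ∈ range x, (Q.th i y : ℚ) else 0))) (Q.D + 1)]
      unfold dot
      refine sum_congr rfl fun l _ => ?_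
      simp only [Pm.wv, Pm.sml]
      push_cast
      ring
    rw [e0, sum_add_distrib, sum_ite_one w hD, sum_ite_one w le_rfl, hw, Pm.sF]
    ring
  · unfold dot
    rw [sum_eq_single l (fun k _ hk => by rw [Pi.single_eq_of_ne hk]; simp)
      (fun h => absurd (mem_univ l) h), Pi.single_eq_same]
    simp [Pm.wv]

end Pool.Agent.Lib.MP_4e7804_co.Av
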