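import Pool.Agent.Lib.MP_4e7804_co.Av.SpecU
import Pool.Agent.Lib.MP_4e7804_co.Gp.Eta

/-!
# MP_4e7804_co, upper bound: generic weights and the functionals
-/

set_option autoImplicit false

open Finset

namespace Pool.Agent.Lib.MP_4e7804_co.Av

namespace EtaUN

variable {d : ℕ}

/-- the constant part of a label -/
private def cst (η : Fin (d + 1) → (Fin d → ℤ) → ℝ) (z : Fin (d + 1) → ℝ) (i : Fin (d + 1))
    (o : Option (Fin d → ℤ)) : ℝ := o.elim (z i) (η i)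

private theorem vl_eq (η : Fin (d + 1) → (Fin d → ℤ) → ℝ) (w : Fin d → ℝ)
    (z : Fin (d + 1) → ℝ) (i : Fin (d + 1)) (o : Option (Fin d → ℤ)) :
    Gp.vl η w z (i, o) = Gp.vc o ⬝ᵥ w + cst η z i o := by
  cases o with
  | none =>
    have h : (Gp.vc (none : Option (Fin d → ℤ)) : Fin d → ℝ) = 0 := rfl
    rw [h, zero_dotProduct, zero_add]
    rfl
  | some p =>
    have h : Gp.vl η w z (i, some p) = val η i p w := rfl
    rw [h, val]
    rfl

/-- the affine functional of a combination of labels -/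
private def fn (A : Fin (d + 1) → Finset (Fin d → ℤ)) (η : Fin (d + 1) → (Fin d → ℤ) → ℝ)
    (K : Gp.Elt d → ℝ) : (Fin (d + 1) → ℝ) × ℝ :=
  (fun i => K (i, none), ∑ x ∈ Gp.EtaP A, K (x.1, some x.2) * η x.1 x.2)

/-- its value, as a linear map -/
private def L (A : Fin (d + 1) → Finset (Fin d → ℤ)) (η : Fin (d + 1) → (Fin d → ℤ) → ℝ)
    (z : Fin (d + 1) → ℝ) : (Gp.Elt d → ℝ) →ₗ[ℝ] ℝ where
  toFun K := ev (fn A η K) z
  map_add' K K' := by
    simp only [ev, fn, dotProduct, Pi.add_apply, add_mul, sum_add_distrib]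
    ring
  map_smul' c K := by
    simp only [ev, fn, dotProduct, Pi.smul_apply, smul_eq_mul, RingHom.id_apply, mul_add,
      mul_sum, mul_assoc]

private theorem L_def (A : Fin (d + 1) → Finset (Fin d → ℤ)) (η : Fin (d + 1) → (Fin d → ℤ) → ℝ)
    (z : Fin (d + 1) → ℝ) (K : Gp.Elt d → ℝ) : L A η z K = ev (fn A η K) z := rfl

private theorem L_single (A : Fin (d + 1) → Finset (Fin d → ℤ))
    (η : Fin (d + 1) → (Fin d → ℤ) → ℝ) (z : Fin (d + 1) → ℝ) (i : Fin (d + 1))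
    (o : Option (Fin d → ℤ)) (ho : o ∈ OO A i) :
    L A η z (Pi.single (i, o) 1) = cst η z i o := by
  cases o with
  | none =>
    have h1 : ∀ i', (Pi.single (i, none) 1 : Gp.Elt d → ℝ) (i', none) * z i' =
        if i' = i then z i else 0 := by
      intro i'
      rw [Pi.single_apply]
      by_cases h : i' = i
      · rw [if_pos (by rw [h]), if_pos h, one_mul, h]
      · rw [if_neg (by simpa using h), if_neg h, zero_mul]
    have h2 : ∀ x ∈ Gp.EtaP A, (Pi.single (i, none) 1 : Gp.Elt d → ℝ) (x.1, some x.2) *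
        η x.1 x.2 = 0 := by
      intro x _
      rw [Pi.single_apply, if_neg (by simp), zero_mul]
    rw [L_def, ev, fn, dotProduct, sum_congr rfl fun i' _ => h1 i', sum_eq_zero h2, add_zero,
      sum_ite_eq' univ i, if_pos (mem_univ _)]
    rfl
  | some p =>
    have hp : (i, p) ∈ Gp.EtaP A := by
      rw [Gp.mem_EtaP]
      simpa [OO] using ho
    have h1 : ∀ i', (Pi.single (i, some p) 1 : Gp.Elt d → ℝ) (i', none) * z i' = 0 := by
      intro i'
      rw [Pi.single_apply, if_neg (by simp), zero_mul]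
    have h2 : ∀ x ∈ Gp.EtaP A, (Pi.single (i, some p) 1 : Gp.Elt d → ℝ) (x.1, some x.2) *
        η x.1 x.2 = if x = (i, p) then η i p else 0 := by
      intro x _
      obtain ⟨i', p'⟩ := x
      rw [Pi.single_apply]
      by_cases h : ((i', p') : Fin (d + 1) × (Fin d → ℤ)) = (i, p)
      · obtain ⟨rfl, rfl⟩ := Prod.mk.inj h
        rw [if_pos rfl, if_pos rfl, one_mul]
      · rw [if_neg (by simpa using h), if_neg h, zero_mul]
    rw [L_def, ev, fn, dotProduct, sum_eq_zero fun i' _ => h1 i', sum_congr rfl h2, zero_add,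
      sum_ite_eq' (Gp.EtaP A) (i, p), if_pos hp]
    rfl

/-- the combination of the equations of `q` with the coefficients `c` -/
private def KK (j : Fin (d + 1)) (x y : Fin d → Option (Fin d → ℤ)) (c : Fin d → ℝ) :
    Gp.Elt d → ℝ :=
  ∑ k, c k • (Pi.single (j.succAbove k, x k) 1 - Pi.single (j.succAbove k, y k) 1)

/-- the matrix of `q` -/
private def EE (x y : Fin d → Option (Fin d → ℤ)) : Matrix (Fin d) (Fin d) ℝ :=
  Matrix.of fun k l => Gp.vc (x k) l - Gp.vc (y k) l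

private theorem L_KK {A : Fin (d + 1) → Finset (Fin d → ℤ)}
    {η : Fin (d + 1) → (Fin d → ℤ) → ℝ} {j : Fin (d + 1)} {x y : Fin d → Option (Fin d → ℤ)}
    (hx : ∀ k, x k ∈ OO A (j.succAbove k)) (hy : ∀ k, y k ∈ OO A (j.succAbove k))
    (c : Fin d → ℝ) (z : Fin (d + 1) → ℝ) (w : Fin d → ℝ)
    (h : ∀ k, Gp.vl η w z (j.succAbove k, x k) = Gp.vl η w z (j.succAbove k, y k)) :
    L A η z (KK j x y c) = -(Matrix.vecMul c (EE x y) ⬝ᵥ w) := by
  have h1 : ∀ k, cst η z (j.succAbove k) (x k) - cst η z (j.succAbove k) (y k) =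
      -(Matrix.mulVec (EE x y) w k) := by
    intro k
    have h2 := h k
    rw [vl_eq, vl_eq] at h2
    have h3 : Matrix.mulVec (EE x y) w k = Gp.vc (x k) ⬝ᵥ w - Gp.vc (y k) ⬝ᵥ w := by
      rw [← sub_dotProduct]
      rfl
    rw [h3]
    linarith
  rw [KK, map_sum]
  have h4 : ∀ k, L A η z (c k • (Pi.single (j.succAbove k, x k) 1 -
      Pi.single (j.succAbove k, y k) 1)) = -(c k * Matrix.mulVec (EE x y) w k) := by
    intro k
    rw [map_smul, map_sub, L_single A η z _ _ (hx k), L_single A η z _ _ (hy k), h1 k,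
      smul_eq_mul]
    ring
  rw [sum_congr rfl fun k _ => h4 k, sum_neg_distrib, ← Matrix.dotProduct_mulVec]
  rfl

private theorem Rg_iff {q : Fin d → Finset (Option (Fin d → ℤ))}
    {x y : Fin d → Option (Fin d → ℤ)} (hk : ∀ k, q k = {x k, y k}) :
    Rg q ↔ (EE x y).det ≠ 0 := by
  have h1 : ∀ w : Fin d → ℝ, (∀ k, ∀ o ∈ q k, ∀ o' ∈ q k, Gp.vc o ⬝ᵥ w = Gp.vc o' ⬝ᵥ w) ↔
      Matrix.mulVec (EE x y) w = 0 := by
    intro w
    have h3 : ∀ k, Matrix.mulVec (EE x y) w k = Gp.vc (x k) ⬝ᵥ w - Gp.vc (y k) ⬝ᵥ w := by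
      intro k
      rw [← sub_dotProduct]
      rfl
    constructor
    · intro h
      funext k
      rw [h3, h k _ (by rw [hk]; simp) (y k) (by rw [hk]; simp), sub_self]
      rfl
    · intro h k o ho o' ho'
      have h4 : Gp.vc (x k) ⬝ᵥ w = Gp.vc (y k) ⬝ᵥ w := by
        have h5 := congrFun h k
        rw [h3] at h5
        exact sub_eq_zero.1 h5
      rw [hk, Finset.mem_insert, Finset.mem_singleton] at ho ho'
      rcases ho with rfl | rfl <;> rcases ho' with rfl | rfl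
      · rfl
      · exact h4
      · exact h4.symm
      · rfl
  rw [Ne, ← Matrix.exists_mulVec_eq_zero_iff]
  constructor
  · rintro h ⟨w, hw, hw0⟩
    exact hw (h w ((h1 w).2 hw0))
  · intro h w hw
    by_contra hne
    exact h ⟨w, hne, (h1 w).1 hw⟩

private theorem KK_off {j : Fin (d + 1)} {x y : Fin d → Option (Fin d → ℤ)} {c : Fin d → ℝ}
    {e : Gp.Elt d} (k₀ : Fin d)
    (h : ∀ k, k ≠ k₀ → e ≠ (j.succAbove k, x k) ∧ e ≠ (j.succAbove k, y k)) :
    KK j x y c e = c k₀ * ((Pi.single (j.succAbove k₀, x k₀) 1 : Gp.Elt d → ℝ) e -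
      (Pi.single (j.succAbove k₀, y k₀) 1 : Gp.Elt d → ℝ) e) := by
  rw [KK, Finset.sum_apply, sum_eq_single k₀]
  · rfl
  · intro k _ hk
    obtain ⟨h1, h2⟩ := h k hk
    rw [Pi.smul_apply, Pi.sub_apply, Pi.single_eq_of_ne h1, Pi.single_eq_of_ne h2, sub_zero,
      smul_zero]
  · intro h1
    exact absurd (mem_univ _) h1

private theorem exK₁ (A : Fin (d + 1) → Finset (Fin d → ℤ)) (j : Fin (d + 1))
    (q : Fin d → Finset (Option (Fin d → ℤ))) : ∃ K : Gp.Elt d → ℝ,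
    q ∈ QQ A j → ¬ Rg q → (∃ i, ∃ o ∈ OO A i, K (i, o) ≠ 0) ∧
      ∀ η z w, Eqs η j q z w → L A η z K = 0 := by
  by_cases hq : q ∈ QQ A j ∧ ¬ Rg q
  swap
  · exact ⟨0, fun h1 h2 => absurd ⟨h1, h2⟩ hq⟩
  obtain ⟨hq, hR⟩ := hq
  have hq2 : ∀ k, ∃ x y, x ≠ y ∧ q k = {x, y} := by
    intro k
    have h := Fintype.mem_piFinset.1 hq k
    exact Finset.card_eq_two.1 (Finset.mem_powersetCard.1 h).2
  choose x y hxy hk using hq2
  have hsub : ∀ k, q k ⊆ OO A (j.succAbove k) := fun k =>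
    (Finset.mem_powersetCard.1 (Fintype.mem_piFinset.1 hq k)).1
  have hxq : ∀ k, x k ∈ q k := fun k => by rw [hk]; simp
  have hyq : ∀ k, y k ∈ q k := fun k => by rw [hk]; simp
  have hdet : (EE x y).det = 0 := by
    by_contra h
    exact hR ((Rg_iff hk).2 h)
  obtain ⟨c, hc, hc0⟩ := Matrix.exists_vecMul_eq_zero_iff.2 hdet
  refine ⟨KK j x y c, fun _ _ => ⟨?_, fun η z w hw => ?_⟩⟩
  · obtain ⟨k, hck⟩ := Function.ne_iff.1 hc
    refine ⟨j.succAbove k, x k, hsub k (hxq k), ?_⟩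
    rw [KK_off k fun k' hk' => ?_]
    · rw [Pi.single_eq_same, Pi.single_eq_of_ne, sub_zero, mul_one]
      · exact hck
      · intro h
        exact hxy k (Prod.mk.inj h).2
    · have h1 : j.succAbove k ≠ j.succAbove k' := fun h =>
        hk' (Fin.succAbove_right_injective h).symm
      exact ⟨fun h => h1 (Prod.mk.inj h).1, fun h => h1 (Prod.mk.inj h).1⟩
  · rw [L_KK (fun k => hsub k (hxq k)) (fun k => hsub k (hyq k)) c z w
      fun k => hw k _ (hxq k) _ (hyq k), hc0, zero_dotProduct, neg_zero]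

private theorem exK₂ (A : Fin (d + 1) → Finset (Fin d → ℤ)) (j : Fin (d + 1))
    (q : Fin d → Finset (Option (Fin d → ℤ))) (i : Fin (d + 1)) (o o' : Option (Fin d → ℤ)) :
    ∃ K : Gp.Elt d → ℝ, q ∈ QQ A j → Rg q → o ∈ OO A i → o' ∈ OO A i → o ≠ o' →
      (∀ k, j.succAbove k = i → o ∉ q k) → (∃ i, ∃ o ∈ OO A i, K (i, o) ≠ 0) ∧
      ∀ η z w, Eqs η j q z w → Gp.vl η w z (i, o) - Gp.vl η w z (i, o') = L A η z K := by
  by_cases hq : q ∈ QQ A j ∧ Rg q
  swap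
  · exact ⟨0, fun h1 h2 => absurd ⟨h1, h2⟩ hq⟩
  obtain ⟨hq, hR⟩ := hq
  have hq2 : ∀ k, ∃ x y, x ≠ y ∧ q k = {x, y} := by
    intro k
    have h := Fintype.mem_piFinset.1 hq k
    exact Finset.card_eq_two.1 (Finset.mem_powersetCard.1 h).2
  choose x y hxy hk using hq2
  have hsub : ∀ k, q k ⊆ OO A (j.succAbove k) := fun k =>
    (Finset.mem_powersetCard.1 (Fintype.mem_piFinset.1 hq k)).1
  have hxq : ∀ k, x k ∈ q k := fun k => by rw [hk]; simp
  have hyq : ∀ k, y k ∈ q k := fun k => by rw [hk]; simp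
  have hdet : IsUnit (EE x y).det := isUnit_iff_ne_zero.2 ((Rg_iff hk).1 hR)
  obtain ⟨c, hc⟩ : ∃ c, Matrix.vecMul c (EE x y) = Gp.vc o - Gp.vc o' :=
    ⟨Matrix.vecMul (Gp.vc o - Gp.vc o') (EE x y)⁻¹, by
      rw [Matrix.vecMul_vecMul, Matrix.nonsing_inv_mul _ hdet, Matrix.vecMul_one]⟩
  refine ⟨Pi.single (i, o) 1 - Pi.single (i, o') 1 - KK j x y c,
    fun _ _ ho ho' hoo hno => ⟨⟨i, o, ho, ?_⟩, fun η z w hw => ?_⟩⟩
  · have h1 : KK j x y c (i, o) = 0 := by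
      rw [KK, Finset.sum_apply]
      refine sum_eq_zero fun k _ => ?_
      have h2 : ∀ o₁ ∈ q k, ((i, o) : Gp.Elt d) ≠ (j.succAbove k, o₁) := by
        intro o₁ ho₁ h
        obtain ⟨h3, h4⟩ := Prod.mk.inj h
        exact hno k h3.symm (h4 ▸ ho₁)
      rw [Pi.smul_apply, Pi.sub_apply, Pi.single_eq_of_ne (h2 _ (hxq k)),
        Pi.single_eq_of_ne (h2 _ (hyq k)), sub_zero, smul_zero]
    rw [Pi.sub_apply, Pi.sub_apply, h1, Pi.single_eq_same, Pi.single_eq_of_ne, sub_zero,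
      sub_zero]
    · exact one_ne_zero
    · intro h
      exact hoo (Prod.mk.inj h).2
  · rw [map_sub, map_sub, L_single A η z _ _ ho, L_single A η z _ _ ho',
      L_KK (fun k => hsub k (hxq k)) (fun k => hsub k (hyq k)) c z w
        fun k => hw k _ (hxq k) _ (hyq k), hc, sub_dotProduct, vl_eq, vl_eq]
    ring

end EtaUN

open EtaUN in
theorem tEtaU (hMom : Gp.StmtMom) : StmtEtaU := by
  classical
  intro d A j
  choose K₁ hK₁ using exK₁ A j
  choose K₂ hK₂ using exK₂ A j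
  let good : (Gp.Elt d → ℝ) → Prop := fun K => ∃ i, ∃ o ∈ OO A i, K (i, o) ≠ 0
  let OA : Finset (Option (Fin d → ℤ)) := univ.biUnion fun i => OO A i
  let F₁ : Finset (Gp.Elt d → ℝ) := (QQ A j).image K₁
  let F₂ : Finset (Gp.Elt d → ℝ) := (QQ A j ×ˢ (univ : Finset (Fin (d + 1))) ×ˢ OA ×ˢ OA).image
    fun t => K₂ t.1 t.2.1 t.2.2.1 t.2.2.2
  let F : Finset (Fin (d + 1) × (Fin d → ℤ) → ℝ) :=
    ((F₁ ∪ F₂).filter fun K => good K ∧ ∀ i, K (i, none) = 0).image
      fun K x => K (x.1, some x.2)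
  have hF : ∀ f ∈ F, ∃ x ∈ Gp.EtaP A, f x ≠ 0 := by
    intro f hf
    obtain ⟨K, hK, rfl⟩ := mem_image.1 hf
    obtain ⟨-, ⟨i, o, ho, hne⟩, h0⟩ := mem_filter.1 hK
    cases o with
    | none => exact absurd (h0 i) hne
    | some p => exact ⟨(i, p), Gp.mem_EtaP.2 (by simpa [OO] using ho), hne⟩
  obtain ⟨η, hη1, hη⟩ := Gp.Eta_gen hMom A F hF
  have key : ∀ K ∈ F₁ ∪ F₂, good K →
      (fn A (fun i a => (η i a : ℝ)) K).1 ≠ 0 ∨ (fn A (fun i a => (η i a : ℝ)) K).2 ≠ 0 := by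
    intro K hK hg
    by_cases h0 : ∀ i, K (i, none) = 0
    · right
      exact hη _ (mem_image.2 ⟨K, mem_filter.2 ⟨hK, hg, h0⟩, rfl⟩)
    · left
      intro h
      exact h0 fun i => congrFun h i
  refine ⟨η, fun q => fn A (fun i a => (η i a : ℝ)) (K₁ q),
    fun q i o o' => fn A (fun i a => (η i a : ℝ)) (K₂ q i o o'), fun i a _ => hη1 i a, ?_⟩
  refine ⟨fun q hq hR => ?_, fun q hq hR z w hw => ?_, fun q hq hR i o ho o' ho' hoo hno => ?_,
    fun q hq hR i o ho o' ho' hoo hno z w hw => ?_⟩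
  · exact key _ (mem_union_left _ (mem_image_of_mem _ hq)) (hK₁ q hq hR).1
  · exact (hK₁ q hq hR).2 _ z w hw
  · refine key _ (mem_union_right _ (mem_image.2 ⟨(q, i, o, o'), ?_, rfl⟩))
      (hK₂ q i o o' hq hR ho ho' hoo hno).1
    exact mem_product.2 ⟨hq, mem_product.2 ⟨mem_univ _, mem_product.2
      ⟨mem_biUnion.2 ⟨i, mem_univ _, ho⟩, mem_biUnion.2 ⟨i, mem_univ _, ho'⟩⟩⟩⟩
  · exact (hK₂ q i o o' hq hR ho ho' hoo hno).2 _ z w hw

end Pool.Agent.Lib.MP_4e7804_co.Av
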