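import Pool.Agent.Lib.MP_4e7804_co.Av.SpecU
import Pool.Agent.Lib.MP_4e7804_co.Up.Dirs

/-!
# `V_n(v)` for every `v`, module ExpU: the vertices have nonempty regions
-/

set_option autoImplicit false

open Finset

namespace Pool.Agent.Lib.MP_4e7804_co.Av

namespace ExpUN

private theorem image_inj {m : ℕ} :
    Function.Injective (fun (a : Fin m →₀ ℕ) (i : Fin m) => (a i : ℝ)) := by
  intro a b h
  ext i
  have h1 : (a i : ℝ) = (b i : ℝ) := congrFun h i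
  exact_mod_cast h1

private theorem region {d : ℕ} (S : Finset (Fin (d + 1) →₀ ℕ)) (ϕ : (Fin (d + 1) →₀ ℕ) → ℚ)
    (α : Fin (d + 1) →₀ ℕ) (y : Fin (d + 1) → ℝ)
    (h : ∀ β ∈ S, β ≠ α → ∑ i, (α i : ℝ) * y i < ∑ i, (β i : ℝ) * y i) :
    (Rgn S ϕ α).Nonempty := by
  have h1 : ∀ᶠ t : ℝ in Filter.atTop, ∀ β ∈ S, β ≠ α →
      (ϕ α : ℝ) + t * ∑ i, (α i : ℝ) * y i < (ϕ β : ℝ) + t * ∑ i, (β i : ℝ) * y i := by
    rw [Filter.eventually_all_finset]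
    intro β hβ
    by_cases hne : β = α
    · exact Filter.Eventually.of_forall fun t h2 => absurd hne h2
    · have h2 := h β hβ hne
      have h3 : 0 < ∑ i, (β i : ℝ) * y i - ∑ i, (α i : ℝ) * y i := sub_pos.2 h2
      have h4 : Filter.Tendsto
          (fun t : ℝ => t * (∑ i, (β i : ℝ) * y i - ∑ i, (α i : ℝ) * y i))
          Filter.atTop Filter.atTop := Filter.tendsto_id.atTop_mul_const h3
      filter_upwards [h4.eventually_gt_atTop ((ϕ α : ℝ) - (ϕ β : ℝ))] with t ht _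
      linarith
  obtain ⟨t, ht⟩ := h1.exists
  refine ⟨fun i => t * y i, fun β hβ hne => ?_⟩
  have h2 : ∀ γ : Fin (d + 1) →₀ ℕ, ∑ i, (γ i : ℝ) * (t * y i) = t * ∑ i, (γ i : ℝ) * y i := by
    intro γ
    rw [Finset.mul_sum]
    exact Finset.sum_congr rfl fun i _ => by ring
  rw [h2, h2]
  exact ht β hβ hne

private theorem vertex {d : ℕ} (S : Finset (Fin (d + 1) →₀ ℕ)) (ϕ : (Fin (d + 1) →₀ ℕ) → ℚ)
    (x : Fin (d + 1) → ℝ)
    (hx : x ∈ (convexHull ℝ ((fun (a : Fin (d + 1) →₀ ℕ) (i : Fin (d + 1)) => (a i : ℝ)) ''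
      (S : Set (Fin (d + 1) →₀ ℕ)))).extremePoints ℝ) :
    ∃ α, (α ∈ S ∧ (Rgn S ϕ α).Nonempty) ∧ (fun i => (α i : ℝ)) = x := by
  classical
  have hx' : x ∈ (convexHull ℝ ((S.image
      (fun (a : Fin (d + 1) →₀ ℕ) (i : Fin (d + 1)) => (a i : ℝ)) :
        Finset (Fin (d + 1) → ℝ)) : Set (Fin (d + 1) → ℝ))).extremePoints ℝ := by
    rw [Finset.coe_image]
    exact hx
  obtain ⟨hxS, y, hy, -⟩ := exists_dir _ ∅ (by simp) x hx'
  obtain ⟨α, hα, rfl⟩ := Finset.mem_image.1 hxS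
  refine ⟨α, ⟨hα, region S ϕ α (fun i => (y i : ℝ)) fun β hβ hne => ?_⟩, rfl⟩
  exact hy _ (Finset.mem_image_of_mem _ hβ) (fun h => hne (image_inj h))

end ExpUN

theorem tExpU : StmtExpU := by
  intro d S ϕ
  have hfin : ({α | α ∈ S ∧ (Rgn S ϕ α).Nonempty} : Set (Fin (d + 1) →₀ ℕ)).Finite :=
    S.finite_toSet.subset fun α hα => hα.1
  have hsub : (convexHull ℝ ((fun (a : Fin (d + 1) →₀ ℕ) (i : Fin (d + 1)) => (a i : ℝ)) ''
      (S : Set (Fin (d + 1) →₀ ℕ)))).extremePoints ℝ ⊆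
      (fun (a : Fin (d + 1) →₀ ℕ) (i : Fin (d + 1)) => (a i : ℝ)) ''
        {α | α ∈ S ∧ (Rgn S ϕ α).Nonempty} := by
    intro x hx
    obtain ⟨α, hα, rfl⟩ := ExpUN.vertex S ϕ x hx
    exact ⟨α, hα, rfl⟩
  unfold numVertices
  calc _ ≤ ((fun (a : Fin (d + 1) →₀ ℕ) (i : Fin (d + 1)) => (a i : ℝ)) ''
        {α | α ∈ S ∧ (Rgn S ϕ α).Nonempty}).ncard := Set.ncard_le_ncard hsub (hfin.image _)
    _ = ({α | α ∈ S ∧ (Rgn S ϕ α).Nonempty} : Set (Fin (d + 1) →₀ ℕ)).ncard :=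
        Set.ncard_image_of_injective _ ExpUN.image_inj
    _ = Nat.card {α // α ∈ S ∧ (Rgn S ϕ α).Nonempty} := rfl

end Pool.Agent.Lib.MP_4e7804_co.Av
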