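import Pool.Agent.Lib.MP_4e7804_co.Av.Defs
import Pool.Agent.Lib.MP_4e7804_co.Gp.Spec

/-!
# MP_4e7804_co, `V_n(v)` for every `v`: the upper bound, statements

THEOREM. `V_n(v) ≤ C (v_j + 1) ^ E`, `E = ∏_(i ≠ j) v_i`, with a constant `C` which depends only on `n` and
the maximum of the `v_i`, `i ≠ j`.

Every statement is a `Prop` with a complete proof in its docstring. Delivery: file `Av/<Name>.lean`,
first line `import Pool.Agent.Lib.MP_4e7804_co.Av.SpecU` (other modules of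
`Pool.Agent.Lib.MP_4e7804_co` may be imported where indicated), private lemmas in the namespace
`Pool.Agent.Lib.MP_4e7804_co.Av.<Name>N`, final theorem `Pool.Agent.Lib.MP_4e7804_co.Av.t<Name>` with the
statements listed under `uses` as hypotheses.

OVERVIEW. The colours `j.succAbove k`, `k : Fin d`, have few vertices. `vl η w z (i, o)` is the value of
the label `o : Option (Fin d → ℤ)` of the colour `i`: `z i` for `none`, `p · w + η i p` for `some p`. For
fixed `z` the points `w` where all the `d` colours different from `j` have two minimal labels are at most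
`E` many (`LemM`), and they are affine functions of `z` as long as `z` does not cross certain
hyperplanes, finitely many, with a number depending only on `n` and the small `v_i`. So the region of an
exponent `α` is determined by the signs of these affine functions at a generic rational point of it and by
the minimal labels of the colour `j` at the at most `E` points.
-/

set_option autoImplicit false

open Finset

namespace Pool.Agent.Lib.MP_4e7804_co.Av

/-- **LemM** (uses `Gp.StmtMom`) `d` tropical hypersurfaces with `|O k|` terms in `ℝ^d` have at most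
`∏ (|O k| - 1)` simple common points. Proof. Put `φ k o x = f k o ⬝ᵥ x + e k o`. For `u ∈ U` write
`q u k = {p k, p' k}` and `E k = f k (p k) - f k (p' k)`. By the last hypothesis `w₀ ↦ (E k ⬝ᵥ w₀)_k`
is an injective, so bijective linear map of `ℝ^d`, so there are vectors `D k ≠ 0` with `E k' ⬝ᵥ D k =
1` for `k' = k` and `0` otherwise. `Gp.StmtMom` applied to all the `D k` (all `u ∈ U`) gives a vector
`ℓ` with `D k ⬝ᵥ ℓ ≠ 0` for all of them; then `ℓ = ∑ c k • E k` with `c k = D k ⬝ᵥ ℓ ≠ 0` (both sides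
have the same product with the `D k`, a basis). Let `λ u k = p k` if `c k < 0` and `λ u k = p' k` if `c
k > 0`. (1) If `x` is a point such that for all `k` `φ k (λ u k) x ≤ φ k (other element of q u k) x`,
then `c k * (E k ⬝ᵥ (x - u)) ≥ 0` for all `k` (the two functions are equal at `u`), so `ℓ ⬝ᵥ (x - u) ≥
0`, with equality only if all `E k ⬝ᵥ (x - u) = 0`, that is `x = u`.
(2) Let `m u (λ) = ∏_k s u k (λ k)` for `λ : Fin d → Λ`, `s u k o = 1` for `o = p k`, `-1` for `o = p'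
k`, `0` otherwise. `∑_(o ∈ O k) s u k o = 0`. The functions `m u`, `u ∈ U`, are linearly independent on
`∏ O k`: let `∑ g u * m u = 0` on `∏ O k`, not all `g u = 0`, and `u₀` with `g u₀ ≠ 0` and `ℓ ⬝ᵥ u₀`
maximal. Evaluate at `λ u₀`: `m u₀ (λ u₀) = ± 1`, so there is `u ≠ u₀` with `g u ≠ 0`, `m u (λ u₀) ≠
0`, so `λ u₀ k ∈ q u k` for all `k`: `λ u₀ k` is minimal at `u`, and (1) gives `ℓ ⬝ᵥ u > ℓ ⬝ᵥ u₀`:
contradiction. (3) Fix `o* k ∈ O k` (if `U` is empty nothing is to be proved; otherwise `O k` has at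
least two elements). The restrictions of the `m u` to `X' = ∏ (O k \ {o* k})` are still linearly
independent: if `∑ g u * m u = 0` on `X'` then it vanishes on `∏ O k`, by induction on the number of
`k` with `λ k = o* k`: `m u (λ) = - ∑_(o ∈ O k, o ≠ o* k) m u (λ with λ k := o)`. So `|U| ≤ |X'| = ∏
(|O k| - 1)` (independent vectors in the space of the functions on `X'`,
`LinearIndependent.fintype_card_le_finrank`). -/
def StmtLemM : Prop := ∀ (d : ℕ) (Λ : Type) (O : Fin d → Finset Λ)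
  (f : Fin d → Λ → Fin d → ℝ) (e : Fin d → Λ → ℝ) (U : Finset (Fin d → ℝ))
  (q : (Fin d → ℝ) → Fin d → Finset Λ),
  (∀ u ∈ U, ∀ k, q u k ⊆ O k ∧ (q u k).card = 2 ∧
    (∀ o ∈ q u k, ∀ o' ∈ O k, f k o ⬝ᵥ u + e k o ≤ f k o' ⬝ᵥ u + e k o') ∧
    ∀ o ∈ q u k, ∀ o' ∈ O k, o' ∉ q u k → f k o ⬝ᵥ u + e k o < f k o' ⬝ᵥ u + e k o') →
  (∀ u ∈ U, ∀ w : Fin d → ℝ, (∀ k, ∀ o ∈ q u k, ∀ o' ∈ q u k, f k o ⬝ᵥ w = f k o' ⬝ᵥ w) → w = 0) →
  U.card ≤ ∏ k, ((O k).card - 1)

/-- **Sys** a regular system has exactly one solution. Proof. Let `q k = {o k, o' k}` (`q ∈ QQ A j`: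
`card = 2`). The equations are `(vc (o k) - vc (o' k)) ⬝ᵥ w = c k` for numbers `c k` which depend on `z`
(`vl η w z (i, o) = vc o ⬝ᵥ w + (constant)`, the constant is `z i` or `η i p`, `Gp.vl`, `Gp.vc`,
`val`). The linear map `w ↦ ((vc (o k) - vc (o' k)) ⬝ᵥ w)_k` of `Fin d → ℝ` is injective by `Rg`, so it
is surjective (`LinearMap.injective_iff_surjective`). -/
def StmtSys : Prop := ∀ (d : ℕ) (A : Fin (d + 1) → Finset (Fin d → ℤ))
  (η : Fin (d + 1) → (Fin d → ℤ) → ℝ) (j : Fin (d + 1))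
  (q : Fin d → Finset (Option (Fin d → ℤ))), q ∈ QQ A j → Rg q →
  ∀ z : Fin (d + 1) → ℝ, ∃! w : Fin d → ℝ, Eqs η j q z w

/-- **EtaU** (uses `Gp.StmtMom`; may import `Gp.Eta`, whose lemma `Gp.Eta_gen` gives generic weights for
finitely many linear conditions on `Gp.EtaP A`) generic weights and the functionals. Proof. Every
condition below says that a certain real vector `h` on the set `EtaP A` of the pairs `(i, p)`, `p ∈ A
i`, which is not zero there, satisfies `∑ h x * η x ≠ 0`; there are finitely many of them. For `q ∈ QQ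
A j` write `q k = {o k, o' k}`, `i k = j.succAbove k`, `E k = vc (o k) - vc (o' k)`. The value of a
label is `vl η w z (i, o) = vc o ⬝ᵥ w + cst (i, o)`, `cst (i, none) = z i`, `cst (i, some p) = η i p`.
(P₁) `q` not regular: some `w₀ ≠ 0` has `E k ⬝ᵥ w₀ = 0` for all `k`, so the `d` vectors `E k` of `ℝ^d`
are linearly dependent: `∑ c k • E k = 0`, `c ≠ 0`. If `Eqs η j q z w`, then `E k ⬝ᵥ w = cst (i k, o'
k) - cst (i k, o k)`, so `∑ c k * (cst (i k, o k) - cst (i k, o' k)) = 0`. This is an affine functional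
`(p, r)` of `z`: `p (i k) = c k * ([o k = none] - [o' k = none])`, `p j = 0`, and `r = ∑ h x * η x`. If
`p = 0` then for every `k` with `c k ≠ 0` both `o k, o' k` are different from `none`, and the vector
`h` has the value `c k ≠ 0` at `(i k, o k)`: require `∑ h x * η x ≠ 0`.
(P₂) `q` regular: the `E k` are a basis; let `vc o - vc o' = ∑ c k • E k`. If `Eqs η j q z w`, then
`vl (i, o) - vl (i, o') = cst (i, o) - cst (i, o') - ∑ c k * (cst (i k, o k) - cst (i k, o' k))`, an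
affine functional of `z`. The coefficient of `cst (i, o)` in it is `1`, since `o ≠ o'` and `(i, o)` is
not one of the `(i k, o k)`, `(i k, o' k)` (`i k = i` implies `o ∉ q k`). If `o = none` then `p i = 1`.
If `o = some a` and `p = 0` then `r = ∑ h x * η x` with `h (i, a) = 1`: require `r ≠ 0`. -/
def StmtEtaU : Prop := ∀ (d : ℕ) (A : Fin (d + 1) → Finset (Fin d → ℤ)) (j : Fin (d + 1)),
  ∃ (η : Fin (d + 1) → (Fin d → ℤ) → ℚ)
    (P₁ : (Fin d → Finset (Option (Fin d → ℤ))) → (Fin (d + 1) → ℝ) × ℝ)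
    (P₂ : (Fin d → Finset (Option (Fin d → ℤ))) → Fin (d + 1) → Option (Fin d → ℤ) →
      Option (Fin d → ℤ) → (Fin (d + 1) → ℝ) × ℝ),
    (∀ i, ∀ a ∈ A i, |η i a| ≤ 1) ∧ IsFnl A (fun i a => (η i a : ℝ)) j P₁ P₂

/-- **Avd** a rational point of an open set outside of finitely many hyperplanes. Proof. For every `f ∈
F` the set `{x | f.1 ⬝ᵥ x + f.2 ≠ 0}` is open and dense (as `Boxes_dense` in `Lo/Boxes.lean`: if `f.1 =
0` it is everything, since `f.2 ≠ 0`; otherwise move in a direction with `f.1 k ≠ 0`). So the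
intersection with `D` is open and nonempty (`dense_biInter_of_isOpen`, finite), and the rational points
are dense (`Rat.denseRange_cast`, `DenseRange.piMap`). -/
def StmtAvd : Prop := ∀ (m : ℕ) (F : Finset ((Fin m → ℝ) × ℝ)), (∀ f ∈ F, f.1 ≠ 0 ∨ f.2 ≠ 0) →
  ∀ D : Set (Fin m → ℝ), IsOpen D → D.Nonempty →
  ∃ z : Fin m → ℚ, (fun k => ((z k : ℚ) : ℝ)) ∈ D ∧
    ∀ f ∈ F, f.1 ⬝ᵥ (fun k => ((z k : ℚ) : ℝ)) + f.2 ≠ 0

/-- **Seg** the segment between two regions contains a rational tie. Proof. For `γ ∈ S` let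
`h γ θ = (ϕ γ + ∑ γ i * y i) - (ϕ α + ∑ α i * y i)`, `y = (1-θ) z + θ z'`: `h γ θ = (1-θ) h γ 0 + θ h γ
1`, rational numbers for rational `θ`. `h γ 0 > 0` for all `γ ≠ α` in `S` (`z ∈ Rgn α`; the
inequalities are between rational numbers), and `h β 1 < 0` (`z' ∈ Rgn β`). Among the finitely many `γ
∈ S` with `h γ 1 < 0` choose one with the smallest root `θ_γ = h γ 0 / (h γ 0 - h γ 1)`, a rational
number in `(0, 1)`. At `θ_γ`: `h γ = 0`; for `γ' ≠ α` with `h γ' 1 ≥ 0`: `h γ' ≥ 0`; with `h γ' 1 < 0`: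
`θ_γ ≤ θ_γ'`, so `h γ' ≥ 0`. So `α, γ` is a tie. -/
def StmtSeg : Prop := ∀ (d : ℕ) (S : Finset (Fin (d + 1) →₀ ℕ)) (ϕ : (Fin (d + 1) →₀ ℕ) → ℚ)
  (α β : Fin (d + 1) →₀ ℕ), α ∈ S → β ∈ S → α ≠ β → ∀ z z' : Fin (d + 1) → ℚ,
  (fun i => ((z i : ℚ) : ℝ)) ∈ Rgn S ϕ α → (fun i => ((z' i : ℚ) : ℝ)) ∈ Rgn S ϕ β →
  ∃ θ : ℚ, 0 ≤ θ ∧ θ ≤ 1 ∧ ∃ α' ∈ S, ∃ β' ∈ S, α' ≠ β' ∧
    ϕ α' + ∑ i, (α' i : ℚ) * ((1 - θ) * z i + θ * z' i) =
      ϕ β' + ∑ i, (β' i : ℚ) * ((1 - θ) * z i + θ * z' i) ∧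
    ∀ γ ∈ S, ϕ α' + ∑ i, (α' i : ℚ) * ((1 - θ) * z i + θ * z' i) ≤
      ϕ γ + ∑ i, (γ i : ℚ) * ((1 - θ) * z i + θ * z' i)

/-- **InjU** (uses `Seg`) the data determine the region. Proof. Suppose `α ≠ β`. `Seg` gives a rational
point `y = (1-θ) z + θ z'` with a tie, so `HTs` gives `w` with `2 ≤ (Mn A η y w i).card` for all `i`.
For every `k : Fin d` choose `q k ⊆ Mn A η y w (j.succAbove k)` with two elements: `q ∈ QQ A j` and
`Eqs η j q y w` (minimal labels have the same value). `ev f` is affine, so `ev f y = (1-θ) ev f z + θ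
ev f z'` (casts): if `ev f z`, `ev f z'` have the same strict sign (product `> 0`) then `ev f y` has
the same strict sign. If `q` is not regular then `ev (P₁ q) y = 0` (`eq₁`), contradiction to the
hypothesis (1). So `q` is regular. For `k`, `o ∈ OO A (j.succAbove k)`, `o ∉ q k`, `o' ∈ q k`: `ev (P₂
q _ o o') y = vl o - vl o' ≥ 0` (`eq₂` with `i = j.succAbove k`: if `j.succAbove k' = i` then `k' = k`,
`o ∉ q k`; `o ≠ o'`; `o'` is minimal), so by (2) it is `> 0` at `z` (and at `z'`). So `q ∈ Act A j P₂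
z`, and (3) gives the label `o ∈ OO A j` with `ev (P₂ q j o' o) > 0` at `z` and `z'`, so at `y`, for
all `o' ≠ o` in `OO A j`: by `eq₂` (`i = j`; `j.succAbove k = j` is impossible, `Fin.succAbove_ne`) `vl
(j, o') > vl (j, o)`. So `Mn A η y w j ⊆ {o}` has at most one element: contradiction. -/
def StmtInjU : Prop := ∀ (d : ℕ) (A : Fin (d + 1) → Finset (Fin d → ℤ))
  (η : Fin (d + 1) → (Fin d → ℤ) → ℝ) (j : Fin (d + 1))
  (P₁ : (Fin d → Finset (Option (Fin d → ℤ))) → (Fin (d + 1) → ℝ) × ℝ)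
  (P₂ : (Fin d → Finset (Option (Fin d → ℤ))) → Fin (d + 1) → Option (Fin d → ℤ) →
    Option (Fin d → ℤ) → (Fin (d + 1) → ℝ) × ℝ), IsFnl A η j P₁ P₂ →
  ∀ (S : Finset (Fin (d + 1) →₀ ℕ)) (ϕ : (Fin (d + 1) →₀ ℕ) → ℚ), HTs A η S ϕ →
  ∀ α ∈ S, ∀ β ∈ S, ∀ z z' : Fin (d + 1) → ℚ,
  (fun i => ((z i : ℚ) : ℝ)) ∈ Rgn S ϕ α → (fun i => ((z' i : ℚ) : ℝ)) ∈ Rgn S ϕ β →
  (∀ q ∈ QQ A j, ¬ Rg q → 0 < ev (P₁ q) (fun i => ((z i : ℚ) : ℝ)) *
    ev (P₁ q) (fun i => ((z' i : ℚ) : ℝ))) →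
  (∀ q ∈ QQ A j, Rg q → ∀ k, ∀ o ∈ OO A (j.succAbove k), o ∉ q k → ∀ o' ∈ q k,
    0 < ev (P₂ q (j.succAbove k) o o') (fun i => ((z i : ℚ) : ℝ)) *
      ev (P₂ q (j.succAbove k) o o') (fun i => ((z' i : ℚ) : ℝ))) →
  (∀ q ∈ Act A j P₂ (fun i => ((z i : ℚ) : ℝ)), ∃ o ∈ OO A j, ∀ o' ∈ OO A j, o' ≠ o →
    0 < ev (P₂ q j o' o) (fun i => ((z i : ℚ) : ℝ)) ∧
      0 < ev (P₂ q j o' o) (fun i => ((z' i : ℚ) : ℝ))) →
  α = β

/-- **ActU** (uses `LemM`, `Sys`) at most `E` active choices. Proof. For `q ∈ Act A j P₂ z` let `u q`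
be the solution of `Eqs η j q z` (`Sys`). For `k`, `o' ∈ q k`, `o ∈ OO A (j.succAbove k)`, `o ∉ q k`:
`vl (u q) o - vl (u q) o' = ev (P₂ q _ o o') z > 0` (`eq₂`, with `i = j.succAbove k`; if
`j.succAbove k' = j.succAbove k` then `k' = k`). So `q k` is exactly the set of the minimal labels of
the colour `j.succAbove k` at `u q` (all elements of `q k` have the same value by `Eqs`), and `u` is
injective on `Act`. Apply `LemM` with `O k = OO A (j.succAbove k)`, `f k o = vc o`, `e k o =` the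
constant (`vl η w z (i, o) = vc o ⬝ᵥ w + e`), `U = (Act A j P₂ z).image u`: `|OO A i| - 1 = |A i|`
(`card_insertNone`). -/
def StmtActU : Prop := ∀ (d : ℕ) (A : Fin (d + 1) → Finset (Fin d → ℤ))
  (η : Fin (d + 1) → (Fin d → ℤ) → ℝ) (j : Fin (d + 1))
  (P₁ : (Fin d → Finset (Option (Fin d → ℤ))) → (Fin (d + 1) → ℝ) × ℝ)
  (P₂ : (Fin d → Finset (Option (Fin d → ℤ))) → Fin (d + 1) → Option (Fin d → ℤ) →
    Option (Fin d → ℤ) → (Fin (d + 1) → ℝ) × ℝ), IsFnl A η j P₁ P₂ →
  ∀ z : Fin (d + 1) → ℝ, (Act A j P₂ z).card ≤ ∏ k : Fin d, (A (j.succAbove k)).card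

/-- **CntU** (uses `Avd`, `InjU`, `ActU`, `Sys`) the number of regions. Proof. Let `X` be the set of the
`α ∈ S` with `(Rgn S ϕ α).Nonempty`. `Rgn S ϕ α` is open (finite intersection of open half spaces). Let
`F` be the finite set of the nontrivial functionals `P₁ q` (`q ∈ QQ A j` not regular) and `P₂ q i o o'`
(`q ∈ QQ A j` regular, `o ≠ o'` in `OO A i`, and `o ∉ q k` if `j.succAbove k = i`); they are nontrivial
by `ne₁`, `ne₂`. For `α ∈ X` choose by `Avd` a rational `z α ∈ Rgn S ϕ α` with `ev f (z α) ≠ 0` for all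
`f ∈ F`. The TYPE of `α` is the pair of the set of the `q ∈ QQ A j`, not regular, with `0 < ev (P₁ q)
(z α)`, and the set of the `(q, k, o, o')`, `q ∈ QQ A j` regular, `o, o' ∈ OO A (j.succAbove k)`, with
`o ∉ q k`, `o' ∈ q k` and `0 < ev (P₂ q _ o o') (z α)`: a subset of a set with at most `c = |QQ| + |QQ|
* d * (m + 1)^2` elements, `|QQ| ≤ (2 ^ (m+1)) ^ d` (`card_powersetCard ≤ 2 ^ (m+1)`, `|OO| = |A| + 1 ≤
m + 1`). So there are at most `C = 2 ^ c'` types, `c'` this bound for `c`. Fix a type `t`. The set `Act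
A j P₂ (z α)` is the same for all `α` of the type `t`; it has at most
`E = ∏ |A (j.succAbove k)|` elements (`ActU`). The LABEL of `α` is the function which sends `q ∈ Act`
to the element `o ∈ OO A j` with the smallest value `vl η (u q) (z α) (j, o)`, `u q` the solution of
`Eqs η j q (z α)` (`Sys`); the values are distinct since `vl (j, o) - vl (j, o') = ev (P₂ q j o o') (z
α) ≠ 0`, so `ev (P₂ q j o' o) (z α) > 0` for all `o' ≠ o`. If
`α, β` have the same type and the same label, then `InjU` gives `α = β`. So the number of `α` of the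
type `t` is at most the number of functions from `Act` to `OO A j`, which is `≤ (|A j| + 1) ^ E` (`|OO
A j| = |A j| + 1 ≥ 1`). Altogether `|X| ≤ C (|A j| + 1) ^ E` (`card_le_mul_card_image` or a sum over
the types). -/
def StmtCntU : Prop := ∀ d m : ℕ, ∃ C : ℕ, ∀ (A : Fin (d + 1) → Finset (Fin d → ℤ))
  (η : Fin (d + 1) → (Fin d → ℤ) → ℝ) (j : Fin (d + 1))
  (P₁ : (Fin d → Finset (Option (Fin d → ℤ))) → (Fin (d + 1) → ℝ) × ℝ)
  (P₂ : (Fin d → Finset (Option (Fin d → ℤ))) → Fin (d + 1) → Option (Fin d → ℤ) →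
    Option (Fin d → ℤ) → (Fin (d + 1) → ℝ) × ℝ), IsFnl A η j P₁ P₂ →
  (∀ k : Fin d, (A (j.succAbove k)).card ≤ m) →
  ∀ (S : Finset (Fin (d + 1) →₀ ℕ)) (ϕ : (Fin (d + 1) →₀ ℕ) → ℚ), HTs A η S ϕ →
  Nat.card {α // α ∈ S ∧ (Rgn S ϕ α).Nonempty} ≤
    C * ((A j).card + 1) ^ ∏ k : Fin d, (A (j.succAbove k)).card

/-- **ExpU** (may import `Up.Dirs` and other modules; compare `Gp/Fin.lean`, `Gp.StmtFin`) the vertices
of the Newton polytope have nonempty regions. Proof. Every extreme point of the hull of the image of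
`S` is the image of some `α ∈ S` (`extremePoints_convexHull_subset`), and there is a direction `y` with
`∑ α i * y i < ∑ β i * y i` for all `β ≠ α` in `S` (`exists_dir` of `Up/Dirs.lean`, or the separation
of a vertex from the hull of the other points). For large `t > 0` the point `t • y` is in `Rgn S ϕ α`.
The map from `S` to real vectors is injective. So the number of extreme points is at most the number of
these `α`. -/
def StmtExpU : Prop := ∀ (d : ℕ) (S : Finset (Fin (d + 1) →₀ ℕ)) (ϕ : (Fin (d + 1) →₀ ℕ) → ℚ),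
  numVertices (convexHull ℝ ((fun (a : Fin (d + 1) →₀ ℕ) (i : Fin (d + 1)) => (a i : ℝ)) ''
    (S : Set (Fin (d + 1) →₀ ℕ)))) ≤ Nat.card {α // α ∈ S ∧ (Rgn S ϕ α).Nonempty}

/-- **TieS** (imports `Up.Latt`, `Up.Trop`) the tie condition in terms of the vertices, with the
variables. Proof. As in `tie_vertices` of `Up/Latt.lean`; its auxiliary statement `hmin` says that
every lattice point `p` of `P i` which is minimal for the weights `η' p = η i p` (`p ∈ A i`), `2` (`p ∉
A i`) is in `A i` and is minimal in `A i`. First alternative of `Tie`: `p` with value `z i`, all values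
`≥ z i`: `p ∈ A i`, the labels `some p` and `none` have the same value `z i`, and every other label has
a value `≥ z i`, so both are in `Mn`. Second alternative: `p ≠ q` both minimal with a value `≤ z i`:
`p, q ∈ A i`, `some p`, `some q` are in `Mn`. (`vl η w z (i, none) = z i`, `vl η w z (i, some p) = val
η i p w = dot w p + η i p`, cast to `ℝ`.) -/
def StmtTieS : Prop := ∀ (d : ℕ) (P : Fin (d + 1) → Set (Fin d → ℝ))
  (A : Fin (d + 1) → Finset (Fin d → ℤ)), (∀ i, (A i).Nonempty) →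
  (∀ i, P i = convexHull ℝ (toReal '' (A i : Set (Fin d → ℤ)))) →
  ∀ η : Fin (d + 1) → (Fin d → ℤ) → ℚ, (∀ i, ∀ a ∈ A i, |η i a| ≤ 1) →
  ∀ (z : Fin (d + 1) → ℚ) (w : Fin d → ℚ),
  (∀ i, ((∃ p ∈ latticePoints (P i), dot w p + (if p ∈ A i then η i p else 2) = z i ∧
      ∀ q ∈ latticePoints (P i), z i ≤ dot w q + (if q ∈ A i then η i q else 2)) ∨
    ∃ p ∈ latticePoints (P i), ∃ q ∈ latticePoints (P i), p ≠ q ∧
      dot w p + (if p ∈ A i then η i p else 2) = dot w q + (if q ∈ A i then η i q else 2) ∧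
      dot w p + (if p ∈ A i then η i p else 2) ≤ z i ∧
      ∀ r ∈ latticePoints (P i), dot w p + (if p ∈ A i then η i p else 2) ≤
        dot w r + (if r ∈ A i then η i r else 2))) →
  ∀ i, 2 ≤ (Mn A (fun i a => (η i a : ℝ)) (fun i => ((z i : ℚ) : ℝ)) (fun k => ((w k : ℚ) : ℝ)) i).card

/-- **Upp** (uses `EtaU`, `CntU`, `ExpU`, `TieS`; imports `Up.Latt`, `Up.Trop`; compare
`Gp/MainG.lean`) the upper bound. Proof. As in `Gp/MainG.lean`: `exists_vertices` gives the `A i`, `(A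
i).card = v i`; `EtaU` gives `η, P₁, P₂`; `trop_subset` with the weights `if p ∈ A i then η i p else 2`
gives `ϕ`, and `TieS` shows `HTs` (the `Tie` of `Up/Trop.lean` is exactly the hypothesis of `TieS`;
cast `w` to `ℝ`). `CntU` with `m`, `ExpU`; `∏_k v (j.succAbove k) = ∏_(i ≠ j) v i`
(`Fin.prod_univ_succAbove` or `univ.erase j = univ.image j.succAbove`).
`newton F` is the hull in `ExpU` with `S = F.support`. -/
def StmtUpp : Prop := ∀ d m : ℕ, ∃ C : ℕ, ∀ (v : Fin (d + 1) → ℕ) (j : Fin (d + 1)),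
  (∀ i, i ≠ j → v i ≤ m) → ∀ N : ℕ, IsVertexNumber v N →
    N ≤ C * (v j + 1) ^ ∏ i ∈ univ.erase j, v i

end Pool.Agent.Lib.MP_4e7804_co.Av
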