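import Pool.Agent.Lib.MP_4e7804_co.Av.SpecL
import Pool.Agent.Lib.MP_4e7804_co.Av.SpecU
import Pool.Agent.Lib.MP_4e7804_co.Gp.MainG
import Pool.Agent.Lib.MP_4e7804_co.Pg.PermP

/-! MP_4e7804_co: the order of growth of `V_n(v)` for every `v`, assembly of the lower and the upper
bound. -/

set_option autoImplicit false

open Finset

namespace Pool.Agent.Lib.MP_4e7804_co.Av

/-- the basic facts on `V v` -/
theorem FinA.base {d : ℕ} (hd : 2 ≤ d) (v : Fin (d + 1) → ℕ) (hv : ∀ i, 1 ≤ v i) :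
    BddAbove {N | IsVertexNumber v N} ∧ IsVertexNumber v (V v) ∧
    ∀ m, ∏ i ∈ univ.erase m, (1 + ∏ j ∈ (univ.erase m).erase i, (v j - 1)) ≤ V v := by
  classical
  obtain ⟨C, hC⟩ := upper_special d (by omega)
  obtain ⟨m0, -, hm0⟩ := exists_min_image univ v univ_nonempty
  have hbdd : BddAbove {N | IsVertexNumber v N} :=
    ⟨C * (∏ i ∈ univ.erase m0, v i) ^ (d - 1),
      fun N hN => hC v m0 (fun i => hm0 i (mem_univ i)) N hN⟩
  have hne : {N | IsVertexNumber v N}.Nonempty := by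
    obtain ⟨N, hN, -⟩ := lower_special hd v hv m0
    exact ⟨N, hN⟩
  refine ⟨hbdd, Nat.sSup_mem hne hbdd, fun m => ?_⟩
  obtain ⟨N, hN, hle⟩ := lower_special hd v hv m
  refine le_trans (le_of_eq ?_) (hle.trans (le_csSup hbdd hN))
  refine prod_congr (by ext i; simp) fun i _ => ?_
  rw [add_comm]
  congr 1
  refine prod_congr ?_ fun j _ => rfl
  ext j
  simp [and_comm]

/-- the lower bound if at most one `v i` is `1` -/
theorem FinA.low1 {d : ℕ} (hd : 2 ≤ d) (v : Fin (d + 1) → ℕ) (hv : ∀ i, 1 ≤ v i)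
    (m : Fin (d + 1)) (hm : ∀ i, i ≠ m → 2 ≤ v i) :
    (∏ i ∈ univ.erase m, v i) ^ (d - 1) ≤ 2 ^ (d * (d - 1)) * V v := by
  classical
  have hlow := (FinA.base hd v hv).2.2
  have hcard : ∀ i ∈ univ.erase m, ((univ.erase m).erase i).card = d - 1 := by
    intro i hi
    rw [card_erase_of_mem hi, card_erase_of_mem (mem_univ m), card_univ, Fintype.card_fin]
    omega
  have hcard2 : (univ.erase m).card = d := by
    rw [card_erase_of_mem (mem_univ m), card_univ, Fintype.card_fin]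
    omega
  have h1 : ∀ i ∈ univ.erase m, ∏ j ∈ (univ.erase m).erase i, v j ≤
      2 ^ (d - 1) * (1 + ∏ j ∈ (univ.erase m).erase i, (v j - 1)) := by
    intro i hi
    calc ∏ j ∈ (univ.erase m).erase i, v j ≤ ∏ j ∈ (univ.erase m).erase i, (2 * (v j - 1)) := by
          refine prod_le_prod' fun j hj => ?_
          have := hm j (ne_of_mem_erase (mem_of_mem_erase hj))
          omega
      _ = 2 ^ (d - 1) * ∏ j ∈ (univ.erase m).erase i, (v j - 1) := by
          rw [prod_mul_distrib, prod_const, hcard i hi]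
      _ ≤ 2 ^ (d - 1) * (1 + ∏ j ∈ (univ.erase m).erase i, (v j - 1)) :=
          Nat.mul_le_mul_left _ (Nat.le_add_left _ _)
  have h2 : ∏ i ∈ univ.erase m, ∏ j ∈ (univ.erase m).erase i, v j =
      (∏ i ∈ univ.erase m, v i) ^ (d - 1) := by
    have h3 : ∏ i ∈ univ.erase m, ∏ j ∈ (univ.erase m).erase i, v j =
        ∏ j ∈ univ.erase m, ∏ i ∈ (univ.erase m).erase j, v j := by
      refine prod_comm' fun i j => ?_
      simp only [mem_erase]
      tauto
    rw [h3, ← prod_pow]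
    refine prod_congr rfl fun j hj => ?_
    rw [prod_const, hcard j hj]
  calc (∏ i ∈ univ.erase m, v i) ^ (d - 1)
      = ∏ i ∈ univ.erase m, ∏ j ∈ (univ.erase m).erase i, v j := h2.symm
    _ ≤ ∏ i ∈ univ.erase m, (2 ^ (d - 1) * (1 + ∏ j ∈ (univ.erase m).erase i, (v j - 1))) :=
        prod_le_prod' h1
    _ = 2 ^ (d * (d - 1)) *
          ∏ i ∈ univ.erase m, (1 + ∏ j ∈ (univ.erase m).erase i, (v j - 1)) := by
        rw [prod_mul_distrib, prod_const, hcard2, ← pow_mul, mul_comm (d - 1) d]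
    _ ≤ 2 ^ (d * (d - 1)) * V v := Nat.mul_le_mul_left _ (hlow m)

/-- THE ORDER OF GROWTH (`n = d + 1`): `a` is a largest, `z` a smallest entry. -/
theorem order_all (hLow : StmtLow) (hUpp : StmtUpp) (d : ℕ) (hd : 2 ≤ d) :
    ∃ C : ℕ, ∀ v : Fin (d + 1) → ℕ, (∀ i, 1 ≤ v i) →
      IsGreatest {N | IsVertexNumber v N} (V v) ∧
      ∀ a z, a ≠ z → (∀ i, v i ≤ v a) → (∀ i, v z ≤ v i) →
        v a ^ min (d - 1) (∏ i ∈ univ.erase a, v i) * (∏ i ∈ (univ.erase a).erase z, v i) ^ (d - 1)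
          ≤ C * V v ∧
        V v ≤ C * (v a ^ min (d - 1) (∏ i ∈ univ.erase a, v i) *
          (∏ i ∈ (univ.erase a).erase z, v i) ^ (d - 1)) := by
  classical
  obtain ⟨C1, hC1⟩ := upper_special d (by omega)
  obtain ⟨C2, hC2⟩ := hLow d hd
  obtain ⟨C3, hC3⟩ := hUpp d d
  obtain ⟨C, hC⟩ : ∃ C : ℕ, C = C1 + C2 + C3 * 2 ^ d + 2 ^ (d * (d - 1)) := ⟨_, rfl⟩
  have hle : C1 ≤ C ∧ C2 ≤ C ∧ C3 * 2 ^ d ≤ C ∧ 2 ^ (d * (d - 1)) ≤ C := by
    generalize C3 * 2 ^ d = x at hC ⊢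
    generalize 2 ^ (d * (d - 1)) = y at hC ⊢
    omega
  refine ⟨C, fun v hv => ?_⟩
  obtain ⟨hbdd, hmem, hlow⟩ := FinA.base hd v hv
  refine ⟨⟨hmem, fun N hN => le_csSup hbdd hN⟩, fun a z haz ha hz => ?_⟩
  have hprod : ∏ i ∈ univ.erase a, v i = v z * ∏ i ∈ (univ.erase a).erase z, v i :=
    (mul_prod_erase _ _ (mem_erase.2 ⟨haz.symm, mem_univ z⟩)).symm
  have hprodz : ∏ i ∈ univ.erase z, v i = v a * ∏ i ∈ (univ.erase a).erase z, v i := by
    rw [erase_right_comm]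
    exact (mul_prod_erase _ _ (mem_erase.2 ⟨haz, mem_univ a⟩)).symm
  have hprodpos : 0 < ∏ i ∈ (univ.erase a).erase z, v i := prod_pos fun i _ => hv i
  constructor
  · -- the lower bound
    by_cases h1 : ∃ z' z'', z' ≠ z'' ∧ v z' = 1 ∧ v z'' = 1
    · obtain ⟨z', z'', hne, hz1, hz2⟩ := h1
      have hvz : v z = 1 := le_antisymm ((hz z').trans hz1.le) (hv z)
      rw [hvz, one_mul] at hprod
      obtain ⟨N, hN, hle'⟩ := hC2 v a hv ha ⟨z', z'', hne, hz1, hz2⟩
      rw [hprod] at hle' ⊢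
      exact hle'.trans (Nat.mul_le_mul hle.2.1 (le_csSup hbdd hN))
    · have hm : ∀ i, i ≠ z → 2 ≤ v i := by
        intro i hi
        by_contra h2
        have h3 : v i = 1 := by have := hv i; omega
        exact h1 ⟨i, z, hi, h3, le_antisymm ((hz i).trans h3.le) (hv z)⟩
      have h2 := FinA.low1 hd v hv z hm
      rw [hprodz, mul_pow] at h2
      refine le_trans (Nat.mul_le_mul_right _ (Nat.pow_le_pow_right (hv a) (min_le_left _ _))) ?_
      exact h2.trans (Nat.mul_le_mul_right _ hle.2.2.2)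
  · -- the upper bound
    rcases Nat.lt_or_ge (∏ i ∈ univ.erase a, v i) (d - 1) with h1 | h1
    · rw [min_eq_right h1.le]
      have h2 : ∀ i, i ≠ a → v i ≤ d := by
        intro i hi
        have h3 : v i ≤ ∏ i ∈ univ.erase a, v i :=
          single_le_prod' (fun i _ => hv i) (mem_erase.2 ⟨hi, mem_univ i⟩)
        omega
      have h3 := hC3 v a h2 (V v) hmem
      have h4 : (v a + 1) ^ (∏ i ∈ univ.erase a, v i) ≤
          2 ^ d * v a ^ (∏ i ∈ univ.erase a, v i) := by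
        calc (v a + 1) ^ (∏ i ∈ univ.erase a, v i) ≤ (2 * v a) ^ (∏ i ∈ univ.erase a, v i) := by
              refine Nat.pow_le_pow_left ?_ _
              have := hv a
              omega
          _ = 2 ^ (∏ i ∈ univ.erase a, v i) * v a ^ (∏ i ∈ univ.erase a, v i) := mul_pow _ _ _
          _ ≤ 2 ^ d * v a ^ (∏ i ∈ univ.erase a, v i) :=
              Nat.mul_le_mul_right _ (Nat.pow_le_pow_right (by norm_num) (by omega))
      calc V v ≤ C3 * (v a + 1) ^ (∏ i ∈ univ.erase a, v i) := h3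
        _ ≤ C3 * (2 ^ d * v a ^ (∏ i ∈ univ.erase a, v i)) := Nat.mul_le_mul_left _ h4
        _ = C3 * 2 ^ d * (v a ^ (∏ i ∈ univ.erase a, v i) * 1) := by ring
        _ ≤ C * (v a ^ (∏ i ∈ univ.erase a, v i) *
            (∏ i ∈ (univ.erase a).erase z, v i) ^ (d - 1)) := by
          refine Nat.mul_le_mul hle.2.2.1 (Nat.mul_le_mul_left _ ?_)
          exact Nat.one_le_pow _ _ hprodpos
    · rw [min_eq_left h1]
      have h2 := hC1 v z hz (V v) hmem
      rw [hprodz, mul_pow] at h2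
      exact h2.trans (Nat.mul_le_mul_right _ hle.1)

end Pool.Agent.Lib.MP_4e7804_co.Av
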