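import Pool.Agent.Lib.MP_4e7804_co.Av.SpecL

/-!
# MP_4e7804_co, order of growth for every vector: the gap between the common parts
-/

set_option autoImplicit false

open Finset

namespace Pool.Agent.Lib.MP_4e7804_co.Av

namespace GapN

/-- the contribution of one colour -/
private theorem term (L S g g' h w : ℚ) (Δ : ℤ) (hΔ : (Δ : ℚ) = g' - g) (hL : L = 2 * S + 1)
    (h1 : L * g ≤ w) (h2 : w ≤ L * g + S) :
    (g - h) * (L * (g + h) - 2 * w) + (Δ : ℚ) ^ 2 ≤ (g' - h) * (L * (g' + h) - 2 * w) := by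
  have e1 : (g' - h) * (L * (g' + h) - 2 * w) - (g - h) * (L * (g + h) - 2 * w) =
      L * (Δ : ℚ) ^ 2 - 2 * (w - L * g) * Δ := by
    rw [hΔ]
    ring
  have e2 : (Δ : ℚ) ≤ (Δ : ℚ) ^ 2 := by
    have : Δ ≤ Δ ^ 2 := by nlinarith [sq_nonneg Δ, Int.le_self_sq Δ]
    exact_mod_cast this
  have e3 : (w - L * g) * Δ ≤ S * (Δ : ℚ) ^ 2 := by
    calc (w - L * g) * Δ ≤ (w - L * g) * (Δ : ℚ) ^ 2 :=
          mul_le_mul_of_nonneg_left e2 (by linarith)
      _ ≤ S * (Δ : ℚ) ^ 2 := mul_le_mul_of_nonneg_right (by linarith) (sq_nonneg _)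
  have e4 : L * (Δ : ℚ) ^ 2 = 2 * (S * (Δ : ℚ) ^ 2) + (Δ : ℚ) ^ 2 := by
    rw [hL]
    ring
  linarith

end GapN

theorem tGap : StmtGap := by
  intro Q hQ N hN w
  refine ⟨?_, ?_⟩
  · unfold Pm.TT
    rw [sum_eq_zero fun i _ => by rw [sub_self, zero_mul], mul_zero]
  · intro c hc c' hc' hne hb hb' hnear
    have hL : (Q.L : ℚ) = 2 * (Q.S : ℚ) + 1 := by
      unfold Pm.L
      push_cast
      ring
    have key : ∀ i ∈ range Q.κ, ((Q.g c i : ℚ) - Q.g Q.D i) *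
        (Q.L * ((Q.g c i : ℚ) + Q.g Q.D i) - 2 * w i) +
          ((((Q.g c' i : ℤ) - Q.g c i : ℤ) : ℚ)) ^ 2 ≤
        ((Q.g c' i : ℚ) - Q.g Q.D i) * (Q.L * ((Q.g c' i : ℚ) + Q.g Q.D i) - 2 * w i) := by
      intro i hi
      obtain ⟨h1, h2⟩ := hnear.2.1 i (mem_range.mp hi)
      exact GapN.term _ _ _ _ _ _ _ (by push_cast; ring) hL h1 h2
    obtain ⟨i, hi, hgi⟩ := hQ.g_ne c hc c' hc' hne hb hb'
    have h1 : (1 : ℚ) ≤ ∑ i ∈ range Q.κ, ((((Q.g c' i : ℤ) - Q.g c i : ℤ) : ℚ)) ^ 2 := by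
      have h2 : (1 : ℚ) ≤ ((((Q.g c' i : ℤ) - Q.g c i : ℤ) : ℚ)) ^ 2 := by
        have h3 : (1 : ℤ) ≤ ((Q.g c' i : ℤ) - Q.g c i) ^ 2 := by
          have h4 : ((Q.g c' i : ℤ) - Q.g c i) ≠ 0 := by
            intro h5
            apply hgi
            omega
          have h5 : 0 < ((Q.g c' i : ℤ) - Q.g c i) ^ 2 := by positivity
          omega
        exact_mod_cast h3
      refine h2.trans (single_le_sum (f := fun i => ((((Q.g c' i : ℤ) - Q.g c i : ℤ) : ℚ)) ^ 2)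
        (fun j _ => sq_nonneg _) (mem_range.mpr hi))
    have h2 := sum_le_sum key
    rw [sum_add_distrib] at h2
    have hN' : (0 : ℚ) ≤ N := by exact_mod_cast hN
    unfold Pm.TT
    have h3 := mul_le_mul_of_nonneg_left (le_trans (add_le_add_right h1 _) h2) hN'
    linarith

end Pool.Agent.Lib.MP_4e7804_co.Av
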