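import Pool.Agent.Lib.MP_4e7804_co.Av.SpecU

/-! MP_4e7804_co, Av, module InjU (helper59): the data determine the region. -/

set_option autoImplicit false

open Finset

namespace Pool.Agent.Lib.MP_4e7804_co.Av

namespace InjUN

private theorem ev_aff {d : ℕ} (f : (Fin (d + 1) → ℝ) × ℝ) (θ : ℚ) (z z' : Fin (d + 1) → ℚ) :
    ev f (fun i => (((1 - θ) * z i + θ * z' i : ℚ) : ℝ)) =
      (1 - (θ : ℝ)) * ev f (fun i => ((z i : ℚ) : ℝ)) +
        (θ : ℝ) * ev f (fun i => ((z' i : ℚ) : ℝ)) := by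
  unfold ev
  simp only [dotProduct]
  have h1 : ∑ i, f.1 i * (((1 - θ) * z i + θ * z' i : ℚ) : ℝ) =
      (1 - (θ : ℝ)) * ∑ i, f.1 i * ((z i : ℚ) : ℝ) + (θ : ℝ) * ∑ i, f.1 i * ((z' i : ℚ) : ℝ) := by
    rw [Finset.mul_sum, Finset.mul_sum, ← Finset.sum_add_distrib]
    refine Finset.sum_congr rfl fun i _ => ?_
    push_cast
    ring
  rw [h1]
  ring

private theorem sgn_aff {θ a b : ℝ} (h0 : 0 ≤ θ) (h1 : θ ≤ 1) (hab : 0 < a * b)
    (hc : 0 ≤ (1 - θ) * a + θ * b) : 0 < a ∧ 0 < b := by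
  rcases pos_and_pos_or_neg_and_neg_of_mul_pos hab with h | ⟨ha, hb⟩
  · exact h
  · exfalso
    rcases h0.eq_or_lt with h2 | h2
    · rw [← h2] at hc
      linarith
    · nlinarith [mul_neg_of_pos_of_neg h2 hb, mul_nonneg (sub_nonneg.2 h1) (neg_nonneg.2 ha.le)]

private theorem pos_aff {θ a b : ℝ} (h0 : 0 ≤ θ) (h1 : θ ≤ 1) (ha : 0 < a) (hb : 0 < b) :
    0 < (1 - θ) * a + θ * b := by
  rcases h0.eq_or_lt with h2 | h2
  · rw [← h2]
    linarith
  · nlinarith [mul_pos h2 hb, mul_nonneg (sub_nonneg.2 h1) ha.le]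

private theorem mem_Mn {d : ℕ} (A : Fin (d + 1) → Finset (Fin d → ℤ))
    (η : Fin (d + 1) → (Fin d → ℤ) → ℝ) (z : Fin (d + 1) → ℝ) (w : Fin d → ℝ) (i : Fin (d + 1))
    (o : Option (Fin d → ℤ)) : o ∈ Mn A η z w i ↔
      o ∈ OO A i ∧ ∀ o' ∈ OO A i, Gp.vl η w z (i, o) ≤ Gp.vl η w z (i, o') := by
  unfold Mn
  rw [Finset.mem_filter]

end InjUN

open InjUN in
theorem tInjU (hSeg : StmtSeg) : StmtInjU := by
  classical
  intro d A η j P₁ P₂ hF S ϕ hT α hα β hβ z z' hz hz' h1 h2 h3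
  by_contra hne
  obtain ⟨θ, hθ0, hθ1, α', hα', β', hβ', hne', htie, hmin⟩ :=
    hSeg d S ϕ α β hα hβ hne z z' hz hz'
  obtain ⟨w, hw⟩ := hT (fun i => (1 - θ) * z i + θ * z' i) ⟨α', hα', β', hβ', hne', htie, hmin⟩
  have hθ0' : (0 : ℝ) ≤ (θ : ℝ) := by exact_mod_cast hθ0
  have hθ1' : (θ : ℝ) ≤ 1 := by exact_mod_cast hθ1
  have hq : ∀ k : Fin d, ∃ t ⊆ Mn A η (fun i => (((1 - θ) * z i + θ * z' i : ℚ) : ℝ)) w
      (j.succAbove k), t.card = 2 := fun k => Finset.exists_subset_card_eq (hw _)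
  choose q hq1 hq2 using hq
  have hqO : ∀ k, ∀ o ∈ q k, o ∈ OO A (j.succAbove k) ∧ ∀ o' ∈ OO A (j.succAbove k),
      Gp.vl η w (fun i => (((1 - θ) * z i + θ * z' i : ℚ) : ℝ)) (j.succAbove k, o) ≤
        Gp.vl η w (fun i => (((1 - θ) * z i + θ * z' i : ℚ) : ℝ)) (j.succAbove k, o') :=
    fun k o ho => (mem_Mn A η _ w _ o).1 (hq1 k ho)
  have hqQ : q ∈ QQ A j := by
    unfold QQ
    rw [Fintype.mem_piFinset]
    exact fun k => Finset.mem_powersetCard.2 ⟨fun o ho => (hqO k o ho).1, hq2 k⟩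
  have hEq : Eqs η j q (fun i => (((1 - θ) * z i + θ * z' i : ℚ) : ℝ)) w := by
    intro k o ho o' ho'
    exact le_antisymm ((hqO k o ho).2 o' (hqO k o' ho').1) ((hqO k o' ho').2 o (hqO k o ho).1)
  have hR : Rg q := by
    by_contra hn
    have h4 := hF.eq₁ q hqQ hn _ w hEq
    rw [ev_aff] at h4
    have h5 := h1 q hqQ hn
    have h6 := sgn_aff hθ0' hθ1' h5 h4.symm.le
    have h7 := pos_aff hθ0' hθ1' h6.1 h6.2
    linarith
  have hAct : q ∈ Act A j P₂ (fun i => ((z i : ℚ) : ℝ)) := by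
    unfold Act
    rw [Finset.mem_filter]
    refine ⟨hqQ, hR, fun k o ho hoq o' ho' => ?_⟩
    have hoo : o ≠ o' := fun h => hoq (h ▸ ho')
    have h4 := hF.eq₂ q hqQ hR (j.succAbove k) o ho o' (hqO k o' ho').1 hoo
      (fun k' hk' => by
        have h5 : k' = k := Fin.succAbove_right_injective hk'
        rw [h5]
        exact hoq) _ w hEq
    have h5 := (hqO k o' ho').2 o ho
    rw [ev_aff] at h4
    exact (sgn_aff hθ0' hθ1' (h2 q hqQ hR k o ho hoq o' ho') (by linarith)).1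
  obtain ⟨o, ho, hoo⟩ := h3 q hAct
  have hsub : Mn A η (fun i => (((1 - θ) * z i + θ * z' i : ℚ) : ℝ)) w j ⊆ {o} := by
    intro o' ho'
    rw [mem_Mn] at ho'
    rw [Finset.mem_singleton]
    by_contra hcon
    have h4 := hF.eq₂ q hqQ hR j o' ho'.1 o ho hcon
      (fun k hk => absurd hk (Fin.succAbove_ne j k)) _ w hEq
    rw [ev_aff] at h4
    obtain ⟨h5, h6⟩ := hoo o' ho'.1 hcon
    have h7 := pos_aff hθ0' hθ1' h5 h6
    have h8 := ho'.2 o ho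
    linarith
  have h4 := Finset.card_le_card hsub
  rw [Finset.card_singleton] at h4
  have h5 := hw j
  omega

end Pool.Agent.Lib.MP_4e7804_co.Av
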