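import Pool.Agent.Lib.MP_4e7804_co.Av.SpecL

/-!
# MP_4e7804_co, package Av: a bound for the local parts
-/

set_option autoImplicit false

open Finset

namespace Pool.Agent.Lib.MP_4e7804_co.Av

namespace KbN

variable (Q : Pm)

/-- a bound for the variables near all places -/
private def W : ℚ :=
  ((Q.L * (∑ c ∈ range (Q.D + 1), ∑ i ∈ range Q.κ, Q.g c i) + Q.S + 1 : ℕ) : ℚ)

private theorem W_nonneg : 0 ≤ W Q := Nat.cast_nonneg _

private theorem var_bd (c₀ : ℕ) (hc₀ : c₀ ≤ Q.D) (w : ℕ → ℚ) (hw : Q.Near c₀ w) (l : ℕ)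
    (hl : l ≤ Q.D) : 0 ≤ w l ∧ w l ≤ W Q := by
  obtain ⟨h1, h2, h3⟩ := hw
  have hS : (Q.S : ℚ) ≤ W Q := by
    unfold W
    exact_mod_cast (by omega : Q.S ≤ Q.L * (∑ c ∈ range (Q.D + 1), ∑ i ∈ range Q.κ, Q.g c i)
      + Q.S + 1)
  have h1W : (1 : ℚ) ≤ W Q := by
    unfold W
    exact_mod_cast (by omega : 1 ≤ Q.L * (∑ c ∈ range (Q.D + 1), ∑ i ∈ range Q.κ, Q.g c i)
      + Q.S + 1)
  rcases Nat.lt_or_ge l Q.κ with hk | hk
  · obtain ⟨h4, h5⟩ := h2 l hk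
    constructor
    · exact le_trans (mul_nonneg (Nat.cast_nonneg _) (Nat.cast_nonneg _)) h4
    · refine le_trans h5 ?_
      have h6 : Q.g c₀ l ≤ ∑ c ∈ range (Q.D + 1), ∑ i ∈ range Q.κ, Q.g c i := by
        refine le_trans (Finset.single_le_sum (f := fun i => Q.g c₀ i)
          (fun i _ => Nat.zero_le _) (mem_range.mpr hk)) ?_
        exact Finset.single_le_sum (f := fun c => ∑ i ∈ range Q.κ, Q.g c i)
          (fun c _ => Nat.zero_le _) (mem_range.mpr (by omega))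
      have h7 : Q.L * Q.g c₀ l + Q.S ≤
          Q.L * (∑ c ∈ range (Q.D + 1), ∑ i ∈ range Q.κ, Q.g c i) + Q.S + 1 := by
        have := Nat.mul_le_mul_left Q.L h6
        omega
      unfold W
      exact_mod_cast h7
  · rcases Nat.lt_or_ge l Q.D with hD | hD
    · obtain ⟨h4, h5⟩ := h3 l hk hD
      exact ⟨h4, le_trans h5 hS⟩
    · have hlD : l = Q.D := le_antisymm hl hD
      rw [hlD, h1]
      exact ⟨zero_le_one, h1W⟩

private theorem om_bd (c₀ : ℕ) (hc₀ : c₀ ≤ Q.D) (w : ℕ → ℚ) (hw : Q.Near c₀ w) (c : ℕ)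
    (hc : c ≤ Q.D) : |Q.om c w| ≤ (Q.κ + 1) * W Q := by
  have hκ : Q.κ ≤ Q.D := by unfold Pm.D; omega
  have hfr : ∀ i ∈ Q.fr c, 0 ≤ w i ∧ w i ≤ W Q := by
    intro i hi
    have hi2 : i < Q.κ := mem_range.mp (mem_filter.mp hi).1
    exact var_bd Q c₀ hc₀ w hw i (by omega)
  obtain ⟨h1, h2⟩ := var_bd Q c₀ hc₀ w hw c hc
  have h3 : 0 ≤ ∑ i ∈ Q.fr c, w i := Finset.sum_nonneg fun i hi => (hfr i hi).1
  have h4 : ∑ i ∈ Q.fr c, w i ≤ Q.κ * W Q := by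
    have h5 : ∑ i ∈ Q.fr c, w i ≤ ∑ _i ∈ Q.fr c, W Q :=
      Finset.sum_le_sum fun i hi => (hfr i hi).2
    rw [Finset.sum_const, nsmul_eq_mul] at h5
    refine le_trans h5 (mul_le_mul_of_nonneg_right ?_ (W_nonneg Q))
    have h6 : (Q.fr c).card ≤ Q.κ := by
      have := Finset.card_filter_le (range Q.κ) (fun i => Q.g c i ≤ Q.G i)
      rw [card_range] at this
      exact this
    exact_mod_cast h6
  unfold Pm.om
  rw [abs_of_nonneg (add_nonneg h1 h3)]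
  linarith

/-- the bound for one local part -/
private def bd (c x : ℕ) : ℚ :=
  ((x : ℚ) + 1) * ((Q.κ + 1) * W Q) + ∑ y ∈ range x, (Q.vt c y : ℚ)

private theorem bd_nonneg (c x : ℕ) : 0 ≤ bd Q c x := by
  unfold bd
  have h1 := W_nonneg Q
  have h2 : (0 : ℚ) ≤ ∑ y ∈ range x, (Q.vt c y : ℚ) :=
    Finset.sum_nonneg fun y _ => Nat.cast_nonneg _
  positivity

private theorem lc_bd (c₀ : ℕ) (hc₀ : c₀ ≤ Q.D) (w : ℕ → ℚ) (hw : Q.Near c₀ w) (c : ℕ)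
    (hc : c ≤ Q.D) (x : ℕ) : |Q.lc c x w| ≤ bd Q c x := by
  unfold Pm.lc bd
  refine le_trans (abs_add_le _ _) ?_
  have h2 : (0 : ℚ) ≤ ∑ y ∈ range x, (Q.vt c y : ℚ) :=
    Finset.sum_nonneg fun y _ => Nat.cast_nonneg _
  have hx : (0 : ℚ) ≤ (x : ℚ) + 1 := by positivity
  rw [abs_of_nonneg h2, abs_mul, abs_neg, abs_of_nonneg hx]
  have h3 := mul_le_mul_of_nonneg_left (om_bd Q c₀ hc₀ w hw c hc) hx
  linarith

end KbN

open KbN in
theorem tKb : StmtKb := by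
  intro Q _
  refine ⟨1 + ∑ c ∈ range (Q.D + 1), ∑ x ∈ range (Q.b c), bd Q c x, ?_, ?_⟩
  · have h : (0 : ℚ) ≤ ∑ c ∈ range (Q.D + 1), ∑ x ∈ range (Q.b c), bd Q c x :=
      Finset.sum_nonneg fun c _ => Finset.sum_nonneg fun x _ => bd_nonneg Q c x
    linarith
  · intro c₀ hc₀ w hw c hc x hx
    have h1 := lc_bd Q c₀ hc₀ w hw c hc x
    have h2 : bd Q c x ≤ ∑ x ∈ range (Q.b c), bd Q c x :=
      Finset.single_le_sum (f := fun x => bd Q c x) (fun x _ => bd_nonneg Q c x)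
        (mem_range.mpr hx)
    have h3 : ∑ x ∈ range (Q.b c), bd Q c x ≤
        ∑ c ∈ range (Q.D + 1), ∑ x ∈ range (Q.b c), bd Q c x :=
      Finset.single_le_sum (f := fun c => ∑ x ∈ range (Q.b c), bd Q c x)
        (fun c _ => Finset.sum_nonneg fun x _ => bd_nonneg Q c x)
        (mem_range.mpr (by omega))
    linarith

end Pool.Agent.Lib.MP_4e7804_co.Av
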