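import Pool.Agent.Lib.MP_4e7804_co.Av.SpecU

/-!
# MP_4e7804_co, `V_n(v)` for every `v`: simple common points of `d` tropical hypersurfaces (`LemM`)
-/

set_option autoImplicit false

open Finset

namespace Pool.Agent.Lib.MP_4e7804_co.Av

namespace LemMN

/-- dual basis of a regular system -/
private theorem dual {d : ℕ} (E : Fin d → Fin d → ℝ)
    (hE : ∀ w : Fin d → ℝ, (∀ k, E k ⬝ᵥ w = 0) → w = 0) :
    ∃ D : Fin d → Fin d → ℝ, (∀ k, D k ≠ 0) ∧
      ∀ l y : Fin d → ℝ, l ⬝ᵥ y = ∑ k, (D k ⬝ᵥ l) * (E k ⬝ᵥ y) := by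
  classical
  obtain ⟨T, hT⟩ : ∃ T : (Fin d → ℝ) →ₗ[ℝ] (Fin d → ℝ), ∀ w k, T w k = E k ⬝ᵥ w :=
    ⟨(Matrix.of E).mulVecLin, fun w k => by
      rw [Matrix.mulVecLin_apply]
      rfl⟩
  have hinj : Function.Injective T := by
    rw [injective_iff_map_eq_zero]
    intro w hw
    apply hE
    intro k
    rw [← hT, hw]
    rfl
  have hsur : Function.Surjective T := LinearMap.injective_iff_surjective.1 hinj
  have h1 : ∀ k : Fin d, ∃ w, T w = Pi.single k 1 := fun k => hsur _
  choose D hD using h1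
  have h2 : ∀ k k', E k' ⬝ᵥ D k = if k' = k then 1 else 0 := by
    intro k k'
    rw [← hT, hD, Pi.single_apply]
  refine ⟨D, ?_, ?_⟩
  · intro k h0
    have h3 := h2 k k
    rw [h0, if_pos rfl, dotProduct_zero] at h3
    exact one_ne_zero h3.symm
  · intro l y
    have h3 : y = ∑ k, (E k ⬝ᵥ y) • D k := by
      rw [← sub_eq_zero]
      apply hE
      intro k'
      rw [dotProduct_sub, dotProduct_sum, sub_eq_zero]
      simp only [dotProduct_smul, h2, smul_eq_mul, mul_ite, mul_one, mul_zero]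
      rw [Finset.sum_ite_eq univ k', if_pos (mem_univ _)]
    calc l ⬝ᵥ y = l ⬝ᵥ ∑ k, (E k ⬝ᵥ y) • D k := by rw [← h3]
      _ = ∑ k, (D k ⬝ᵥ l) * (E k ⬝ᵥ y) := by
        rw [dotProduct_sum]
        refine sum_congr rfl fun k _ => ?_
        rw [dotProduct_smul, smul_eq_mul, dotProduct_comm l (D k), mul_comm]

/-- a function with zero line sums which vanishes outside of the coordinate hyperplanes -/
private theorem vanish {d : ℕ} {Λ : Type} [DecidableEq Λ] (O : Fin d → Finset Λ) (b : Fin d → Λ)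
    (hb : ∀ k, b k ∈ O k) (F : (Fin d → Λ) → ℝ)
    (h1 : ∀ x k, ∑ o ∈ O k, F (Function.update x k o) = 0)
    (h2 : ∀ x, (∀ k, x k ∈ O k) → (∀ k, x k ≠ b k) → F x = 0) :
    ∀ x, (∀ k, x k ∈ O k) → F x = 0 := by
  have key : ∀ T : Finset (Fin d), ∀ x, (∀ k, x k ∈ O k) → (∀ k, k ∉ T → x k ≠ b k) →
      F x = 0 := by
    intro T
    induction T using Finset.induction_on with
    | empty => exact fun x hx hxb => h2 x hx fun k => hxb k (by simp)
    | insert k T hk ih =>
      intro x hx hxb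
      by_cases hxk : x k = b k
      · have h3 := h1 x k
        rw [← Finset.add_sum_erase _ _ (hb k)] at h3
        rw [Finset.sum_eq_zero, add_zero, ← hxk, Function.update_eq_self] at h3
        · exact h3
        · intro o ho
          rw [mem_erase] at ho
          apply ih
          · intro k'
            by_cases hk' : k' = k
            · subst hk'
              rw [Function.update_self]
              exact ho.2
            · rw [Function.update_of_ne hk']
              exact hx k'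
          · intro k' hk'T
            by_cases hk' : k' = k
            · subst hk'
              rw [Function.update_self]
              exact ho.1
            · rw [Function.update_of_ne hk']
              exact hxb k' (by simp [hk', hk'T])
      · apply ih x hx
        intro k' hk'T
        by_cases hk' : k' = k
        · subst hk'
          exact hxk
        · exact hxb k' (by simp [hk', hk'T])
  intro x hx
  exact key univ x hx fun k hk => absurd (mem_univ k) hk

/-- the sign vector of a pair -/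
private noncomputable def sg {Λ : Type} [DecidableEq Λ] (p p' o : Λ) : ℝ :=
  (if o = p then 1 else 0) - (if o = p' then 1 else 0)

private theorem sum_sg {Λ : Type} [DecidableEq Λ] {p p' : Λ} (O : Finset Λ) (hp : p ∈ O)
    (hp' : p' ∈ O) : ∑ o ∈ O, sg p p' o = 0 := by
  unfold sg
  rw [sum_sub_distrib, Finset.sum_ite_eq', Finset.sum_ite_eq', if_pos hp, if_pos hp', sub_self]

private theorem sg_ne_zero {Λ : Type} [DecidableEq Λ] {p p' o : Λ} (h : sg p p' o ≠ 0) :
    o = p ∨ o = p' := by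
  by_contra hc
  push Not at hc
  apply h
  unfold sg
  rw [if_neg hc.1, if_neg hc.2, sub_self]

private theorem sg_of_mem {Λ : Type} [DecidableEq Λ] {p p' o : Λ} (hpp : p ≠ p')
    (h : o = p ∨ o = p') : sg p p' o ≠ 0 := by
  unfold sg
  rcases h with rfl | rfl
  · rw [if_pos rfl, if_neg hpp]
    norm_num
  · rw [if_pos rfl, if_neg hpp.symm]
    norm_num

/-- the products have zero line sums -/
private theorem line {d : ℕ} {Λ : Type} [DecidableEq Λ] (s : Fin d → Λ → ℝ) (O : Finset Λ)
    (k : Fin d) (hs : ∑ o ∈ O, s k o = 0) (x : Fin d → Λ) :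
    ∑ o ∈ O, ∏ k', s k' (Function.update x k o k') = 0 := by
  have h1 : ∀ o ∈ O, ∏ k', s k' (Function.update x k o k') =
      s k o * ∏ k' ∈ univ.erase k, s k' (x k') := by
    intro o _
    rw [← Finset.mul_prod_erase univ _ (mem_univ k), Function.update_self]
    congr 1
    refine prod_congr rfl fun k' hk' => ?_
    rw [Function.update_of_ne (ne_of_mem_erase hk')]
  rw [sum_congr rfl h1, ← sum_mul, hs, zero_mul]

end LemMN

open LemMN in
theorem tLemM (hMom : Gp.StmtMom) : StmtLemM := by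
  classical
  intro d Λ O f e U q hq hreg
  rcases U.eq_empty_or_nonempty with rfl | ⟨u₁, hu₁⟩
  · simp
  have h1 : ∀ (u : ↥U) (k : Fin d), ∃ p p' : Λ, p ≠ p' ∧ q u k = {p, p'} := by
    intro u k
    exact card_eq_two.1 (hq u u.2 k).2.1
  choose p p' hpp hqp using h1
  have hmem : ∀ (u : ↥U) k o, o ∈ q u k ↔ o = p u k ∨ o = p' u k := by
    intro u k o
    rw [hqp]
    simp
  -- the differences
  obtain ⟨E, hE⟩ : ∃ E : ↥U → Fin d → Fin d → ℝ, ∀ u k, E u k = f k (p u k) - f k (p' u k) :=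
    ⟨fun u k => f k (p u k) - f k (p' u k), fun _ _ => rfl⟩
  have hEreg : ∀ (u : ↥U) (w : Fin d → ℝ), (∀ k, E u k ⬝ᵥ w = 0) → w = 0 := by
    intro u w hw
    apply hreg u u.2 w
    have h2 : ∀ k, f k (p u k) ⬝ᵥ w = f k (p' u k) ⬝ᵥ w := by
      intro k
      have := hw k
      rw [hE, sub_dotProduct] at this
      linarith
    intro k o ho o' ho'
    rcases (hmem u k o).1 ho with rfl | rfl <;> rcases (hmem u k o').1 ho' with rfl | rfl
    · rfl
    · exact h2 k
    · exact (h2 k).symm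
    · rfl
  have h2 := fun u => dual (E u) (hEreg u)
  choose D hD0 hDl using h2
  obtain ⟨t, -, ht⟩ := hMom d ((univ : Finset (↥U × Fin d)).image fun x => D x.1 x.2) (by
    intro w hw
    rw [mem_image] at hw
    obtain ⟨x, -, rfl⟩ := hw
    exact hD0 x.1 x.2)
  obtain ⟨l, hl⟩ : ∃ l : Fin d → ℝ, ∀ u k, D u k ⬝ᵥ l ≠ 0 := by
    refine ⟨fun k => (t : ℝ) ^ (k : ℕ), fun u k => ?_⟩
    exact ht (D u k) (mem_image.2 ⟨(u, k), mem_univ _, rfl⟩)
  -- the label with the sign
  obtain ⟨L, hL⟩ : ∃ L : ↥U → Fin d → Λ, ∀ u k,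
      L u k = if D u k ⬝ᵥ l < 0 then p u k else p' u k :=
    ⟨fun u k => if D u k ⬝ᵥ l < 0 then p u k else p' u k, fun _ _ => rfl⟩
  have hLm : ∀ u k, L u k = p u k ∨ L u k = p' u k := by
    intro u k
    rw [hL]
    split_ifs
    · exact Or.inl rfl
    · exact Or.inr rfl
  have hLO : ∀ u k, L u k ∈ O k := fun u k =>
    (hq u u.2 k).1 ((hmem u k _).2 (hLm u k))
  -- step 1
  have step1 : ∀ (u v : ↥U), (∀ k, L u k ∈ q v k) → u ≠ v →
      l ⬝ᵥ (u : Fin d → ℝ) < l ⬝ᵥ (v : Fin d → ℝ) := by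
    intro u v huv hne
    have h3 : ∀ k, E u k ⬝ᵥ ((v : Fin d → ℝ) - u) =
        (f k (p u k) ⬝ᵥ (v : Fin d → ℝ) + e k (p u k)) -
          (f k (p' u k) ⬝ᵥ (v : Fin d → ℝ) + e k (p' u k)) := by
      intro k
      have h4 := (hq u u.2 k).2.2.1 (p u k) ((hmem u k _).2 (Or.inl rfl)) (p' u k)
        ((hq u u.2 k).1 ((hmem u k _).2 (Or.inr rfl)))
      have h5 := (hq u u.2 k).2.2.1 (p' u k) ((hmem u k _).2 (Or.inr rfl)) (p u k)
        ((hq u u.2 k).1 ((hmem u k _).2 (Or.inl rfl)))
      rw [hE, dotProduct_sub, sub_dotProduct, sub_dotProduct]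
      linarith
    have h6 : ∀ k, 0 ≤ (D u k ⬝ᵥ l) * (E u k ⬝ᵥ ((v : Fin d → ℝ) - u)) := by
      intro k
      rw [h3]
      by_cases hc : D u k ⬝ᵥ l < 0
      · apply mul_nonneg_of_nonpos_of_nonpos hc.le
        have h7 : L u k = p u k := by rw [hL, if_pos hc]
        have h8 := (hq v v.2 k).2.2.1 (L u k) (huv k) (p' u k)
          ((hq u u.2 k).1 ((hmem u k _).2 (Or.inr rfl)))
        rw [h7] at h8
        linarith
      · apply mul_nonneg (not_lt.1 hc)
        have h7 : L u k = p' u k := by rw [hL, if_neg hc]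
        have h8 := (hq v v.2 k).2.2.1 (L u k) (huv k) (p u k)
          ((hq u u.2 k).1 ((hmem u k _).2 (Or.inl rfl)))
        rw [h7] at h8
        linarith
    have h9 : 0 ≤ l ⬝ᵥ ((v : Fin d → ℝ) - u) := by
      rw [hDl u]
      exact sum_nonneg fun k _ => h6 k
    rcases h9.lt_or_eq with h10 | h10
    · rw [dotProduct_sub] at h10
      linarith
    · exfalso
      rw [hDl u] at h10
      have h11 := (sum_eq_zero_iff_of_nonneg fun k _ => h6 k).1 h10.symm
      have h12 : (v : Fin d → ℝ) - u = 0 := by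
        apply hEreg u
        intro k
        rcases mul_eq_zero.1 (h11 k (mem_univ k)) with h13 | h13
        · exact absurd h13 (hl u k)
        · exact h13
      apply hne
      exact (Subtype.ext (sub_eq_zero.1 h12)).symm
  -- the functions
  obtain ⟨b, hb⟩ : ∃ b : Fin d → Λ, ∀ k, b k ∈ O k := ⟨L ⟨u₁, hu₁⟩, hLO _⟩
  obtain ⟨m, hm⟩ : ∃ m : ↥U → (Fin d → Λ) → ℝ, ∀ u x, m u x = ∏ k, sg (p u k) (p' u k) (x k) :=
    ⟨fun u x => ∏ k, sg (p u k) (p' u k) (x k), fun _ _ => rfl⟩
  have hlin : LinearIndependent ℝ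
      fun (u : ↥U) (x : ↥(Fintype.piFinset fun k => (O k).erase (b k))) => m u x := by
    rw [Fintype.linearIndependent_iff]
    intro g hg
    by_contra hne
    push Not at hne
    obtain ⟨v, hv⟩ := hne
    obtain ⟨u₀, hu₀, hmax⟩ := exists_max_image ((univ : Finset ↥U).filter fun u => g u ≠ 0)
      (fun u => l ⬝ᵥ (u : Fin d → ℝ)) ⟨v, by simpa using hv⟩
    have hu₀' : g u₀ ≠ 0 := (mem_filter.1 hu₀).2
    have hz := vanish O b hb (fun x => ∑ u, g u * m u x) (by
      intro x k
      rw [sum_comm]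
      refine sum_eq_zero fun u _ => ?_
      rw [← mul_sum]
      simp only [hm]
      rw [line (fun k => sg (p u k) (p' u k)) (O k) k, mul_zero]
      exact sum_sg _ ((hq u u.2 k).1 ((hmem u k _).2 (Or.inl rfl)))
        ((hq u u.2 k).1 ((hmem u k _).2 (Or.inr rfl)))) (by
      intro x hxO hxb
      have h3 := congrFun hg ⟨x, by
        rw [Fintype.mem_piFinset]
        exact fun k => mem_erase.2 ⟨hxb k, hxO k⟩⟩
      simpa [Finset.sum_apply] using h3) (L u₀) (hLO u₀)
    have h4 : ∃ u ∈ (univ : Finset ↥U).erase u₀, g u * m u (L u₀) ≠ 0 := by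
      apply exists_ne_zero_of_sum_ne_zero
      intro h5
      have h6 := add_sum_erase univ (fun u => g u * m u (L u₀)) (mem_univ u₀)
      rw [h5, add_zero] at h6
      have h7 : g u₀ * m u₀ (L u₀) = 0 := h6.trans hz
      rcases mul_eq_zero.1 h7 with h8 | h8
      · exact hu₀' h8
      · rw [hm] at h8
        obtain ⟨k, -, hk⟩ := prod_eq_zero_iff.1 h8
        exact sg_of_mem (hpp u₀ k) (hLm u₀ k) hk
    obtain ⟨u, hu, hgu⟩ := h4
    have h5 : g u ≠ 0 := fun h => hgu (by rw [h, zero_mul])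
    have h6 : m u (L u₀) ≠ 0 := fun h => hgu (by rw [h, mul_zero])
    rw [hm] at h6
    have h7 : ∀ k, L u₀ k ∈ q u k := by
      intro k
      rw [hmem]
      exact sg_ne_zero (prod_ne_zero_iff.1 h6 k (mem_univ k))
    have h8 := step1 u₀ u h7 (ne_of_mem_erase hu).symm
    have h9 := hmax u (mem_filter.2 ⟨mem_univ _, h5⟩)
    linarith
  have hfin := hlin.fintype_card_le_finrank
  rw [Module.finrank_fintype_fun_eq_card, Fintype.card_coe, Fintype.card_coe,
    Fintype.card_piFinset] at hfin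
  refine hfin.trans (le_of_eq (prod_congr rfl fun k _ => ?_))
  rw [card_erase_of_mem (hb k)]

end Pool.Agent.Lib.MP_4e7804_co.Av
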