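import Pool.Agent.Lib.MP_4e7804_co.Av.SpecL
import Pool.Agent.Lib.MP_4e7804_co.Pg.PermP

/-! MP_4e7804_co, module Av/Low: the lower bound if at least two entries are `1`. -/

set_option autoImplicit false

open Finset

namespace Pool.Agent.Lib.MP_4e7804_co.Av

namespace LowN

private theorem fin3 : ∀ a : Fin 3, ∃ m i : Fin 3, m ≠ a ∧ i ≠ a ∧ i ≠ m ∧
    ∀ j, j ≠ m → j ≠ i → j = a := by decide

private theorem exists_ne_fin {d : ℕ} (hd : 2 ≤ d) (a : Fin (d + 1)) : ∃ i, i ≠ a := by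
  by_contra h
  push Not at h
  have h0 := h 0
  have h1 := h (Fin.last d)
  rw [← h1] at h0
  have := congrArg Fin.val h0
  simp only [Fin.val_zero, Fin.val_last] at this
  omega

/-- all `v i`, `i ≠ a`, are `1` -/
private theorem flat (hLower : Tl.StmtLower) {d : ℕ} (hd : 2 ≤ d) (v : Fin (d + 1) → ℕ)
    (a : Fin (d + 1)) (hv : ∀ i, 1 ≤ v i) (h1 : ∀ i, i ≠ a → v i = 1) :
    ∃ N, IsVertexNumber v N ∧ v a ≤ N := by
  classical
  rcases Nat.lt_or_ge 2 d with h3 | h3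
  · obtain ⟨i, hi⟩ := exists_ne_fin hd a
    obtain ⟨N, hN, hle⟩ := hLower d v a i h3 (Ne.symm hi) (hv a) (hv i) (fun l hl _ => h1 l hl)
    refine ⟨N, hN, le_trans ?_ hle⟩
    have h4 : (v a).choose 1 * (v i).choose 1 ≤
        ∑ k ∈ range d, (v a).choose k * (v i).choose k :=
      Finset.single_le_sum (f := fun k => (v a).choose k * (v i).choose k)
        (fun _ _ => Nat.zero_le _) (Finset.mem_range.mpr (by omega))
    rw [h1 i hi, Nat.choose_one_right, Nat.choose_one_right, mul_one] at h4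
    rw [h1 i hi]
    exact h4
  · obtain rfl : d = 2 := le_antisymm h3 hd
    obtain ⟨m, i, hma, hia, him, hj⟩ := fin3 a
    obtain ⟨N, hN, hle⟩ := lower_special (le_refl 2) v hv m
    refine ⟨N, hN, le_trans ?_ hle⟩
    have h5 : (∏ j ∈ univ.filter (fun j => j ≠ m ∧ j ≠ i), (v j - 1) + 1) = v a := by
      have h6 : univ.filter (fun j : Fin (2 + 1) => j ≠ m ∧ j ≠ i) = {a} := by
        ext j
        simp only [Finset.mem_filter, Finset.mem_univ, true_and, Finset.mem_singleton]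
        constructor
        · intro h
          exact hj j h.1 h.2
        · rintro rfl
          exact ⟨Ne.symm hma, Ne.symm hia⟩
      rw [h6, Finset.prod_singleton]
      have := hv a
      omega
    have h7 := Finset.dvd_prod_of_mem
      (fun i : Fin (2 + 1) => ∏ j ∈ univ.filter (fun j => j ≠ m ∧ j ≠ i), (v j - 1) + 1)
      (s := univ.filter (· ≠ m)) (a := i) (by simp [him])
    have h8 : 0 < ∏ i ∈ univ.filter (· ≠ m),
        (∏ j ∈ univ.filter (fun j => j ≠ m ∧ j ≠ i), (v j - 1) + 1) :=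
      Finset.prod_pos fun i _ => Nat.succ_pos _
    exact le_of_eq_of_le h5.symm (Nat.le_of_dvd h8 h7)

end LowN

theorem tLow (hLowC : StmtLowC) (hSrt : StmtSrt) (hPerm : Tl.StmtPerm)
    (hLower : Tl.StmtLower) : StmtLow := by
  classical
  intro d hd
  have hLC : ∀ κ μ : ℕ, ∃ C : ℕ, 1 ≤ κ → 1 ≤ μ → ∀ (b : ℕ) (v : ℕ → ℕ),
      (∀ i < κ, 2 ≤ v i ∧ v i ≤ v 0) → v 0 ≤ b → ∃ N', IsVertexNumber (vecC κ μ b v) N' ∧
        b ^ min (κ + μ) (∏ i ∈ range κ, v i) * (∏ i ∈ range κ, v i) ^ (κ + μ) ≤ C * N' := by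
    intro κ μ
    by_cases h : 1 ≤ κ ∧ 1 ≤ μ
    · obtain ⟨C, hC⟩ := hLowC κ μ h.1 h.2
      exact ⟨C, fun _ _ => hC⟩
    · exact ⟨0, fun h1 h2 => absurd ⟨h1, h2⟩ h⟩
  choose CC hCC using hLC
  refine ⟨1 + ∑ κ ∈ range (d + 1), ∑ μ ∈ range (d + 1), CC κ μ, fun v a hv ha hzz => ?_⟩
  by_cases hE : ∀ i, i ≠ a → v i = 1
  · obtain ⟨N, hN, hle⟩ := LowN.flat hLower hd v a hv hE
    refine ⟨N, hN, ?_⟩
    have h1 : ∏ i ∈ univ.erase a, v i = 1 :=
      Finset.prod_eq_one fun i hi => hE i (Finset.ne_of_mem_erase hi)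
    rw [h1, one_pow, mul_one, min_eq_right (by omega : 1 ≤ d - 1), pow_one]
    calc v a ≤ N := hle
      _ = 1 * N := (one_mul N).symm
      _ ≤ (1 + ∑ κ ∈ range (d + 1), ∑ μ ∈ range (d + 1), CC κ μ) * N :=
        Nat.mul_le_mul_right _ (Nat.le_add_right _ _)
  · push Not at hE
    obtain ⟨i, hia, hi1⟩ := hE
    have hi2 : 2 ≤ v i := by
      have := hv i
      omega
    obtain ⟨κ, μ, v', hdd, σ, h1, h2, h3, h4, h5, h6⟩ := hSrt d v a hv ha ⟨i, hia, hi2⟩ hzz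
    subst hdd
    obtain ⟨N, hN, hle⟩ := hCC κ μ h1 h2 (v a) v' h3 h4
    refine ⟨N, ?_, ?_⟩
    · have h7 : v = vecC κ μ (v a) v' ∘ σ := by
        funext i
        exact h5 i
      have h8 := hPerm _ _ σ N hN
      rw [← h7] at h8
      exact h8
    · rw [h6, show κ + μ + 1 - 1 = κ + μ from rfl]
      refine le_trans hle (Nat.mul_le_mul_right _ ?_)
      have h9 : CC κ μ ≤ ∑ μ' ∈ range (κ + μ + 1 + 1), CC κ μ' :=
        Finset.single_le_sum (f := fun μ' => CC κ μ') (fun _ _ => Nat.zero_le _)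
          (Finset.mem_range.mpr (by omega))
      have h10 : ∑ μ' ∈ range (κ + μ + 1 + 1), CC κ μ' ≤
          ∑ κ' ∈ range (κ + μ + 1 + 1), ∑ μ' ∈ range (κ + μ + 1 + 1), CC κ' μ' :=
        Finset.single_le_sum
          (f := fun κ' => ∑ μ' ∈ range (κ + μ + 1 + 1), CC κ' μ') (fun _ _ => Nat.zero_le _)
          (Finset.mem_range.mpr (by omega))
      omega

end Pool.Agent.Lib.MP_4e7804_co.Av
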