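import Pool.Agent.Lib.MP_4e7804_co.Av.SpecL
import Pool.Agent.Lib.MP_4e7804_co.Pg.PermP

/-!
# MP_4e7804_co, Av: the lower bound for sorted vectors
-/

set_option autoImplicit false

open Finset

namespace Pool.Agent.Lib.MP_4e7804_co.Av

namespace LowCN

private theorem vec_pos {κ μ b : ℕ} {v : ℕ → ℕ} (hb : 1 ≤ b) (hv : ∀ i < κ, 1 ≤ v i)
    (m : Fin (κ + μ + 1 + 1)) : 1 ≤ vecC κ μ b v m := by
  unfold vecC
  refine Fin.cases ?_ (fun l => ?_) m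
  · rw [Fin.cons_zero]
    exact hb
  · rw [Fin.cons_succ]
    split_ifs with h
    · exact hv _ h
    · exact le_rfl

private theorem pow_le {b c r D : ℕ} (hb : b ≤ c) (hc : 1 ≤ c) (hr : r ≤ D) : b ^ r ≤ c ^ D :=
  (Nat.pow_le_pow_left hb r).trans (Nat.pow_le_pow_right hc hr)

private theorem prod_le {κ c : ℕ} {v : ℕ → ℕ} (hv : ∀ i < κ, v i ≤ c) :
    ∏ i ∈ range κ, v i ≤ c ^ κ := by
  have h := Finset.prod_le_pow_card (range κ) v c (fun i hi => hv i (mem_range.1 hi))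
  rwa [card_range] at h

/-- the number of vertices in a family is large -/
private theorem fam {D b : ℕ} (hD : 1 ≤ D) (hb : 4 * D ≤ b) :
    b ≤ 2 * D * ((b - 1) / D - 1) := by
  have h1 := Nat.div_add_mod (b - 1) D
  have h2 := Nat.mod_lt (b - 1) (show 0 < D by omega)
  obtain ⟨q, hq⟩ : ∃ q, (b - 1) / D = q := ⟨_, rfl⟩
  rw [hq] at h1 ⊢
  have h3 : 1 ≤ q := by
    by_contra hcon
    have : q = 0 := by omega
    rw [this] at h1
    omega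
  obtain ⟨X, rfl⟩ : ∃ X, q = X + 1 := ⟨q - 1, by omega⟩
  rw [Nat.add_sub_cancel]
  have h4 : D * (X + 1) = D * X + D := by ring
  have h5 : 2 * D * X = 2 * (D * X) := by ring
  omega

private theorem fam2 {r D b : ℕ} (hr : 1 ≤ r) (hrD : r ≤ D) (hb : 4 * D ≤ b) :
    b ≤ 2 * r * ((b - 1) / r) := by
  have h1 := Nat.div_add_mod (b - 1) r
  have h2 := Nat.mod_lt (b - 1) (show 0 < r by omega)
  have h5 : 2 * r * ((b - 1) / r) = 2 * (r * ((b - 1) / r)) := by ring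
  omega

private theorem first {μ v : ℕ} (hv : μ + 2 ≤ v) : v ≤ 4 * (μ + 1) * ((v - 1) / (μ + 1)) := by
  have h1 := Nat.div_add_mod (v - 1) (μ + 1)
  have h2 := Nat.mod_lt (v - 1) (show 0 < μ + 1 by omega)
  obtain ⟨q, hq⟩ : ∃ q, (v - 1) / (μ + 1) = q := ⟨_, rfl⟩
  rw [hq] at h1 ⊢
  have h3 : 1 ≤ q := by
    by_contra hcon
    have : q = 0 := by omega
    rw [this] at h1
    omega
  have h4 : (μ + 1) * 1 ≤ (μ + 1) * q := Nat.mul_le_mul_left _ h3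
  have h5 : 4 * (μ + 1) * q = 4 * ((μ + 1) * q) := by ring
  omega

private theorem prodY {κ : ℕ} {v : ℕ → ℕ} (hv : ∀ i < κ, 2 ≤ v i) :
    ∏ i ∈ Ico 1 κ, v i ≤ 2 ^ κ * ∏ i ∈ Ico 1 κ, (v i - 1) := by
  calc ∏ i ∈ Ico 1 κ, v i ≤ ∏ i ∈ Ico 1 κ, (2 * (v i - 1)) := by
        refine Finset.prod_le_prod' fun i hi => ?_
        have := hv i (mem_Ico.1 hi).2
        omega
    _ = 2 ^ (κ - 1) * ∏ i ∈ Ico 1 κ, (v i - 1) := by
        rw [Finset.prod_mul_distrib, Finset.prod_const, Nat.card_Ico]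
    _ ≤ 2 ^ κ * ∏ i ∈ Ico 1 κ, (v i - 1) :=
        Nat.mul_le_mul_right _ (Nat.pow_le_pow_right (by norm_num) (by omega))

end LowCN

open LowCN in
theorem tLowC (hCA : StmtCA) (hCB : StmtCB) : StmtLowC := by
  intro κ μ hκ hμ
  obtain ⟨C1, hC1⟩ : ∃ C, C = (4 * (κ + μ)) ^ (κ + μ) * ((4 * (κ + μ)) ^ κ) ^ (κ + μ) := ⟨_, rfl⟩
  obtain ⟨C2, hC2⟩ : ∃ C, C = (2 * (κ + μ) * (4 * (μ + 1) * 2 ^ κ)) ^ (κ + μ) := ⟨_, rfl⟩
  obtain ⟨C3, hC3⟩ : ∃ C, C = (2 * (κ + μ)) ^ (κ + μ) * ((μ + 1) ^ κ) ^ (κ + μ) := ⟨_, rfl⟩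
  refine ⟨C1 + C2 + C3, fun b v hv hb => ?_⟩
  have hv2 : ∀ i < κ, 2 ≤ v i := fun i hi => (hv i hi).1
  have hv0 : 2 ≤ v 0 := hv2 0 (by omega)
  have hE1 : 1 ≤ ∏ i ∈ range κ, v i :=
    Nat.one_le_iff_ne_zero.2 (Finset.prod_ne_zero_iff.2 fun i hi => by
      have := hv2 i (mem_range.1 hi)
      omega)
  have hrD : min (κ + μ) (∏ i ∈ range κ, v i) ≤ κ + μ := min_le_left _ _
  have hr1 : 1 ≤ min (κ + μ) (∏ i ∈ range κ, v i) := le_min (by omega) hE1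
  by_cases hb4 : 4 * (κ + μ) ≤ b
  · by_cases hv0' : μ + 2 ≤ v 0
    · obtain ⟨N', hN, hN'⟩ := hCA κ μ b v hκ hv2 hv0' (by omega)
      refine ⟨N', hN, ?_⟩
      have h1 := fam (show 1 ≤ κ + μ by omega) hb4
      have h2 := first hv0'
      have h3 := prodY hv2
      obtain ⟨X, hX⟩ : ∃ X, (b - 1) / (κ + μ) - 1 = X := ⟨_, rfl⟩
      obtain ⟨Y0, hY0⟩ : ∃ Y, (v 0 - 1) / (μ + 1) = Y := ⟨_, rfl⟩
      obtain ⟨Y1, hY1⟩ : ∃ Y, ∏ i ∈ Ico 1 κ, (v i - 1) = Y := ⟨_, rfl⟩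
      rw [hX, hY0, hY1] at hN'
      rw [hX] at h1
      rw [hY0] at h2
      rw [hY1] at h3
      have hE : ∏ i ∈ range κ, v i ≤ 4 * (μ + 1) * 2 ^ κ * (Y0 * Y1) := by
        rw [Finset.range_eq_Ico, Finset.prod_eq_prod_Ico_succ_bot (show 0 < κ by omega)]
        calc v 0 * ∏ i ∈ Ico (0 + 1) κ, v i ≤ (4 * (μ + 1) * Y0) * (2 ^ κ * Y1) :=
              Nat.mul_le_mul h2 h3
          _ = 4 * (μ + 1) * 2 ^ κ * (Y0 * Y1) := by ring
      calc b ^ min (κ + μ) (∏ i ∈ range κ, v i) * (∏ i ∈ range κ, v i) ^ (κ + μ)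
          ≤ b ^ (κ + μ) * (4 * (μ + 1) * 2 ^ κ * (Y0 * Y1)) ^ (κ + μ) :=
            Nat.mul_le_mul (Nat.pow_le_pow_right (by omega) hrD) (Nat.pow_le_pow_left hE _)
        _ ≤ (2 * (κ + μ) * X) ^ (κ + μ) * (4 * (μ + 1) * 2 ^ κ * (Y0 * Y1)) ^ (κ + μ) :=
            Nat.mul_le_mul_right _ (Nat.pow_le_pow_left h1 _)
        _ = C2 * (X * (Y0 * Y1)) ^ (κ + μ) := by
            rw [hC2, ← mul_pow, ← mul_pow]
            congr 1
            ring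
        _ ≤ C2 * N' := Nat.mul_le_mul_left _ hN'
        _ ≤ (C1 + C2 + C3) * N' := Nat.mul_le_mul_right _ (by omega)
    · obtain ⟨N', hN, hN'⟩ := hCB κ μ b v hκ hv2 (by omega)
      refine ⟨N', hN, ?_⟩
      have h1 := fam2 hr1 hrD hb4
      obtain ⟨r, hr⟩ : ∃ r, min (κ + μ) (∏ i ∈ range κ, v i) = r := ⟨_, rfl⟩
      rw [hr] at h1 hN' hrD hr1 ⊢
      obtain ⟨q, hq⟩ : ∃ q, (b - 1) / r = q := ⟨_, rfl⟩
      rw [hq] at h1 hN'
      have hE : ∏ i ∈ range κ, v i ≤ (μ + 1) ^ κ :=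
        prod_le fun i hi => by
          have := (hv i hi).2
          omega
      calc b ^ r * (∏ i ∈ range κ, v i) ^ (κ + μ)
          ≤ (2 * r * q) ^ r * ((μ + 1) ^ κ) ^ (κ + μ) :=
            Nat.mul_le_mul (Nat.pow_le_pow_left h1 _) (Nat.pow_le_pow_left hE _)
        _ = (2 * r) ^ r * ((μ + 1) ^ κ) ^ (κ + μ) * q ^ r := by
            rw [mul_pow]
            ring
        _ ≤ C3 * q ^ r := by
            rw [hC3]
            exact Nat.mul_le_mul_right _ (Nat.mul_le_mul_right _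
              (pow_le (by omega) (by omega) hrD))
        _ ≤ C3 * N' := Nat.mul_le_mul_left _ hN'
        _ ≤ (C1 + C2 + C3) * N' := Nat.mul_le_mul_right _ (by omega)
  · push Not at hb4
    obtain ⟨N', hN, hN'⟩ := lower_special (d := κ + μ + 1) (by omega) (vecC κ μ b v)
      (vec_pos (by omega) fun i hi => (by omega : 1 ≤ 2).trans (hv2 i hi)) 0
    have h1 : 1 ≤ N' := by
      refine le_trans ?_ hN'
      exact Nat.one_le_iff_ne_zero.2 (Finset.prod_ne_zero_iff.2 fun i _ => by omega)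
    refine ⟨N', hN, ?_⟩
    have hE : ∏ i ∈ range κ, v i ≤ (4 * (κ + μ)) ^ κ :=
      prod_le fun i hi => by
        have := (hv i hi).2
        omega
    calc b ^ min (κ + μ) (∏ i ∈ range κ, v i) * (∏ i ∈ range κ, v i) ^ (κ + μ)
        ≤ (4 * (κ + μ)) ^ (κ + μ) * ((4 * (κ + μ)) ^ κ) ^ (κ + μ) :=
          Nat.mul_le_mul (pow_le hb4.le (by omega) hrD) (Nat.pow_le_pow_left hE _)
      _ = C1 * 1 := by rw [hC1, mul_one]
      _ ≤ C1 * N' := Nat.mul_le_mul_left _ h1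
      _ ≤ (C1 + C2 + C3) * N' := Nat.mul_le_mul_right _ (by omega)

end Pool.Agent.Lib.MP_4e7804_co.Av
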