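import Pool.Agent.Lib.MP_4e7804_co.Av.SpecL
import Pool.Agent.Lib.MP_4e7804_co.Lo.Hull

/-! MP_4e7804_co: the minimal vertices of the big colour near a place. -/

set_option autoImplicit false

open Finset

namespace Pool.Agent.Lib.MP_4e7804_co.Av

namespace MinBN

variable (Q : Pm)

private theorem lc_succ (c : ℕ) (w : ℕ → ℚ) (x : ℕ) :
    Q.lc c (x + 1) w = Q.lc c x w + ((Q.vt c x : ℚ) - Q.om c w) := by
  simp only [Pm.lc, sum_range_succ]
  push_cast
  ring

private theorem not_mem_fr (hok : Q.Ok) {c : ℕ} (hc : c < Q.D) (hb : 1 ≤ Q.b c) : c ∉ Q.fr c := by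
  intro h
  simp only [Pm.fr, mem_filter, mem_range] at h
  have := hok.g_self c h.1 hb
  omega

private theorem Om_self (hok : Q.Ok) {c : ℕ} (hc : c < Q.D) (hb : 1 ≤ Q.b c) : Q.Om c c = 1 := by
  simp only [Pm.Om, if_true]
  rw [if_neg (not_mem_fr Q hok hc hb), add_zero]

private theorem edge_coord (hok : Q.Ok) (N : ℤ) {c : ℕ} (hc : c < Q.D) (hb : 1 ≤ Q.b c) (x : ℕ) :
    Q.big N c (x + 1) ⟨c, by omega⟩ - Q.big N c x ⟨c, by omega⟩ = -1 := by
  have h1 : c ≠ Q.D := hc.ne
  simp only [Pm.big]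
  rw [if_neg h1, if_neg h1, Om_self Q hok hc hb]
  push_cast
  ring

private theorem frD (hok : Q.Ok) : Q.fr Q.D = range Q.κ := by
  ext i
  simp only [Pm.fr, mem_filter, mem_range]
  exact ⟨fun h => h.1, fun h => ⟨h, hok.gD i h⟩⟩

private theorem mem_bigS (N : ℤ) {c x : ℕ} (hc : c ≤ Q.D) (hx : x < Q.b c) :
    Q.big N c x ∈ Q.bigS N := by
  simp only [Pm.bigS, mem_biUnion, mem_range, mem_image]
  exact ⟨c, by omega, x, hx, rfl⟩

private theorem of_mem_bigS (N : ℤ) {a : Fin (Q.D + 1) → ℤ} (ha : a ∈ Q.bigS N) :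
    ∃ c ≤ Q.D, ∃ x < Q.b c, a = Q.big N c x := by
  simp only [Pm.bigS, mem_biUnion, mem_range, mem_image] at ha
  obtain ⟨c, hc, x, hx, rfl⟩ := ha
  exact ⟨c, by omega, x, hx, rfl⟩

end MinBN

open MinBN in
theorem tMinB (hDt : StmtDt) (hTh : StmtTh) (hGap : StmtGap) (hLab : Tl.StmtLab) : StmtMinB := by
  intro Q K N hok hKB hKN c hc hbc w hnear
  obtain ⟨hK0, hKB⟩ := hKB
  have hN0 : 0 ≤ N := by
    have h1 : (0 : ℚ) < N := by linarith
    have h2 : (0 : ℤ) < N := by exact_mod_cast h1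
    exact h2.le
  obtain ⟨hval, -, -⟩ := hDt Q N w hnear.1
  obtain ⟨hTD, hgap⟩ := hGap Q hok N hN0 w
  have hvt : StrictMono (Q.vt c) := (hTh Q hok).2 c
  have hsets : Q.conf N 0 = convexHull ℝ (toReal '' (Q.bigS N : Set (Fin (Q.D + 1) → ℤ))) := rfl
  have hfar : ∀ x < Q.b c, ∀ c' ≤ Q.D, c' ≠ c → ∀ x' < Q.b c',
      dot (Q.wv w) (Q.big N c x) < dot (Q.wv w) (Q.big N c' x') := by
    intro x hx c' hc' hne x' hx'
    rw [hval c hc x, hval c' hc' x']
    have h1 := hgap c hc c' hc' (Ne.symm hne) hbc (by omega) hnear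
    have h2 := (abs_lt.1 (hKB c hc w hnear c hc x hx)).2
    have h3 := (abs_lt.1 (hKB c hc w hnear c' hc' x' hx')).1
    linarith
  obtain ⟨-, hL2, hL3, -⟩ := hLab (fun i => ((Q.vt c i : ℕ) : ℝ))
    (fun x => ((Q.lc c x w : ℚ) : ℝ)) ((Q.om c w : ℚ) : ℝ)
    (fun i j hij => Nat.cast_lt.2 (hvt hij)) (fun x => by
      simp only [lc_succ]
      push_cast
      ring)
  have hin : ∀ x x', Q.lc c x w < Q.lc c x' w →
      dot (Q.wv w) (Q.big N c x) < dot (Q.wv w) (Q.big N c x') := by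
    intro x x' h
    rw [hval c hc x, hval c hc x']
    linarith
  refine ⟨?_, ?_, ?_, ?_⟩
  · intro x hx hlow hhigh p hp hpa
    rw [hsets] at hp
    refine dot_lt_of_unique (Q.bigS N) (Q.wv w) (Q.big N c x) (mem_bigS Q N hc hx) ?_ p hp hpa
    intro a' ha' hne
    obtain ⟨c', hc', x', hx', rfl⟩ := of_mem_bigS Q N ha'
    by_cases hcc : c' = c
    · subst hcc
      refine hin x x' ?_
      have h1 := hL2 (Q.b c') x hx (fun k hk => by exact_mod_cast hlow k hk)
        (fun k hk hk' => by exact_mod_cast hhigh k hk hk') x' hx' (by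
          rintro rfl
          exact hne rfl)
      exact_mod_cast h1
    · exact hfar x hx c' hc' hcc x' hx'
  · intro x hx hom
    have hcD : c < Q.D := by
      rcases hc.lt_or_eq with h | h
      · exact h
      · rw [h, hok.bD] at hx
        omega
    obtain ⟨h1, h2⟩ := hL3 (Q.b c) x hx (by
      simp only [hom]
      push_cast
      rfl)
    have h1' : Q.lc c (x + 1) w = Q.lc c x w := by exact_mod_cast h1
    have heq : dot (Q.wv w) (Q.big N c (x + 1)) = dot (Q.wv w) (Q.big N c x) := by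
      rw [hval c hc (x + 1), hval c hc x, h1']
    refine ⟨heq, ?_⟩
    intro p hp hpa hpb
    rw [hsets] at hp
    refine dot_lt_of_edge (Q.bigS N) (Q.wv w) (Q.big N c x) (Q.big N c (x + 1))
      (mem_bigS Q N hc (by omega)) (mem_bigS Q N hc hx) heq.symm ?_ ?_ p hp hpa hpb
    · intro a' ha' hne hne'
      obtain ⟨c', hc', x', hx', rfl⟩ := of_mem_bigS Q N ha'
      by_cases hcc : c' = c
      · subst hcc
        refine hin x x' ?_
        have h3 := h2 x' hx' (by
          rintro rfl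
          exact hne rfl) (by
          rintro rfl
          exact hne' rfl)
        exact_mod_cast h3
      · exact hfar x (by omega) c' hc' hcc x' hx'
    · intro θ hθ
      obtain ⟨z, hz⟩ := hθ ⟨c, by omega⟩
      refine ⟨-z, ?_⟩
      have h3 : ((Q.big N c (x + 1) ⟨c, by omega⟩ : ℤ) : ℝ) - (Q.big N c x ⟨c, by omega⟩ : ℤ) =
          -1 := by
        exact_mod_cast edge_coord Q hok N hcD hbc x
      rw [h3] at hz
      push_cast
      linarith
  · intro hcD x hx
    have h1 := hgap c hc Q.D le_rfl hcD.ne hbc (by rw [hok.bD]) hnear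
    rw [hTD] at h1
    have h2 := (abs_lt.1 (hKB c hc w hnear c hc x hx)).2
    rw [hval c hc x]
    linarith
  · rintro rfl
    rw [hval Q.D le_rfl 0, hTD]
    simp only [Pm.lc, Pm.om, frD Q hok, hnear.1, range_zero, sum_empty]
    push_cast
    ring

end Pool.Agent.Lib.MP_4e7804_co.Av
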