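import Pool.Agent.Lib.MP_4e7804_co.Av.SpecL
import Pool.Agent.Lib.MP_4e7804_co.Lo.Hull

/-! MP_4e7804_co: the minimal vertices of the small colours. -/

set_option autoImplicit false

open Finset

namespace Pool.Agent.Lib.MP_4e7804_co.Av

namespace MinSN

private theorem sF_succ (Q : Pm) (i x : ℕ) (w : ℕ → ℚ) :
    Q.sF i (x + 1) w = Q.sF i x w + ((Q.th i x : ℚ) - w i) := by
  unfold Pm.sF
  rw [sum_range_succ]
  push_cast
  ring

private theorem sets_succ (Q : Pm) (N : ℤ) (l : Fin (Q.D + 1)) (hl : l.val < Q.κ) :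
    Q.sets N l.succ = (range (Q.v l)).image (Q.sml l) := by
  unfold Pm.sets
  rw [Fin.cons_succ, if_pos hl]

private theorem conf_succ (Q : Pm) (N : ℤ) (l : Fin (Q.D + 1)) (hl : l.val < Q.κ) :
    Q.conf N l.succ = convexHull ℝ (toReal '' (((range (Q.v l)).image (Q.sml l) : Finset _) :
      Set (Fin (Q.D + 1) → ℤ))) := by
  unfold Pm.conf
  rw [sets_succ Q N l hl]

private theorem sml_diff (Q : Pm) (l : Fin (Q.D + 1)) (hl : l.val < Q.κ) (x : ℕ) :
    Q.sml l (x + 1) l - Q.sml l x l = -1 := by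
  have hD : l.val ≠ Q.D := by
    have : Q.D = Q.κ + Q.μ := rfl
    omega
  unfold Pm.sml
  simp only [if_true]
  rw [if_neg hD, if_neg hD]
  push_cast
  ring

private theorem sF_last (Q : Pm) (i : ℕ) (hi : i < Q.κ) (hv : 1 ≤ Q.v i) (w : ℕ → ℚ) :
    Q.sF i (Q.v i - 1) w = w i + Q.be i := by
  unfold Pm.sF Pm.be
  rw [if_pos hi]
  push_cast [Nat.cast_sub hv]
  ring

end MinSN

open MinSN in
theorem tMinS (hDt : StmtDt) (hTh : StmtTh) (hLab : Tl.StmtLab) : StmtMinS := by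
  classical
  intro Q N hOk w hwD l hl
  obtain ⟨-, hsml, -⟩ := hDt Q N w hwD
  have hval : ∀ x, dot (Q.wv w) (Q.sml l x) = Q.sF l x w := hsml l hl
  obtain ⟨hmono, -, -⟩ := (hTh Q hOk).1 l hl
  have hv2 : 2 ≤ Q.v l := by
    have h1 := hOk.a_pos l hl
    have h2 := hOk.G_pos l hl
    have h3 := hOk.aG l hl
    have h4 : 1 ≤ Q.a l * Q.G l := Nat.mul_le_mul h1 h2
    omega
  have ha : StrictMono (fun y : ℕ => ((Q.th l y : ℕ) : ℝ)) := by
    intro x y hxy
    have h : Q.th l x < Q.th l y := hmono hxy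
    show ((Q.th l x : ℕ) : ℝ) < ((Q.th l y : ℕ) : ℝ)
    exact_mod_cast h
  have hφ : ∀ i : ℕ, ((Q.sF l (i + 1) w : ℚ) : ℝ) = ((Q.sF l i w : ℚ) : ℝ) +
      (((Q.th l i : ℕ) : ℝ) - ((w l : ℚ) : ℝ)) := by
    intro i
    rw [sF_succ]
    push_cast
    ring
  obtain ⟨-, h2, h3, -⟩ := hLab (fun y : ℕ => ((Q.th l y : ℕ) : ℝ))
    (fun x => ((Q.sF l x w : ℚ) : ℝ)) ((w l : ℚ) : ℝ) ha hφ
  have hlt : ∀ i k, ((Q.sF l i w : ℚ) : ℝ) < ((Q.sF l k w : ℚ) : ℝ) →
      dot (Q.wv w) (Q.sml l i) < dot (Q.wv w) (Q.sml l k) := by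
    intro i k h
    rw [hval, hval]
    exact_mod_cast h
  have hlast : Q.sF l (Q.v l - 1) w = w l + Q.be l := sF_last Q l hl (by omega) w
  rw [conf_succ Q N l hl]
  refine ⟨fun hy => ⟨?_, ?_⟩, fun y hy hw => ?_⟩
  · rw [hval, hlast]
  · intro p hp hpa
    refine dot_lt_of_unique _ (Q.wv w) (Q.sml l (Q.v l - 1))
      (mem_image_of_mem _ (mem_range.2 (by omega))) ?_ p hp hpa
    intro a' ha' hne
    obtain ⟨k, hk', rfl⟩ := mem_image.1 ha'
    refine hlt _ _ (h2 (Q.v l) (Q.v l - 1) (by omega) ?_ ?_ k (mem_range.1 hk') ?_)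
    · intro j hj
      have := hy j (by omega)
      show ((Q.th l j : ℕ) : ℝ) < ((w l : ℚ) : ℝ)
      exact_mod_cast this
    · intro j hj hj'
      omega
    · rintro rfl
      exact hne rfl
  · obtain ⟨h4, h5⟩ := h3 (Q.v l) y hy (by
      show ((w l : ℚ) : ℝ) = ((Q.th l y : ℕ) : ℝ)
      rw [hw]
      push_cast
      rfl)
    have h4' : Q.sF l (y + 1) w = Q.sF l y w := by exact_mod_cast h4
    have heq : dot (Q.wv w) (Q.sml l (y + 1)) = dot (Q.wv w) (Q.sml l y) := by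
      rw [hval, hval, h4']
    refine ⟨heq, ?_, ?_⟩
    · rw [hval, ← hlast]
      by_cases hc : Q.v l - 1 = y + 1
      · rw [hc, h4']
      · have := h5 (Q.v l - 1) (by omega) (by omega) hc
        have h6 : Q.sF l y w < Q.sF l (Q.v l - 1) w := by exact_mod_cast this
        exact h6.le
    · intro p hp hpa hpb
      refine dot_lt_of_edge _ (Q.wv w) (Q.sml l y) (Q.sml l (y + 1))
        (mem_image_of_mem _ (mem_range.2 (by omega))) (mem_image_of_mem _ (mem_range.2 hy))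
        heq.symm ?_ ?_ p hp hpa hpb
      · intro a' ha' hne hne'
        obtain ⟨k, hk', rfl⟩ := mem_image.1 ha'
        refine hlt _ _ (h5 k (mem_range.1 hk') ?_ ?_)
        · rintro rfl
          exact hne rfl
        · rintro rfl
          exact hne' rfl
      · intro θ hθ
        obtain ⟨z', hz'⟩ := hθ l
        refine ⟨-z', ?_⟩
        have h1 : ((Q.sml l (y + 1) l : ℤ) : ℝ) - (Q.sml l y l : ℝ) = -1 := by
          have := sml_diff Q l hl y
          exact_mod_cast this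
        rw [h1] at hz'
        push_cast
        linarith

end Pool.Agent.Lib.MP_4e7804_co.Av
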