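import Pool.Agent.Lib.MP_4e7804_co.Av.SpecL
import Pool.Agent.Lib.MP_4e7804_co.Lo.Sheet
import Pool.Agent.Lib.MP_4e7804_co.Lo.Hull
import Pool.Agent.Lib.MP_4e7804_co.Lo.Implicit

/-! MP_4e7804_co, package Av: the sheets of the place `c < D`. -/

set_option autoImplicit false

open Finset

namespace Pool.Agent.Lib.MP_4e7804_co.Av

namespace Sh1N

/-- the linear form at which the sheet is seen -/
private def W (Q : Pm) (c : ℕ) (t : ℕ → ℕ) (y : Fin (Q.D + 1 + 1) → ℚ) (l : ℕ) : ℚ :=
  if l ∈ Q.fr c then (Q.L : ℚ) * Q.g c l + (t l : ℚ) * (Q.M : ℚ) ^ l else Q.yh y l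

private theorem fr_lt {Q : Pm} {c i : ℕ} (h : i ∈ Q.fr c) : i < Q.κ :=
  mem_range.1 (mem_filter.1 h).1

private theorem fr_le {Q : Pm} {c i : ℕ} (h : i ∈ Q.fr c) : Q.g c i ≤ Q.G i := (mem_filter.1 h).2

private theorem k_le (Q : Pm) : Q.κ ≤ Q.D := Nat.le_add_right _ _

private theorem c_notin {Q : Pm} (hQ : Q.Ok) {c : ℕ} (hb : 1 ≤ Q.b c) : c ∉ Q.fr c := by
  intro h
  have h1 := hQ.g_self c (fr_lt h) hb
  have h2 := fr_le h
  omega

private theorem tm_le {Q : Pm} (hQ : Q.Ok) {i t : ℕ} (hi : i < Q.κ) (ht : t < Q.a i) :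
    (t : ℚ) * (Q.M : ℚ) ^ i ≤ Q.S := by
  have h1 := hQ.aG i hi
  have h2 := hQ.v_le i hi
  have h3 : Q.a i * 1 ≤ Q.a i * Q.G i := Nat.mul_le_mul_left _ (hQ.G_pos i hi)
  have h4 : t ≤ Q.B + 2 := by omega
  have h5 : Q.M ^ i ≤ Q.M ^ Q.κ := Nat.pow_le_pow_right (by simp [Pm.M]) hi.le
  have h6 : t * Q.M ^ i ≤ (Q.B + 2) * Q.M ^ Q.κ := Nat.mul_le_mul h4 h5
  have h7 : ((t * Q.M ^ i : ℕ) : ℚ) ≤ ((Q.S : ℕ) : ℚ) := by exact_mod_cast h6
  push_cast at h7
  exact h7

private theorem W_near {Q : Pm} (hQ : Q.Ok) {K : ℚ} {c : ℕ} (hc : c < Q.D) (hb : 1 ≤ Q.b c)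
    {t : ℕ → ℕ} (ht : ∀ i ∈ Q.fr c, t i < Q.a i) {y : Fin (Q.D + 1 + 1) → ℚ} (hy : Q.Box K y) :
    Q.Near c (W Q c t y) := by
  have hk := k_le Q
  obtain ⟨h1, -, -, h4⟩ := hy
  refine ⟨?_, ?_, ?_⟩
  · have hD : Q.D ∉ Q.fr c := fun h => by
      have := fr_lt h
      omega
    rw [W, if_neg hD, Pm.yh, dif_pos (Nat.lt_succ_self _), Pm.be, if_neg (by omega)]
    have h2 : (⟨Q.D + 1, by omega⟩ : Fin (Q.D + 1 + 1)) = Fin.last (Q.D + 1) := rfl
    rw [h2, h1]
    simp
  · intro i hi
    by_cases hf : i ∈ Q.fr c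
    · rw [W, if_pos hf]
      have h5 := tm_le hQ hi (ht i hf)
      have h6 : (0 : ℚ) ≤ (t i : ℚ) * (Q.M : ℚ) ^ i := by positivity
      constructor <;> linarith
    · rw [W, if_neg hf]
      obtain ⟨-, h6⟩ := hQ.g_pos c hc hb i hi
      have h7 : Q.G i < Q.g c i := by
        by_contra h'
        exact hf (mem_filter.2 ⟨mem_range.2 hi, not_lt.1 h'⟩)
      have h8 : Q.g c i = Q.G i + 1 := by omega
      obtain ⟨h9, h10⟩ := h4 i (by omega)
      have h11 : (Q.lo i : ℚ) = (Q.L : ℚ) * (Q.g c i : ℚ) := by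
        rw [Pm.lo, if_pos hi, h8]
        push_cast
        ring
      rw [h11] at h9 h10
      exact ⟨h9.le, h10.le⟩
  · intro l hl hlD
    have hf : l ∉ Q.fr c := fun h => by
      have := fr_lt h
      omega
    rw [W, if_neg hf]
    obtain ⟨h9, h10⟩ := h4 l hlD
    have h11 : (Q.lo l : ℚ) = 0 := by
      rw [Pm.lo, if_neg (by omega)]
      simp
    rw [h11] at h9 h10
    rw [zero_add] at h10
    exact ⟨h9.le, h10.le⟩

private theorem W_om {Q : Pm} (hQ : Q.Ok) {c x : ℕ} (hb : 1 ≤ Q.b c)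
    {t : ℕ → ℕ} {y : Fin (Q.D + 1 + 1) → ℚ}
    (hy : Q.yh y c = (Q.lo c : ℚ) + (Q.M : ℚ) ^ Q.κ * (1 + x) -
      ∑ i ∈ Q.fr c, (t i : ℚ) * (Q.M : ℚ) ^ i) :
    Q.om c (W Q c t y) = Q.vt c x := by
  have h1 : ∑ i ∈ Q.fr c, W Q c t y i =
      (Q.L : ℚ) * (∑ i ∈ Q.fr c, (Q.g c i : ℚ)) + ∑ i ∈ Q.fr c, (t i : ℚ) * (Q.M : ℚ) ^ i := by
    rw [mul_sum, ← sum_add_distrib]
    refine sum_congr rfl fun i hi => ?_
    rw [W, if_pos hi]
  rw [Pm.om, h1]
  have h2 : W Q c t y c = Q.yh y c := by rw [W, if_neg (c_notin hQ hb)]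
  rw [h2, hy, Pm.vt]
  push_cast
  ring

private theorem yh_succ {Q : Pm} (y : Fin (Q.D + 1 + 1) → ℚ) (l : Fin (Q.D + 1)) :
    Q.yh y l = y l.succ - Q.be l := by
  rw [Pm.yh, dif_pos l.2]
  rfl

/-- the difference of two consecutive vertices of the big colour -/
private theorem big_sub {Q : Pm} (N : ℤ) (c x : ℕ) (l : Fin (Q.D + 1)) (hl : l.val ≠ Q.D) :
    Q.big N c (x + 1) l - Q.big N c x l = -Q.Om c l := by
  simp only [Pm.big]
  rw [if_neg hl, if_neg hl]
  push_cast
  ring

/-- the difference of two consecutive vertices of a small colour -/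
private theorem sml_sub {Q : Pm} (i x : ℕ) (l : Fin (Q.D + 1)) (hl : l.val ≠ Q.D) :
    Q.sml i (x + 1) l - Q.sml i x l = if l.val = i then -1 else 0 := by
  simp only [Pm.sml]
  rw [if_neg hl, if_neg hl]
  split_ifs
  · push_cast
    ring
  · ring

end Sh1N

open Sh1N in
theorem tSh1 (hDt : StmtDt) (hTh : StmtTh) (hMinB : StmtMinB) (hMinS : StmtMinS) : StmtSh1 := by
  classical
  intro Q K N hQ hK hKN cf F hcf hF c hc x hx t ht y hy hyc
  have hk := k_le Q
  have hb : 1 ≤ Q.b c := by omega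
  have hcf' : c ∉ Q.fr c := c_notin hQ hb
  -- the linear form
  obtain ⟨w, hw⟩ : ∃ w, w = W Q c t y := ⟨_, rfl⟩
  have hnear : Q.Near c w := by
    rw [hw]
    exact W_near hQ hc hb ht hy
  have hom : Q.om c w = Q.vt c x := by
    rw [hw]
    exact W_om hQ hb hyc
  have hwD : w Q.D = 1 := hnear.1
  have hwf : ∀ l ∈ Q.fr c, w l = (Q.L : ℚ) * Q.g c l + (t l : ℚ) * (Q.M : ℚ) ^ l := by
    intro l hl
    rw [hw, W, if_pos hl]
  have hwn : ∀ l : Fin (Q.D + 1), l.val ∉ Q.fr c → w l = y l.succ - Q.be l := by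
    intro l hl
    rw [hw, W, if_neg hl, yh_succ]
  obtain ⟨-, hB2, hB3, -⟩ := hMinB Q K N hQ hK hKN c hc.le hb w hnear
  obtain ⟨hBe, hBm⟩ := hB2 x hx hom
  have hBK := hB3 hc x (by omega)
  obtain ⟨hTs, -⟩ := hTh Q hQ
  obtain ⟨hDt1, hDt2, hDt3⟩ := hDt Q N w hwD
  -- the walls of the small colours
  have hex : ∀ i ∈ Q.fr c, ∃ z, z + 1 < Q.v i ∧ w i = Q.th i z := by
    intro i hi
    have hik := fr_lt hi
    obtain ⟨-, -, h3⟩ := hTs i hik
    obtain ⟨z, hz, hz'⟩ := h3 (Q.g c i) (t i) (hQ.g_pos c hc hb i hik).1 (fr_le hi) (ht i hi)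
    refine ⟨z, hz, ?_⟩
    rw [hwf i hi, hz']
    push_cast
    rfl
  choose! z hz1 hz2 using hex
  -- the data
  let a : Fin (Q.D + 1 + 1) → Fin (Q.D + 1) → ℤ := Fin.cons (Q.big N c x) fun l : Fin (Q.D + 1) =>
    if l.val ∈ Q.fr c then Q.sml l (z l) else if l.val < Q.κ then Q.sml l (Q.v l - 1)
      else Pi.single l 1
  let bb : Fin (Q.D + 1 + 1) → Fin (Q.D + 1) → ℤ := Fin.cons (Q.big N c (x + 1))
    fun l : Fin (Q.D + 1) => Q.sml l (z l + 1)
  let J : Finset (Fin (Q.D + 1 + 1)) :=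
    insert 0 ((univ.filter fun l : Fin (Q.D + 1) => l.val ∈ Q.fr c).image Fin.succ)
  have a0 : a 0 = Q.big N c x := rfl
  have b0 : bb 0 = Q.big N c (x + 1) := rfl
  have aF : ∀ l : Fin (Q.D + 1), l.val ∈ Q.fr c → a l.succ = Q.sml l (z l) := by
    intro l hl
    simp [a, hl]
  have aS : ∀ l : Fin (Q.D + 1), l.val ∉ Q.fr c → l.val < Q.κ →
      a l.succ = Q.sml l (Q.v l - 1) := by
    intro l hl hl'
    simp [a, hl, hl']
  have aP : ∀ l : Fin (Q.D + 1), ¬ l.val < Q.κ → a l.succ = Pi.single l 1 := by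
    intro l hl
    have : l.val ∉ Q.fr c := fun h => hl (fr_lt h)
    simp [a, this, hl]
  have bF : ∀ l : Fin (Q.D + 1), bb l.succ = Q.sml l (z l + 1) := fun l => rfl
  have s0 : Q.sets N 0 = Q.bigS N := rfl
  have sS : ∀ l : Fin (Q.D + 1), l.val < Q.κ →
      Q.sets N l.succ = (range (Q.v l)).image (Q.sml l) := by
    intro l hl
    simp [Pm.sets, hl]
  have sP : ∀ l : Fin (Q.D + 1), ¬ l.val < Q.κ → Q.sets N l.succ = {Pi.single l 1} := by
    intro l hl
    simp [Pm.sets, hl]
  have hJ0 : (0 : Fin (Q.D + 1 + 1)) ∈ J := mem_insert_self _ _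
  have hJs : ∀ l : Fin (Q.D + 1), l.succ ∈ J ↔ l.val ∈ Q.fr c := by
    intro l
    simp only [J, mem_insert, mem_image, mem_filter, mem_univ, true_and]
    constructor
    · rintro (h | ⟨l', h, h'⟩)
      · exact absurd h (Fin.succ_ne_zero l)
      · rw [← Fin.succ_injective _ h']
        exact h
    · intro h
      exact Or.inr ⟨l, h, rfl⟩
  have hbig : ∀ z < Q.b c, Q.big N c z ∈ Q.bigS N := by
    intro z hz
    rw [Pm.bigS, mem_biUnion]
    exact ⟨c, mem_range.2 (by omega), mem_image_of_mem _ (mem_range.2 hz)⟩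
  have has : ∀ l, a l ∈ Q.sets N l := by
    intro l
    refine Fin.cases ?_ (fun l => ?_) l
    · rw [a0, s0]
      exact hbig x (by omega)
    · by_cases hl : l.val ∈ Q.fr c
      · rw [aF l hl, sS l (fr_lt hl)]
        have := hz1 l hl
        exact mem_image_of_mem _ (mem_range.2 (by omega))
      · by_cases hl' : l.val < Q.κ
        · rw [aS l hl hl', sS l hl']
          have h1 := hQ.aG l hl'
          exact mem_image_of_mem _ (mem_range.2 (by omega))
        · rw [aP l hl', sP l hl']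
          exact mem_singleton_self _
  have hbs : ∀ l ∈ J, bb l ∈ Q.sets N l := by
    intro l
    refine Fin.cases ?_ (fun l => ?_) l
    · intro _
      rw [b0, s0]
      exact hbig (x + 1) hx
    · intro hl
      have hl' := (hJs l).1 hl
      rw [bF l, sS l (fr_lt hl')]
      exact mem_image_of_mem _ (mem_range.2 (hz1 l hl'))
  have hcD : (⟨c, by omega⟩ : Fin (Q.D + 1)).val ≠ Q.D := by
    show c ≠ Q.D
    omega
  -- the coordinates of the edges
  have e00 : ((bb 0 ⟨c, by omega⟩ : ℤ) : ℚ) - a 0 ⟨c, by omega⟩ = -1 := by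
    have h1 := big_sub N c x (⟨c, by omega⟩ : Fin (Q.D + 1)) hcD
    have h2 : Q.Om c c = 1 := by simp [Pm.Om, hcf']
    rw [h2] at h1
    rw [a0, b0]
    exact_mod_cast h1
  have e0l : ∀ l : Fin (Q.D + 1), l.val ∈ Q.fr c → ((bb 0 l : ℤ) : ℚ) - a 0 l = -1 := by
    intro l hl
    have hlk := fr_lt hl
    have h1 := big_sub N c x l (by omega)
    have h3 : l.val ≠ c := fun h => hcf' (h ▸ hl)
    have h2 : Q.Om c l = 1 := by simp [Pm.Om, hl, h3]
    rw [h2] at h1
    rw [a0, b0]
    exact_mod_cast h1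
  have esl : ∀ l : Fin (Q.D + 1), l.val ∈ Q.fr c → ∀ k : Fin (Q.D + 1), k.val ≠ Q.D →
      ((bb l.succ k : ℤ) : ℚ) - a l.succ k = if k = l then -1 else 0 := by
    intro l hl k hk
    have h1 := sml_sub l.val (z l) k hk
    rw [aF l hl, bF l]
    by_cases hkl : k = l
    · rw [if_pos hkl]
      rw [if_pos (congrArg Fin.val hkl)] at h1
      exact_mod_cast h1
    · rw [if_neg hkl]
      rw [if_neg (fun h => hkl (Fin.ext h))] at h1
      exact_mod_cast h1
  have ecl : ∀ l : Fin (Q.D + 1), l.val ∈ Q.fr c →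
      ((bb l.succ ⟨c, by omega⟩ : ℤ) : ℚ) - a l.succ ⟨c, by omega⟩ = 0 := by
    intro l hl
    rw [esl l hl _ hcD, if_neg]
    intro h
    have h1 : c = l.val := congrArg Fin.val h
    rw [← h1] at hl
    exact hcf' hl
  have key : ∀ α ∈ F.support, ∃ β ∈ F.support, β ≠ α ∧
      ∑ l, (β l : ℝ) * ((y l : ℚ) : ℝ) ≤ ∑ l, (α l : ℝ) * ((y l : ℚ) : ℝ) := by
    intro α hα
    refine sheet_tie (Q.conf N) (fun l => latticePoints_hull_finite _) cf F
      (fun t => hF.eval_eq_zero t) (Q.wv w) (fun l => dot (Q.wv w) (a l)) J a bb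
      (fun l => subset_latticePoints_hull _ (has l)) (fun l => rfl) (fun l => hcf l _ (has l))
      (fun l hl => subset_latticePoints_hull _ (hbs l hl)) ?_ (fun l hl => hcf l _ (hbs l hl)) ?_
      (Fin.cons (fun k => if k = ⟨c, by omega⟩ then -1 else 0) fun l k =>
        (if k = l then -1 else 0) + (if k = ⟨c, by omega⟩ then 1 else 0)) ?_
      (fun l => ((y l : ℚ) : ℝ)) ?_ ?_ α hα
    · -- values of bb
      intro l
      refine Fin.cases ?_ (fun l => ?_) l
      · intro _
        rw [b0, a0]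
        exact hBe
      · intro hl
        have hl' := (hJs l).1 hl
        obtain ⟨-, h2⟩ := hMinS Q N hQ w hwD l (fr_lt hl')
        rw [bF l, aF l hl']
        exact (h2 (z l) (hz1 l hl') (hz2 l hl')).1
    · -- minimality
      intro l
      refine Fin.cases ?_ (fun l => ?_) l
      · intro p hp hpa hpb
        exact hBm p hp hpa (hpb hJ0)
      · intro p hp hpa hpb
        by_cases hl : l.val ∈ Q.fr c
        · obtain ⟨-, h2⟩ := hMinS Q N hQ w hwD l (fr_lt hl)
          rw [aF l hl] at hpa ⊢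
          exact (h2 (z l) (hz1 l hl) (hz2 l hl)).2.2 p hp hpa (hpb ((hJs l).2 hl))
        · by_cases hl' : l.val < Q.κ
          · obtain ⟨h1, -⟩ := hMinS Q N hQ w hwD l hl'
            rw [aS l hl hl'] at hpa ⊢
            refine (h1 ?_).2 p hp hpa
            intro y' hy'
            have h3 := (hTs l hl').2.1 y' hy'
            have h4 := (hy.2.2.2 l (by omega)).1
            rw [hwn l hl, ← yh_succ]
            have h5 : (Q.th l y' : ℚ) < Q.lo l := by exact_mod_cast h3.2
            linarith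
          · have hp' : p ∈ latticePoints (convexHull ℝ (toReal '' (({a l.succ} : Finset _) :
                Set (Fin (Q.D + 1) → ℤ)))) := by
              rw [aP l hl', ← sP l hl']
              exact hp
            refine dot_lt_of_unique _ _ _ (mem_singleton_self _) ?_ p hp' hpa
            intro a' ha' hne
            exact absurd (mem_singleton.1 ha') hne
    · -- dual vectors
      intro l
      refine Fin.cases ?_ (fun l => ?_) l
      · intro _ j
        simp only [Fin.cons_zero, ite_mul, zero_mul, sum_ite_eq', mem_univ, if_true]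
        refine Fin.cases ?_ (fun j => ?_) j
        · intro _
          rw [e00]
          simp
        · intro hj
          have hj' := (hJs j).1 hj
          rw [ecl j hj', if_neg (Fin.succ_ne_zero j).symm]
          simp
      · intro hl j
        have hl' := (hJs l).1 hl
        have hlk := fr_lt hl'
        simp only [Fin.cons_succ, add_mul, ite_mul, zero_mul, sum_add_distrib, sum_ite_eq',
          mem_univ, if_true]
        refine Fin.cases ?_ (fun j => ?_) j
        · intro _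
          rw [e00, e0l l hl', if_neg (Fin.succ_ne_zero l)]
          norm_num
        · intro hj
          have hj' := (hJs j).1 hj
          rw [ecl j hj', esl j hj' l (by omega)]
          by_cases hlj : l = j
          · rw [if_pos hlj, if_pos (congrArg Fin.succ hlj)]
            norm_num
          · rw [if_neg hlj, if_neg (fun h => hlj (Fin.succ_injective _ h))]
            norm_num
    · -- values below
      intro l
      refine Fin.cases ?_ (fun l => ?_) l
      · intro _
        have h1 : dot (Q.wv w) (a 0) < y 0 := by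
          rw [a0]
          have := hy.2.1
          linarith
        exact_mod_cast h1
      · intro hl
        have hl' := (hJs l).1 hl
        have hlk := fr_lt hl'
        obtain ⟨-, h2⟩ := hMinS Q N hQ w hwD l hlk
        have h3 := (h2 (z l) (hz1 l hl') (hz2 l hl')).2.1
        have h4 := ((hTs l hlk).2.1 (z l) (hz1 l hl')).2
        have h5 := (hy.2.2.2 l (by omega)).1
        rw [yh_succ] at h5
        have h6 : w l < Q.lo l := by
          rw [hz2 l hl']
          exact_mod_cast h4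
        have h1 : dot (Q.wv w) (a l.succ) < y l.succ := by
          rw [aF l hl']
          linarith
        exact_mod_cast h1
    · -- values equal
      intro l
      refine Fin.cases ?_ (fun l => ?_) l
      · intro h
        exact absurd hJ0 h
      · intro hl
        have hl' : l.val ∉ Q.fr c := fun h => hl ((hJs l).2 h)
        have h1 : y l.succ = dot (Q.wv w) (a l.succ) := by
          by_cases hlk : l.val < Q.κ
          · obtain ⟨h1, -⟩ := hMinS Q N hQ w hwD l hlk
            rw [aS l hl' hlk]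
            rw [(h1 ?_).1, hwn l hl']
            · ring
            · intro y' hy'
              have h3 := (hTs l hlk).2.1 y' hy'
              have h4 := (hy.2.2.2 l (by omega)).1
              rw [hwn l hl', ← yh_succ]
              have h5 : (Q.th l y' : ℚ) < Q.lo l := by exact_mod_cast h3.2
              linarith
          · rw [aP l hlk, hDt3 l, hwn l hl', Pm.be, if_neg hlk]
            simp
        exact_mod_cast h1
  intro α' hα'
  obtain ⟨α, hα, rfl⟩ := mem_image.1 hα'
  obtain ⟨β, hβ, hne, hle⟩ := key α hα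
  refine ⟨fun l => (β l : ℝ), mem_image.2 ⟨β, hβ, rfl⟩, ?_, ?_⟩
  · intro h'
    apply hne
    ext l
    have := congrFun h' l
    exact_mod_cast this
  · simpa [dotProduct] using hle

end Pool.Agent.Lib.MP_4e7804_co.Av
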