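import Pool.Agent.Lib.MP_4e7804_co.Av.SpecL
import Pool.Agent.Lib.MP_4e7804_co.Lo.Sheet
import Pool.Agent.Lib.MP_4e7804_co.Lo.Hull
import Pool.Agent.Lib.MP_4e7804_co.Lo.Implicit

/-! MP_4e7804_co, `V_n(v)` for every `v`: the sheets of the place `D`. -/

set_option autoImplicit false

open Finset

namespace Pool.Agent.Lib.MP_4e7804_co.Av

namespace Sh2N

/-- The linear form of a point of the sheet. -/
private def wf (Q : Pm) (t : ℕ → ℕ) (y : Fin (Q.D + 1 + 1) → ℚ) (l : ℕ) : ℚ :=
  if l < Q.κ then (Q.L : ℚ) * Q.g Q.D l + (t l : ℚ) * (Q.M : ℚ) ^ l else Q.yh y l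

private theorem wf_lt {Q : Pm} {t : ℕ → ℕ} {y : Fin (Q.D + 1 + 1) → ℚ} {l : ℕ} (h : l < Q.κ) :
    wf Q t y l = (Q.L : ℚ) * Q.g Q.D l + (t l : ℚ) * (Q.M : ℚ) ^ l := if_pos h

private theorem wf_ge {Q : Pm} {t : ℕ → ℕ} {y : Fin (Q.D + 1 + 1) → ℚ} {l : ℕ} (h : Q.κ ≤ l) :
    wf Q t y l = Q.yh y l := if_neg (not_lt.2 h)

private theorem kD (Q : Pm) : Q.κ ≤ Q.D := Nat.le_add_right _ _

private theorem be_ge {Q : Pm} {l : ℕ} (h : Q.κ ≤ l) : Q.be l = 0 := if_neg (not_lt.2 h)

private theorem yh_succ {Q : Pm} (y : Fin (Q.D + 1 + 1) → ℚ) (l : Fin (Q.D + 1)) :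
    Q.yh y l = y l.succ - Q.be l := by
  unfold Pm.yh
  rw [dif_pos l.2]
  rfl

private theorem lo_ge {Q : Pm} {l : ℕ} (h : Q.κ ≤ l) : Q.lo l = 0 := if_neg (not_lt.2 h)

private theorem near {Q : Pm} (hOk : Q.Ok) {K : ℚ} {t : ℕ → ℕ} (ht : ∀ i < Q.κ, t i < Q.a i)
    {y : Fin (Q.D + 1 + 1) → ℚ} (hB : Q.Box K y) : Q.Near Q.D (wf Q t y) := by
  obtain ⟨h1, _, _, h4⟩ := hB
  refine ⟨?_, ?_, ?_⟩
  · rw [wf_ge (kD Q)]
    have h5 := yh_succ y (Fin.last Q.D)
    have h6 : (Fin.last Q.D).succ = Fin.last (Q.D + 1) := rfl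
    rw [h6, h1, Fin.val_last, be_ge (kD Q)] at h5
    rw [h5]
    simp
  · intro i hi
    rw [wf_lt hi]
    have h5 : t i ≤ Q.B := by
      have h6 := ht i hi
      have h7 := hOk.aG i hi
      have h8 := hOk.v_le i hi
      have h9 : Q.a i ≤ Q.a i * Q.G i := Nat.le_mul_of_pos_right _ (hOk.G_pos i hi)
      omega
    have h6 : Q.M ^ i ≤ Q.M ^ Q.κ := Nat.pow_le_pow_right (Nat.succ_pos _) hi.le
    have h7 : t i * Q.M ^ i ≤ Q.S := by
      calc t i * Q.M ^ i ≤ (Q.B + 2) * Q.M ^ Q.κ := Nat.mul_le_mul (by omega) h6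
        _ = Q.S := rfl
    have h8 : (t i : ℚ) * (Q.M : ℚ) ^ i ≤ Q.S := by exact_mod_cast h7
    have h9 : (0 : ℚ) ≤ (t i : ℚ) * (Q.M : ℚ) ^ i := by positivity
    constructor <;> linarith
  · intro l hl hlD
    rw [wf_ge hl]
    have h5 := h4 l hlD
    rw [lo_ge hl] at h5
    simp only [Nat.cast_zero, zero_add] at h5
    exact ⟨h5.1.le, h5.2.le⟩

end Sh2N

open Sh2N in
theorem tSh2 (hDt : StmtDt) (hTh : StmtTh) (hMinB : StmtMinB) (hMinS : StmtMinS) : StmtSh2 := by
  classical
  intro Q K N hOk hKB hN cf F hcf hF hg t ht y hBox hy0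
  have hNear := near hOk ht hBox
  set w : ℕ → ℚ := wf Q t y with hw
  have hwD : w Q.D = 1 := hNear.1
  obtain ⟨hTh1, -⟩ := hTh Q hOk
  obtain ⟨-, -, hD3⟩ := hDt Q N w hwD
  -- the small colours
  have hyy : ∀ i, ∃ x, i < Q.κ → x + 1 < Q.v i ∧ w i = Q.th i x := by
    intro i
    by_cases hi : i < Q.κ
    · obtain ⟨-, -, h3⟩ := hTh1 i hi
      obtain ⟨x, hx1, hx2⟩ := h3 (Q.g Q.D i) (t i) (hg i hi) (hOk.gD i hi) (ht i hi)
      refine ⟨x, fun _ => ⟨hx1, ?_⟩⟩
      rw [hw, wf_lt hi, hx2]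
      push_cast
      rfl
    · exact ⟨0, fun h => absurd h hi⟩
  choose yy hyy using hyy
  -- the big colour
  have hbD := hOk.bD
  obtain ⟨hB1, -, -, hB4⟩ := hMinB Q K N hOk hKB hN Q.D le_rfl (by omega) w hNear
  have hbig := hB1 0 (by omega) (fun x hx => absurd hx (Nat.not_lt_zero x))
    (fun x _ hx => by omega)
  have hbv := hB4 rfl
  -- the data
  let a : Fin (Q.D + 1 + 1) → Fin (Q.D + 1) → ℤ := Fin.cons (Q.big N Q.D 0)
    fun l : Fin (Q.D + 1) => if l.val < Q.κ then Q.sml l (yy l) else Pi.single l 1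
  let bb : Fin (Q.D + 1 + 1) → Fin (Q.D + 1) → ℤ := Fin.cons (Q.big N Q.D 0)
    fun l : Fin (Q.D + 1) => if l.val < Q.κ then Q.sml l (yy l + 1) else Pi.single l 1
  let J : Finset (Fin (Q.D + 1 + 1)) := univ.filter fun l => 1 ≤ l.val ∧ l.val ≤ Q.κ
  have a0 : a 0 = Q.big N Q.D 0 := rfl
  have aS : ∀ l : Fin (Q.D + 1), l.val < Q.κ → a l.succ = Q.sml l (yy l) := by
    intro l hl
    simp only [a, Fin.cons_succ]
    rw [if_pos hl]
  have aM : ∀ l : Fin (Q.D + 1), ¬ l.val < Q.κ → a l.succ = Pi.single l 1 := by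
    intro l hl
    simp only [a, Fin.cons_succ]
    rw [if_neg hl]
  have bS : ∀ l : Fin (Q.D + 1), l.val < Q.κ → bb l.succ = Q.sml l (yy l + 1) := by
    intro l hl
    simp only [bb, Fin.cons_succ]
    rw [if_pos hl]
  have s0 : Q.sets N 0 = Q.bigS N := rfl
  have sS : ∀ l : Fin (Q.D + 1), l.val < Q.κ →
      Q.sets N l.succ = (range (Q.v l)).image (Q.sml l) := by
    intro l hl
    simp only [Pm.sets, Fin.cons_succ]
    rw [if_pos hl]
  have sM : ∀ l : Fin (Q.D + 1), ¬ l.val < Q.κ → Q.sets N l.succ = {Pi.single l 1} := by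
    intro l hl
    simp only [Pm.sets, Fin.cons_succ]
    rw [if_neg hl]
  have hcase : ∀ P : Fin (Q.D + 1 + 1) → Prop, P 0 →
      (∀ l : Fin (Q.D + 1), l.val < Q.κ → P l.succ) →
      (∀ l : Fin (Q.D + 1), ¬ l.val < Q.κ → P l.succ) → ∀ l, P l := by
    intro P h0 hS hM l
    refine Fin.cases h0 (fun l => ?_) l
    by_cases hl : l.val < Q.κ
    · exact hS l hl
    · exact hM l hl
  have hJ0 : (0 : Fin (Q.D + 1 + 1)) ∉ J := by
    intro hm
    have h1 := (mem_filter.1 hm).2.1
    simp at h1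
  have hJS : ∀ l : Fin (Q.D + 1), l.val < Q.κ → l.succ ∈ J := by
    intro l hl
    refine mem_filter.2 ⟨mem_univ _, ?_⟩
    rw [Fin.val_succ]
    omega
  have hJM : ∀ l : Fin (Q.D + 1), ¬ l.val < Q.κ → l.succ ∉ J := by
    intro l hl hm
    have h1 := (mem_filter.1 hm).2.2
    rw [Fin.val_succ] at h1
    omega
  have has : ∀ l, a l ∈ Q.sets N l := by
    refine hcase _ ?_ ?_ ?_
    · rw [a0, s0]
      refine mem_biUnion.2 ⟨Q.D, mem_range.2 (Nat.lt_succ_self _), mem_image_of_mem _ ?_⟩
      rw [mem_range]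
      omega
    · intro l hl
      rw [aS l hl, sS l hl]
      have h1 := (hyy l hl).1
      exact mem_image_of_mem _ (mem_range.2 (by omega))
    · intro l hl
      rw [aM l hl, sM l hl]
      exact mem_singleton_self _
  have hbs : ∀ l ∈ J, bb l ∈ Q.sets N l := by
    refine hcase _ ?_ ?_ ?_
    · intro hl
      exact absurd hl hJ0
    · intro l hl _
      rw [bS l hl, sS l hl]
      exact mem_image_of_mem _ (mem_range.2 (hyy l hl).1)
    · intro l hl hl'
      exact absurd hl' (hJM l hl)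
  have hS : ∀ l : Fin (Q.D + 1), (hl : l.val < Q.κ) →
      dot (Q.wv w) (Q.sml l (yy l + 1)) = dot (Q.wv w) (Q.sml l (yy l)) ∧
      dot (Q.wv w) (Q.sml l (yy l)) ≤ w l + Q.be l ∧
      ∀ p ∈ latticePoints (Q.conf N l.succ), p ≠ Q.sml l (yy l) → p ≠ Q.sml l (yy l + 1) →
        dot (Q.wv w) (Q.sml l (yy l)) < dot (Q.wv w) p := fun l hl =>
    (hMinS Q N hOk w hwD l hl).2 (yy l) (hyy l hl).1 (hyy l hl).2
  have key : ∀ α ∈ F.support, ∃ β ∈ F.support, β ≠ α ∧
      ∑ l, (β l : ℝ) * ((y l : ℚ) : ℝ) ≤ ∑ l, (α l : ℝ) * ((y l : ℚ) : ℝ) := by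
    intro α hα
    refine sheet_tie (Q.conf N) (fun l => latticePoints_hull_finite _) cf F
      (fun t => hF.eval_eq_zero t) (Q.wv w) (fun l => dot (Q.wv w) (a l)) J a bb
      (fun l => subset_latticePoints_hull _ (has l)) (fun l => rfl) (fun l => hcf l _ (has l))
      (fun l hl => subset_latticePoints_hull _ (hbs l hl)) ?_ (fun l hl => hcf l _ (hbs l hl)) ?_
      (fun l k => if l.val = k.val + 1 then -1 else 0) ?_
      (fun l => ((y l : ℚ) : ℝ)) ?_ ?_ α hα
    · -- values of b
      refine hcase _ ?_ ?_ ?_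
      · intro hl
        exact absurd hl hJ0
      · intro l hl _
        rw [bS l hl, aS l hl]
        exact (hS l hl).1
      · intro l hl hl'
        exact absurd hl' (hJM l hl)
    · -- minimality
      refine hcase _ ?_ ?_ ?_
      · intro p hp hpa _
        rw [a0] at hpa ⊢
        exact hbig p hp hpa
      · intro l hl p hp hpa hpb
        have hpb' := hpb (hJS l hl)
        rw [aS l hl] at hpa ⊢
        rw [bS l hl] at hpb'
        exact (hS l hl).2.2 p hp hpa hpb'
      · intro l hl p hp hpa hpb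
        have hp' : p ∈ latticePoints (convexHull ℝ (toReal '' (({a l.succ} : Finset _) :
            Set (Fin (Q.D + 1) → ℤ)))) := by
          rw [aM l hl, ← sM l hl]
          exact hp
        refine dot_lt_of_unique _ _ _ (mem_singleton_self _) ?_ p hp' hpa
        intro a' ha' hne
        exact absurd (mem_singleton.1 ha') hne
    · -- dual vectors
      refine hcase _ ?_ ?_ ?_
      · intro hl
        exact absurd hl hJ0
      · intro l hl _
        refine hcase _ ?_ ?_ ?_
        · intro hl'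
          exact absurd hl' hJ0
        · intro j hj _
          rw [Finset.sum_eq_single l]
          · rw [bS j hj, aS j hj]
            have hlD : l.val ≠ Q.D := by
              have := kD Q
              omega
            have h1 : ((Q.sml j (yy j + 1) l : ℤ) : ℚ) - (Q.sml j (yy j) l : ℤ) =
                if l = j then -1 else 0 := by
              simp only [Pm.sml]
              rw [if_neg hlD, if_neg hlD]
              by_cases hlj : l = j
              · rw [if_pos (congrArg Fin.val hlj), if_pos (congrArg Fin.val hlj), if_pos hlj]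
                push_cast
                ring
              · have h2 : l.val ≠ j.val := fun h => hlj (Fin.ext h)
                rw [if_neg h2, if_neg h2, if_neg hlj]
                simp
            rw [h1, if_pos (Fin.val_succ l)]
            by_cases hlj : l = j
            · rw [if_pos hlj, if_pos (by rw [hlj])]
              norm_num
            · rw [if_neg hlj, if_neg (fun h => hlj (Fin.succ_injective _ h))]
              norm_num
          · intro k _ hk
            rw [if_neg, zero_mul]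
            intro h
            rw [Fin.val_succ] at h
            exact hk (Fin.ext (by omega))
          · intro h
            exact absurd (mem_univ l) h
        · intro j hj hj'
          exact absurd hj' (hJM j hj)
      · intro l hl hl'
        exact absurd hl' (hJM l hl)
    · -- strict inequality
      refine hcase _ ?_ ?_ ?_
      · intro hl
        exact absurd hl hJ0
      · intro l hl _
        rw [aS l hl]
        have h1 := (hS l hl).2.1
        have h2 := (hTh1 l hl).2.1 (yy l) (hyy l hl).1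
        have h3 := hBox.2.2.2 l (lt_of_lt_of_le hl (kD Q))
        rw [yh_succ y l] at h3
        have h4 : (Q.th l (yy l) : ℚ) < Q.lo l := by exact_mod_cast h2.2
        have h5 := (hyy l hl).2
        have h6 : dot (Q.wv w) (Q.sml l (yy l)) < y l.succ := by linarith [h3.1]
        exact_mod_cast h6
      · intro l hl hl'
        exact absurd hl' (hJM l hl)
    · -- equality
      refine hcase _ ?_ ?_ ?_
      · intro _
        rw [a0, hbv, hy0]
        congr 2
        refine Finset.sum_congr rfl fun i hi => ?_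
        rw [hw, wf_lt (mem_range.1 hi)]
      · intro l hl hl'
        exact absurd (hJS l hl) hl'
      · intro l hl _
        rw [aM l hl, hD3 l, hw, wf_ge (not_lt.1 hl), yh_succ y l, be_ge (not_lt.1 hl)]
        simp
  intro α' hα'
  obtain ⟨α, hα, rfl⟩ := mem_image.1 hα'
  obtain ⟨β, hβ, hne, hle⟩ := key α hα
  refine ⟨fun l => (β l : ℝ), mem_image.2 ⟨β, hβ, rfl⟩, ?_, ?_⟩
  · intro h'
    apply hne
    ext l
    have := congrFun h' l
    exact_mod_cast this
  · simpa [dotProduct] using hle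

end Pool.Agent.Lib.MP_4e7804_co.Av
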