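import Pool.Agent.Lib.MP_4e7804_co.Av.SpecL

set_option autoImplicit false

open Finset

namespace Pool.Agent.Lib.MP_4e7804_co.Av

namespace SrtN

private theorem vecC_eq (κ μ b : ℕ) (g : ℕ → ℕ) (h0 : g 0 = b) (h1 : ∀ j, κ ≤ j → g (j + 1) = 1)
    (j : Fin (κ + μ + 1 + 1)) : g j.val = vecC κ μ b (fun l => g (l + 1)) j := by
  refine Fin.cases ?_ (fun l => ?_) j
  · simp [vecC, h0]
  · simp only [vecC, Fin.cons_succ, Fin.val_succ]
    split_ifs with h
    · rfl
    · exact h1 _ (not_lt.mp h)

end SrtN

open SrtN in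
theorem tSrt : StmtSrt := by
  intro d v a hv1 hva hex hzz
  obtain ⟨i₁, hi₁a, hi₁⟩ := hex
  obtain ⟨z, z', hzne, hz, hz'⟩ := hzz
  have ha2 : 2 ≤ v a := le_trans hi₁ (hva i₁)
  set τ : Equiv.Perm (Fin (d + 1)) := Tuple.sort (fun i => OrderDual.toDual (v i)) with hτ
  have hmono : Monotone ((fun i => OrderDual.toDual (v i)) ∘ τ) := Tuple.monotone_sort _
  have hanti : ∀ i j : Fin (d + 1), i ≤ j → v (τ j) ≤ v (τ i) := by
    intro i j hij
    have := hmono hij
    simpa using this
  set g : ℕ → ℕ := fun j => if h : j < d + 1 then v (τ ⟨j, h⟩) else 1 with hg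
  have hgv : ∀ j : Fin (d + 1), g j.val = v (τ j) := by
    intro j
    simp only [hg, j.isLt, dif_pos]
  have hg1 : ∀ j, 1 ≤ g j := by
    intro j
    simp only [hg]
    split_ifs with h
    · exact hv1 _
    · exact le_rfl
  have hganti : ∀ i j, i ≤ j → g j ≤ g i := by
    intro i j hij
    by_cases hj : j < d + 1
    · have hi : i < d + 1 := lt_of_le_of_lt hij hj
      have := hanti ⟨i, hi⟩ ⟨j, hj⟩ hij
      simp only [hg, hi, hj, dif_pos]
      exact this
    · have : g j = 1 := by simp only [hg, hj, dif_neg, not_false_eq_true]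
      rw [this]
      exact hg1 i
  have hg0 : g 0 = v a := by
    have h0 : g 0 = v (τ 0) := hgv 0
    apply le_antisymm
    · rw [h0]; exact hva _
    · have h := hanti 0 (τ.symm a) (Fin.zero_le _)
      rw [Equiv.apply_symm_apply] at h
      rw [h0]; exact h
  have hex1 : ∃ k, g (k + 1) = 1 := ⟨d, by simp [hg]⟩
  set κ := Nat.find hex1 with hκ
  have hκ1 : g (κ + 1) = 1 := Nat.find_spec hex1
  have hκlt : ∀ i < κ, 2 ≤ g (i + 1) := by
    intro i hi
    have h := Nat.find_min hex1 hi
    have h' := hg1 (i + 1)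
    omega
  have hκge : ∀ j, κ ≤ j → g (j + 1) = 1 := by
    intro j hj
    have h := hganti (κ + 1) (j + 1) (by omega)
    have h' := hg1 (j + 1)
    omega
  have hκpos : 1 ≤ κ := by
    by_contra hcon
    have hκ0 : κ = 0 := by omega
    have hall : ∀ i : Fin (d + 1), 2 ≤ v i → τ.symm i = 0 := by
      intro i hi
      by_contra hne
      have hpos : 0 < (τ.symm i).val := by
        rcases Nat.eq_zero_or_pos (τ.symm i).val with h | h
        · exact absurd (Fin.ext h) hne
        · exact h
      have h2 := hκge ((τ.symm i).val - 1) (by omega)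
      rw [Nat.sub_add_cancel hpos, hgv, Equiv.apply_symm_apply] at h2
      omega
    have e1 := hall a ha2
    have e2 := hall i₁ hi₁
    exact hi₁a (τ.symm.injective (e2.trans e1.symm))
  have hκd : κ + 2 ≤ d := by
    have key : ∀ i : Fin (d + 1), v i = 1 → κ + 1 ≤ (τ.symm i).val := by
      intro i hi
      by_contra hcon
      have hlt : (τ.symm i).val ≤ κ := by omega
      have h1 : g (τ.symm i).val = 1 := by rw [hgv, Equiv.apply_symm_apply, hi]
      rcases Nat.eq_zero_or_pos (τ.symm i).val with h | h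
      · rw [h, hg0] at h1; omega
      · have := hκlt ((τ.symm i).val - 1) (by omega)
        rw [Nat.sub_add_cancel h, h1] at this
        omega
    have k1 := key z hz
    have k2 := key z' hz'
    have hne : (τ.symm z).val ≠ (τ.symm z').val := by
      intro h
      exact hzne (τ.symm.injective (Fin.ext h))
    have l1 := (τ.symm z).isLt
    have l2 := (τ.symm z').isLt
    omega
  refine ⟨κ, d - 1 - κ, fun l => g (l + 1), by omega, τ.symm, hκpos, by omega, ?_, ?_, ?_, ?_⟩
  · intro i hi
    exact ⟨hκlt i hi, hganti _ _ (by omega)⟩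
  · rw [← hg0]
    exact hganti _ _ (by omega)
  · intro i
    have h := vecC_eq κ (d - 1 - κ) (v a) g hg0 hκge
      (Fin.cast (by omega) (τ.symm i))
    rw [← h]
    simp only [Fin.val_cast, hgv, Equiv.apply_symm_apply]
  · have hva0 : 0 < v a := by omega
    apply Nat.eq_of_mul_eq_mul_left hva0
    rw [Finset.mul_prod_erase _ _ (mem_univ a)]
    have e1 : ∏ i, v i = ∏ j, v (τ j) := (Equiv.prod_comp τ v).symm
    have e2 : ∏ j, v (τ j) = ∏ j : Fin (d + 1), g j.val :=
      Finset.prod_congr rfl fun j _ => (hgv j).symm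
    rw [e1, e2, Fin.prod_univ_eq_prod_range g (d + 1), Finset.prod_range_succ', mul_comm, hg0]
    congr 1
    symm
    apply Finset.prod_subset
    · intro x hx
      simp only [mem_range] at hx ⊢
      omega
    · intro x _ hx
      simp only [mem_range, not_lt] at hx
      exact hκge x hx

end Pool.Agent.Lib.MP_4e7804_co.Av
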