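import Pool.Agent.Lib.MP_4e7804_co.Av.SpecU

set_option autoImplicit false

open Finset

namespace Pool.Agent.Lib.MP_4e7804_co.Av

namespace SysN

/-- the constant part of a label -/
private def cst {d : ℕ} (η : Fin (d + 1) → (Fin d → ℤ) → ℝ) (z : Fin (d + 1) → ℝ) (i : Fin (d + 1))
    (o : Option (Fin d → ℤ)) : ℝ := o.elim (z i) (η i)

private theorem vl_eq {d : ℕ} (η : Fin (d + 1) → (Fin d → ℤ) → ℝ) (w : Fin d → ℝ)
    (z : Fin (d + 1) → ℝ) (i : Fin (d + 1)) (o : Option (Fin d → ℤ)) :
    Gp.vl η w z (i, o) = Gp.vc o ⬝ᵥ w + cst η z i o := by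
  cases o with
  | none =>
    have h : (Gp.vc (none : Option (Fin d → ℤ)) : Fin d → ℝ) = 0 := rfl
    rw [h, zero_dotProduct, zero_add]
    rfl
  | some p =>
    have h : Gp.vl η w z (i, some p) = val η i p w := rfl
    rw [h, val]
    rfl

end SysN

open SysN in
theorem tSys : StmtSys := by
  intro d A η j q hq hR z
  have hq2 : ∀ k, ∃ x y, x ≠ y ∧ q k = {x, y} := by
    intro k
    have h := Fintype.mem_piFinset.1 hq k
    exact Finset.card_eq_two.1 (Finset.mem_powersetCard.1 h).2
  choose x y hxy hk using hq2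
  let f : (Fin d → ℝ) →ₗ[ℝ] (Fin d → ℝ) :=
    { toFun := fun w k => (Gp.vc (x k) - Gp.vc (y k)) ⬝ᵥ w
      map_add' := fun a b => by
        funext k
        exact dotProduct_add _ _ _
      map_smul' := fun c a => by
        funext k
        exact dotProduct_smul _ _ _ }
  have hf : ∀ w k, f w k = (Gp.vc (x k) - Gp.vc (y k)) ⬝ᵥ w := fun _ _ => rfl
  have hpair : ∀ (g : Fin d → Option (Fin d → ℤ) → ℝ),
      (∀ k, ∀ o ∈ q k, ∀ o' ∈ q k, g k o = g k o') ↔ ∀ k, g k (x k) = g k (y k) := by
    intro g
    constructor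
    · intro h k
      exact h k _ (by rw [hk]; simp) _ (by rw [hk]; simp)
    · intro h k o ho o' ho'
      rw [hk, Finset.mem_insert, Finset.mem_singleton] at ho ho'
      rcases ho with rfl | rfl <;> rcases ho' with rfl | rfl
      · rfl
      · exact h k
      · exact (h k).symm
      · rfl
  have hinj : Function.Injective f := by
    rw [injective_iff_map_eq_zero]
    intro w hw
    refine hR w ((hpair fun k o => Gp.vc o ⬝ᵥ w).2 fun k => ?_)
    have h := congrFun hw k
    rw [hf, sub_dotProduct] at h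
    exact sub_eq_zero.1 h
  have hbij : Function.Bijective f := ⟨hinj, LinearMap.injective_iff_surjective.1 hinj⟩
  have hE : ∀ w, Eqs η j q z w ↔
      f w = fun k => cst η z (j.succAbove k) (y k) - cst η z (j.succAbove k) (x k) := by
    intro w
    refine (hpair fun k o => Gp.vl η w z (j.succAbove k, o)).trans ?_
    rw [funext_iff]
    refine forall_congr' fun k => ?_
    rw [hf, sub_dotProduct, vl_eq, vl_eq]
    constructor
    · intro h
      linarith
    · intro h
      linarith
  obtain ⟨w, hw, hu⟩ := hbij.existsUnique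
    (fun k => cst η z (j.succAbove k) (y k) - cst η z (j.succAbove k) (x k))
  exact ⟨w, (hE w).2 hw, fun w' hw' => hu w' ((hE w').1 hw')⟩

end Pool.Agent.Lib.MP_4e7804_co.Av
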