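import Pool.Agent.Lib.MP_4e7804_co.Av.SpecL

/-!
# MP_4e7804_co, Av, module Th: the walls of the small colours
-/

set_option autoImplicit false

open Finset

namespace Pool.Agent.Lib.MP_4e7804_co.Av

namespace ThN

private theorem Mpos (Q : Pm) : 1 ≤ Q.M := by
  unfold Pm.M
  omega

private theorem pow_le (Q : Pm) {i : ℕ} (hi : i < Q.κ) : Q.M ^ i ≤ Q.M ^ Q.κ :=
  Nat.pow_le_pow_right (Mpos Q) hi.le

private theorem BM_lt (Q : Pm) : Q.B * Q.M ^ Q.κ < Q.L := by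
  have h1 : 0 < Q.M ^ Q.κ := Nat.pow_pos (Mpos Q)
  unfold Pm.L Pm.S
  nlinarith

private theorem a_le (Q : Pm) (hQ : Q.Ok) {i : ℕ} (hi : i < Q.κ) : Q.a i ≤ Q.B := by
  have h1 := hQ.aG i hi
  have h2 := hQ.v_le i hi
  have h3 : Q.a i * 1 ≤ Q.a i * Q.G i := Nat.mul_le_mul_left _ (hQ.G_pos i hi)
  omega

/-- a digit at most `B` is smaller than `L` -/
private theorem dig_lt (Q : Pm) {i t : ℕ} (hi : i < Q.κ) (ht : t ≤ Q.B) :
    t * Q.M ^ i < Q.L :=
  lt_of_le_of_lt (Nat.mul_le_mul ht (pow_le Q hi)) (BM_lt Q)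

private theorem cl_mul_le (Q : Pm) (i y : ℕ) : Q.a i * Q.cl i y ≤ y := by
  have h1 : Q.cl i y ≤ y / Q.a i := min_le_left _ _
  exact (Nat.mul_le_mul_left _ h1).trans (Nat.mul_div_le _ _)

private theorem th_succ (Q : Pm) (hQ : Q.Ok) {i : ℕ} (hi : i < Q.κ) (y : ℕ) :
    Q.th i y < Q.th i (y + 1) := by
  have ha : 0 < Q.a i := hQ.a_pos i hi
  have hM : 0 < Q.M ^ i := Nat.pow_pos (Mpos Q)
  have hc := cl_mul_le Q i y
  by_cases h : Q.cl i (y + 1) = Q.cl i y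
  · unfold Pm.th
    rw [h]
    have h1 : (y - Q.a i * Q.cl i y) < (y + 1 - Q.a i * Q.cl i y) := by omega
    have h2 := Nat.mul_lt_mul_of_pos_right h1 hM
    omega
  · have h1 : (y + 1) / Q.a i = y / Q.a i + 1 ∧ y / Q.a i + 1 ≤ Q.G i - 1 := by
      have h2 : (y + 1) / Q.a i = y / Q.a i + if Q.a i ∣ y + 1 then 1 else 0 := Nat.succ_div
      by_cases h3 : Q.a i ∣ y + 1
      · rw [if_pos h3] at h2
        refine ⟨h2, ?_⟩
        by_contra h4
        apply h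
        unfold Pm.cl
        rw [h2, min_eq_right (by omega), min_eq_right (by omega)]
      · rw [if_neg h3, add_zero] at h2
        exact absurd (by unfold Pm.cl; rw [h2]) h
    have h2 : Q.cl i (y + 1) = y / Q.a i + 1 := by
      unfold Pm.cl
      rw [h1.1, min_eq_left h1.2]
    have h3 : Q.cl i y = y / Q.a i := by
      unfold Pm.cl
      rw [min_eq_left (by omega)]
    have h4 : y - Q.a i * Q.cl i y ≤ Q.B := by
      rw [h3]
      have h5 := Nat.div_add_mod y (Q.a i)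
      have h6 := Nat.mod_lt y ha
      have h7 := a_le Q hQ hi
      omega
    have h5 := dig_lt Q hi h4
    calc Q.th i y = Q.L * (Q.cl i y + 1) + (y - Q.a i * Q.cl i y) * Q.M ^ i := rfl
      _ < Q.L * (Q.cl i y + 1) + Q.L := by omega
      _ = Q.L * (Q.cl i (y + 1) + 1) := by rw [h2, h3]; ring
      _ ≤ Q.th i (y + 1) := Nat.le_add_right _ _

private theorem th_rng (Q : Pm) (hQ : Q.Ok) {i : ℕ} (hi : i < Q.κ) {y : ℕ}
    (hy : y + 1 < Q.v i) : Q.L ≤ Q.th i y ∧ Q.th i y < Q.lo i := by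
  have hv := hQ.v_le i hi
  have hG := hQ.G_pos i hi
  have h1 : y - Q.a i * Q.cl i y ≤ Q.B := by omega
  have h2 := dig_lt Q hi h1
  have h3 : Q.cl i y + 1 ≤ Q.G i := by
    have : Q.cl i y ≤ Q.G i - 1 := min_le_right _ _
    omega
  constructor
  · calc Q.L = Q.L * 1 := (mul_one _).symm
      _ ≤ Q.L * (Q.cl i y + 1) := Nat.mul_le_mul_left _ (by omega)
      _ ≤ Q.th i y := Nat.le_add_right _ _
  · have h4 : Q.L * (Q.cl i y + 1) ≤ Q.L * Q.G i := Nat.mul_le_mul_left _ h3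
    calc Q.th i y = Q.L * (Q.cl i y + 1) + (y - Q.a i * Q.cl i y) * Q.M ^ i := rfl
      _ < Q.L * Q.G i + Q.L := by omega
      _ = Q.lo i := by
        unfold Pm.lo
        rw [if_pos hi]
        ring

private theorem th_ex (Q : Pm) (hQ : Q.Ok) {i : ℕ} (hi : i < Q.κ) {c t : ℕ} (hc : 1 ≤ c)
    (hcG : c ≤ Q.G i) (ht : t < Q.a i) :
    ∃ y, y + 1 < Q.v i ∧ Q.th i y = Q.L * c + t * Q.M ^ i := by
  have ha : 0 < Q.a i := hQ.a_pos i hi
  obtain ⟨k, rfl⟩ : ∃ k, c = k + 1 := ⟨c - 1, by omega⟩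
  have h1 : (Q.a i * k + t) / Q.a i = k := by
    rw [Nat.mul_add_div ha, Nat.div_eq_of_lt ht, add_zero]
  have h2 : Q.cl i (Q.a i * k + t) = k := by
    unfold Pm.cl
    rw [h1, min_eq_left (by omega)]
  refine ⟨Q.a i * k + t, ?_, ?_⟩
  · have h3 := hQ.aG i hi
    have h4 : Q.a i * (k + 1) ≤ Q.a i * Q.G i := Nat.mul_le_mul_left _ hcG
    rw [Nat.mul_add, mul_one] at h4
    omega
  · unfold Pm.th
    rw [h2, Nat.add_sub_cancel_left]

end ThN

theorem tTh : StmtTh := by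
  intro Q hQ
  refine ⟨fun i hi => ⟨strictMono_nat_of_lt_succ (ThN.th_succ Q hQ hi),
    fun y hy => ThN.th_rng Q hQ hi hy,
    fun c t hc hcG ht => ThN.th_ex Q hQ hi hc hcG ht⟩, fun c => ?_⟩
  apply strictMono_nat_of_lt_succ
  intro x
  have h1 : 0 < Q.M ^ Q.κ := Nat.pow_pos (ThN.Mpos Q)
  unfold Pm.vt
  have h2 : Q.M ^ Q.κ * (1 + x) < Q.M ^ Q.κ * (1 + (x + 1)) :=
    Nat.mul_lt_mul_of_pos_left (by omega) h1
  omega

end Pool.Agent.Lib.MP_4e7804_co.Av
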