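import Pool.Agent.Lib.MP_4e7804_co.Av.SpecU
import Pool.Agent.Lib.MP_4e7804_co.Up.Latt

/-! MP_4e7804_co, Av, module TieS (helper59): the tie condition in terms of the vertices, with the
variables. -/

set_option autoImplicit false

open Finset

namespace Pool.Agent.Lib.MP_4e7804_co.Av

namespace TieSN

private theorem mem_Mn {d : ℕ} (A : Fin (d + 1) → Finset (Fin d → ℤ))
    (η : Fin (d + 1) → (Fin d → ℤ) → ℝ) (z : Fin (d + 1) → ℝ) (w : Fin d → ℝ) (i : Fin (d + 1))
    (o : Option (Fin d → ℤ)) (ho : o ∈ OO A i)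
    (h : ∀ o' ∈ OO A i, Gp.vl η w z (i, o) ≤ Gp.vl η w z (i, o')) : o ∈ Mn A η z w i := by
  unfold Mn
  rw [Finset.mem_filter]
  exact ⟨ho, h⟩

end TieSN

open TieSN in
theorem tTieS : StmtTieS := by
  classical
  intro d P A _hA hP η hη z w h i
  have hval : ∀ a, Gp.vl (fun i a => (η i a : ℝ)) (fun k => ((w k : ℚ) : ℝ))
      (fun i => ((z i : ℚ) : ℝ)) (i, some a) = ((dot w a + η i a : ℚ) : ℝ) := by
    intro a
    show val (fun i a => (η i a : ℝ)) i a (fun k => ((w k : ℚ) : ℝ)) = _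
    unfold val dot
    push_cast
    congr 1
    exact Finset.sum_congr rfl fun k _ => mul_comm _ _
  have hnone : Gp.vl (fun i a => (η i a : ℝ)) (fun k => ((w k : ℚ) : ℝ))
      (fun i => ((z i : ℚ) : ℝ)) (i, none) = ((z i : ℚ) : ℝ) := rfl
  have hOO : ∀ o : Option (Fin d → ℤ), o ∈ OO A i ↔ o = none ∨ ∃ a ∈ A i, o = some a := by
    intro o
    unfold OO
    cases o with
    | none => simp
    | some a => simp
  have hlat : ∀ a ∈ A i, a ∈ latticePoints (P i) := by
    intro a ha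
    show toReal a ∈ P i
    rw [hP i]
    exact subset_convexHull ℝ _ ⟨a, ha, rfl⟩
  have hmin : ∀ p ∈ latticePoints (P i),
      (∀ q ∈ latticePoints (P i), dot w p + (if p ∈ A i then η i p else 2) ≤
        dot w q + (if q ∈ A i then η i q else 2)) → p ∈ A i := by
    intro p hp hq
    by_contra hpA
    obtain ⟨a, ha, hle⟩ := Latt_below (P i) (A i) (hP i) w p hp
    have h1 := hq a (hlat a ha)
    rw [if_neg hpA, if_pos ha] at h1
    have h2 := (abs_le.1 (hη i a ha)).2
    linarith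
  rcases h i with ⟨p, hp, hpz, hz⟩ | ⟨p, hp, q, hq, hpq, hpq2, hpz, hr⟩
  · have hpA : p ∈ A i := hmin p hp fun q hq => by rw [hpz]; exact hz q hq
    rw [if_pos hpA] at hpz
    have hall : ∀ o' ∈ OO A i, ((z i : ℚ) : ℝ) ≤ Gp.vl (fun i a => (η i a : ℝ))
        (fun k => ((w k : ℚ) : ℝ)) (fun i => ((z i : ℚ) : ℝ)) (i, o') := by
      intro o' ho'
      rcases (hOO o').1 ho' with rfl | ⟨a, ha, rfl⟩
      · exact hnone.symm.le
      · rw [hval]
        have h1 := hz a (hlat a ha)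
        rw [if_pos ha] at h1
        exact_mod_cast h1
    refine Finset.one_lt_card.2 ⟨some p, ?_, none, ?_, by simp⟩
    · refine mem_Mn A _ _ _ i _ ((hOO _).2 (Or.inr ⟨p, hpA, rfl⟩)) fun o' ho' => ?_
      rw [hval, hpz]
      exact hall o' ho'
    · refine mem_Mn A _ _ _ i _ ((hOO _).2 (Or.inl rfl)) fun o' ho' => ?_
      rw [hnone]
      exact hall o' ho'
  · have hpA : p ∈ A i := hmin p hp hr
    have hqA : q ∈ A i := hmin q hq fun r hr' => by rw [← hpq2]; exact hr r hr'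
    rw [if_pos hpA] at hpz hpq2 hr
    rw [if_pos hqA] at hpq2
    have hall : ∀ o' ∈ OO A i, ((dot w p + η i p : ℚ) : ℝ) ≤ Gp.vl (fun i a => (η i a : ℝ))
        (fun k => ((w k : ℚ) : ℝ)) (fun i => ((z i : ℚ) : ℝ)) (i, o') := by
      intro o' ho'
      rcases (hOO o').1 ho' with rfl | ⟨a, ha, rfl⟩
      · rw [hnone]
        exact_mod_cast hpz
      · rw [hval]
        have h1 := hr a (hlat a ha)
        rw [if_pos ha] at h1
        exact_mod_cast h1
    refine Finset.one_lt_card.2 ⟨some p, ?_, some q, ?_, fun h' => hpq (Option.some.inj h')⟩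
    · refine mem_Mn A _ _ _ i _ ((hOO _).2 (Or.inr ⟨p, hpA, rfl⟩)) fun o' ho' => ?_
      rw [hval]
      exact hall o' ho'
    · refine mem_Mn A _ _ _ i _ ((hOO _).2 (Or.inr ⟨q, hqA, rfl⟩)) fun o' ho' => ?_
      rw [hval, ← hpq2]
      exact hall o' ho'

end Pool.Agent.Lib.MP_4e7804_co.Av
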