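import Pool.Agent.Lib.MP_4e7804_co.Av.SpecU
import Pool.Agent.Lib.MP_4e7804_co.Up.Latt
import Pool.Agent.Lib.MP_4e7804_co.Up.Trop

/-!
# MP_4e7804_co, Av/Upp: the upper bound for `V_n(v)` for every vector `v`
-/

set_option autoImplicit false

open Finset

namespace Pool.Agent.Lib.MP_4e7804_co.Av

namespace UppN

private theorem prod_erase {d : ℕ} (v : Fin (d + 1) → ℕ) (j : Fin (d + 1)) :
    ∏ k : Fin d, v (j.succAbove k) = ∏ i ∈ univ.erase j, v i := by
  rw [← Finset.compl_singleton, ← Fin.image_succAbove_univ,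
    Finset.prod_image (fun a _ b _ h => Fin.succAbove_right_injective h)]

end UppN

theorem tUpp (hEtaU : StmtEtaU) (hCntU : StmtCntU) (hExpU : StmtExpU) (hTieS : StmtTieS) :
    StmtUpp := by
  intro d m
  obtain ⟨C, hC⟩ := hCntU d m
  refine ⟨C, fun v j hv N hvN => ?_⟩
  obtain ⟨P, c, F, hP, hvP, hc, hF, hN⟩ := hvN
  have hex := fun i => exists_vertices (P i) (hP i)
  choose hfin hne A hA hcard hPA using hex
  have hAv : ∀ i, (A i).card = v i := fun i => (hcard i).trans (hvP i)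
  obtain ⟨η, P₁, P₂, hη, hfnl⟩ := hEtaU d A j
  obtain ⟨ϕ, hϕ⟩ := trop_subset P hfin hne c hc F hF (fun i p => if p ∈ A i then η i p else 2)
  have hHT : HTs A (fun i a => (η i a : ℝ)) F.support ϕ := by
    intro z hz
    obtain ⟨w, hw⟩ := hϕ z hz
    exact ⟨fun k => ((w k : ℚ) : ℝ), hTieS d P A hA hPA η hη z w hw⟩
  have h1 := hC A (fun i a => (η i a : ℝ)) j P₁ P₂ hfnl
    (fun k => by rw [hAv]; exact hv _ (Fin.succAbove_ne j k)) F.support ϕ hHT
  have h2 := hExpU d F.support ϕ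
  have h3 : ∏ k : Fin d, (A (j.succAbove k)).card = ∏ i ∈ univ.erase j, v i := by
    rw [← UppN.prod_erase v j]
    exact Finset.prod_congr rfl fun k _ => hAv _
  rw [hAv, h3] at h1
  rw [← hN]
  exact h2.trans h1

end Pool.Agent.Lib.MP_4e7804_co.Av
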