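import Pool.Agent.Lib.MP_4e7804_co.Av.SpecL
import Pool.Agent.Lib.MP_4e7804_co.Lo.NumV
import Pool.Agent.Lib.MP_4e7804_co.Lo.Hull

/-! # MP_4e7804_co, Av, module Vtx: the vertices of the construction -/

set_option autoImplicit false

open Finset

namespace Pool.Agent.Lib.MP_4e7804_co.Av

namespace VtxN

/-- the weight near the place `c`, with the offset `s` -/
private def wq (Q : Pm) (c : ℕ) (s : ℚ) : ℕ → ℚ := fun l =>
  if l = Q.D then 1 else if l = c then (Q.lo c : ℚ) + s else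
    if l < Q.κ then (Q.L : ℚ) * Q.g c l else (Q.M : ℚ) ^ Q.κ

private theorem M_pos (Q : Pm) : (1 : ℚ) ≤ (Q.M : ℚ) ^ Q.κ := by
  have h : (1 : ℚ) ≤ (Q.M : ℚ) := by
    unfold Pm.M
    push_cast
    have : (0 : ℚ) ≤ (Q.B : ℚ) := Nat.cast_nonneg _
    linarith
  exact one_le_pow₀ h

private theorem S_eq (Q : Pm) : (Q.S : ℚ) = ((Q.B : ℚ) + 2) * (Q.M : ℚ) ^ Q.κ := by
  unfold Pm.S
  push_cast
  ring

private theorem κ_le (Q : Pm) : Q.κ ≤ Q.D := Nat.le_add_right _ _

private theorem near (Q : Pm) (h : Q.Ok) {c : ℕ} (hc : c ≤ Q.D) (hb : 1 ≤ Q.b c) {s : ℚ}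
    (h0 : 0 ≤ s) (hs : s ≤ Q.S) : Q.Near c (wq Q c s) := by
  have hκ := κ_le Q
  have hM := M_pos Q
  have hS := S_eq Q
  have hB : (0 : ℚ) ≤ (Q.B : ℚ) := Nat.cast_nonneg _
  have hMS : (Q.M : ℚ) ^ Q.κ ≤ Q.S := by
    rw [hS]
    nlinarith
  refine ⟨?_, ?_, ?_⟩
  · unfold wq
    rw [if_pos rfl]
  · intro i hi
    have hiD : i ≠ Q.D := by omega
    unfold wq
    rw [if_neg hiD]
    by_cases hic : i = c
    · subst hic
      have hg := h.g_self i hi hb
      rw [if_pos rfl]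
      have e : ((Q.lo i : ℕ) : ℚ) = (Q.L : ℚ) * Q.g i i := by
        unfold Pm.lo
        rw [if_pos hi, hg]
        push_cast
        ring
      rw [e]
      constructor <;> linarith
    · rw [if_neg hic, if_pos hi]
      constructor <;> linarith
  · intro l hl hlD
    unfold wq
    rw [if_neg (by omega)]
    by_cases hlc : l = c
    · subst hlc
      rw [if_pos rfl]
      have e : ((Q.lo l : ℕ) : ℚ) = 0 := by
        unfold Pm.lo
        rw [if_neg (by omega)]
        simp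
      rw [e]
      constructor <;> linarith
    · rw [if_neg hlc, if_neg (by omega)]
      constructor
      · linarith
      · exact hMS

private theorem not_fr (Q : Pm) (h : Q.Ok) {c : ℕ} (hb : 1 ≤ Q.b c) :
    c ∉ Q.fr c := by
  unfold Pm.fr
  rw [mem_filter, mem_range]
  rintro ⟨h1, h2⟩
  rw [h.g_self c h1 hb] at h2
  omega

private theorem om_wq (Q : Pm) (h : Q.Ok) {c : ℕ} (hc : c < Q.D) (hb : 1 ≤ Q.b c) (s : ℚ) :
    Q.om c (wq Q c s) = (Q.lo c : ℚ) + s + Q.L * ∑ i ∈ Q.fr c, (Q.g c i : ℚ) := by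
  have hκ := κ_le Q
  unfold Pm.om
  have e1 : wq Q c s c = (Q.lo c : ℚ) + s := by
    unfold wq
    rw [if_neg (by omega), if_pos rfl]
  have e2 : ∑ i ∈ Q.fr c, wq Q c s i = Q.L * ∑ i ∈ Q.fr c, (Q.g c i : ℚ) := by
    rw [mul_sum]
    refine sum_congr rfl fun i hi => ?_
    have hic : i ≠ c := by
      rintro rfl
      exact not_fr Q h hb hi
    have hiκ : i < Q.κ := mem_range.1 (mem_filter.1 hi).1
    unfold wq
    rw [if_neg (by omega), if_neg hic, if_pos hiκ]
  rw [e1, e2]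

private theorem vt_eq (Q : Pm) (c y : ℕ) :
    ((Q.vt c y : ℕ) : ℚ) = (Q.lo c : ℚ) + Q.L * ∑ i ∈ Q.fr c, (Q.g c i : ℚ) +
      (Q.M : ℚ) ^ Q.κ * (1 + y) := by
  unfold Pm.vt
  push_cast
  ring

private theorem big_min (hMinB : StmtMinB) (Q : Pm) (K : ℚ) (N : ℤ) (h : Q.Ok) (hK : KB Q K)
    (hN : 2 * K < N) {c x : ℕ} (hc : c ≤ Q.D) (hx : x < Q.b c) :
    ∃ w : Fin (Q.D + 1) → ℚ, ∀ p ∈ latticePoints (Q.conf N 0), p ≠ Q.big N c x →
      dot w (Q.big N c x) < dot w p := by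
  have hM := M_pos Q
  have hS := S_eq Q
  have hb : 1 ≤ Q.b c := by omega
  have hxB : (x : ℚ) + 1 ≤ Q.B := by
    have := h.b_le c hc
    exact_mod_cast (show x + 1 ≤ Q.B by omega)
  have hx0 : (0 : ℚ) ≤ (x : ℚ) := Nat.cast_nonneg _
  have hs0 : (0 : ℚ) ≤ (Q.M : ℚ) ^ Q.κ * ((x : ℚ) + 1 / 2) := by positivity
  have hs1 : (Q.M : ℚ) ^ Q.κ * ((x : ℚ) + 1 / 2) ≤ Q.S := by
    rw [hS, mul_comm]
    exact mul_le_mul_of_nonneg_right (by linarith) (by linarith)
  have hn := near Q h hc hb hs0 hs1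
  refine ⟨Q.wv (wq Q c ((Q.M : ℚ) ^ Q.κ * ((x : ℚ) + 1 / 2))), ?_⟩
  refine (hMinB Q K N h hK hN c hc hb _ hn).1 x hx ?_ ?_
  · intro y hy
    have hcD : c < Q.D := by
      rcases Nat.lt_or_ge c Q.D with h1 | h1
      · exact h1
      · have : c = Q.D := by omega
        rw [this, h.bD] at hx
        omega
    rw [om_wq Q h hcD hb, vt_eq]
    have : (y : ℚ) + 1 ≤ x := by exact_mod_cast hy
    nlinarith
  · intro y hy hy1
    have hcD : c < Q.D := by
      rcases Nat.lt_or_ge c Q.D with h1 | h1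
      · exact h1
      · have : c = Q.D := by omega
        rw [this, h.bD] at hy1
        omega
    rw [om_wq Q h hcD hb, vt_eq]
    have : (x : ℚ) ≤ y := by exact_mod_cast hy
    nlinarith

/-- the numbers `x + 1` are small compared with `N` -/
private theorem x_le (Q : Pm) (K : ℚ) (N : ℤ) (h : Q.Ok) (hK : KB Q K)
    (hN : 2 * K < N) {c x : ℕ} (hc : c ≤ Q.D) (hx : x < Q.b c) : (x : ℤ) + 1 ≤ N := by
  have hM := M_pos Q
  have hS := S_eq Q
  have hb : 1 ≤ Q.b c := by omega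
  have hK0 := hK.1
  have hB : (0 : ℚ) ≤ (Q.B : ℚ) := Nat.cast_nonneg _
  have hS1 : (1 : ℚ) ≤ Q.S := by
    rw [hS]
    nlinarith
  rcases Nat.lt_or_ge c Q.D with hcD | hcD
  · have hn0 := near Q h hc hb le_rfl (by linarith : (0 : ℚ) ≤ Q.S)
    have hn1 := near Q h hc hb (by linarith : (0 : ℚ) ≤ Q.S) (le_refl (Q.S : ℚ))
    have h0 := hK.2 c hc _ hn0 c hc x hx
    have h1 := hK.2 c hc _ hn1 c hc x hx
    rw [abs_lt] at h0 h1
    unfold Pm.lc at h0 h1
    rw [om_wq Q h hcD hb] at h0 h1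
    have h2 : ((x : ℚ) + 1) * Q.S < 2 * K := by nlinarith [h0.2, h1.1]
    have hx0 : (0 : ℚ) ≤ (x : ℚ) := Nat.cast_nonneg _
    have h3 : (x : ℚ) + 1 ≤ ((x : ℚ) + 1) * Q.S := by nlinarith
    have h4 : (x : ℚ) + 1 < N := by linarith
    have h5 : ((x : ℤ) : ℚ) + 1 < N := by exact_mod_cast h4
    have h6 : (x : ℤ) + 1 < N := by exact_mod_cast h5
    exact h6.le
  · have e : c = Q.D := by omega
    rw [e, h.bD] at hx
    have hx0 : x = 0 := by omega
    subst hx0
    have h4 : (0 : ℚ) < N := by linarith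
    have h5 : (0 : ℤ) < N := by exact_mod_cast h4
    have h6 : ((0 : ℕ) : ℤ) + 1 ≤ N := by
      rw [Nat.cast_zero]
      omega
    exact h6

private theorem Om_nonneg (Q : Pm) (c l : ℕ) : 0 ≤ Q.Om c l := by
  unfold Pm.Om
  split_ifs <;> simp

private theorem Om_le (Q : Pm) (h : Q.Ok) {c l : ℕ} (hb : 1 ≤ Q.b c) : Q.Om c l ≤ 1 := by
  unfold Pm.Om
  by_cases hlc : l = c
  · subst hlc
    rw [if_pos rfl, if_neg (not_fr Q h hb)]
    norm_num
  · rw [if_neg hlc]
    split_ifs <;> simp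

private theorem big_inj (Q : Pm) (K : ℚ) (N : ℤ) (h : Q.Ok) (hK : KB Q K)
    (hN : 2 * K < N) {c x c' x' : ℕ} (hc : c ≤ Q.D) (hx : x < Q.b c) (hc' : c' ≤ Q.D)
    (hx' : x' < Q.b c') (he : Q.big N c x = Q.big N c' x') : c = c' ∧ x = x' := by
  have hκ := κ_le Q
  have hb : 1 ≤ Q.b c := by omega
  have hb' : 1 ≤ Q.b c' := by omega
  have hcc : c = c' := by
    by_contra hne
    obtain ⟨i, hi, hg⟩ := h.g_ne c hc c' hc' hne hb hb'
    have h1 := congrFun he ⟨i, by omega⟩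
    unfold Pm.big at h1
    simp only at h1
    rw [if_pos hi, if_pos hi, if_neg (by omega : i ≠ Q.D), if_neg (by omega : i ≠ Q.D)] at h1
    have hN1 := x_le Q K N h hK hN hc hx
    have hN2 := x_le Q K N h hK hN hc' hx'
    have hx0 : (0 : ℤ) ≤ (x : ℤ) := Int.natCast_nonneg _
    have hx0' : (0 : ℤ) ≤ (x' : ℤ) := Int.natCast_nonneg _
    have a1 : 0 ≤ ((x : ℤ) + 1) * Q.Om c i := mul_nonneg (by omega) (Om_nonneg Q c i)
    have a2 : 0 ≤ ((x' : ℤ) + 1) * Q.Om c' i := mul_nonneg (by omega) (Om_nonneg Q c' i)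
    have a3 : ((x : ℤ) + 1) * Q.Om c i ≤ N := by
      have := Om_le Q h (l := i) hb
      nlinarith
    have a4 : ((x' : ℤ) + 1) * Q.Om c' i ≤ N := by
      have := Om_le Q h (l := i) hb'
      nlinarith
    have hNpos : 0 < N := by omega
    rcases Nat.lt_or_gt_of_ne hg with h2 | h2
    · have h3 : (Q.g c i : ℤ) + 1 ≤ Q.g c' i := by exact_mod_cast h2
      nlinarith
    · have h3 : (Q.g c' i : ℤ) + 1 ≤ Q.g c i := by exact_mod_cast h2
      nlinarith
  subst hcc
  refine ⟨rfl, ?_⟩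
  rcases Nat.lt_or_ge c Q.D with hcD | hcD
  · have h1 := congrFun he ⟨c, by omega⟩
    unfold Pm.big at h1
    simp only at h1
    rw [if_neg (by omega : c ≠ Q.D), if_neg (by omega : c ≠ Q.D)] at h1
    have hOm : Q.Om c c = 1 := by
      unfold Pm.Om
      rw [if_pos rfl, if_neg (not_fr Q h hb)]
      norm_num
    rw [hOm] at h1
    have h2 : (x : ℤ) = x' := by linarith
    exact_mod_cast h2
  · have e : c = Q.D := by omega
    rw [e, h.bD] at hx hx'
    omega

private theorem bigS_card (Q : Pm) (K : ℚ) (N : ℤ) (h : Q.Ok) (hK : KB Q K)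
    (hN : 2 * K < N) : (Q.bigS N).card = ∑ c ∈ range (Q.D + 1), Q.b c := by
  unfold Pm.bigS
  rw [card_biUnion]
  · refine sum_congr rfl fun c hc => ?_
    have hc' : c ≤ Q.D := by
      have := mem_range.1 hc
      omega
    rw [card_image_of_injOn, card_range]
    intro x hx y hy hxy
    exact (big_inj Q K N h hK hN hc' (mem_range.1 (mem_coe.1 hx)) hc'
      (mem_range.1 (mem_coe.1 hy)) hxy).2
  · intro c hc c' hc' hne
    show Disjoint (image (Q.big N c) (range (Q.b c))) (image (Q.big N c') (range (Q.b c')))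
    rw [disjoint_left]
    intro p hp hp'
    obtain ⟨x, hx, rfl⟩ := mem_image.1 hp
    obtain ⟨x', hx', he⟩ := mem_image.1 hp'
    have h1 : c ≤ Q.D := by
      have := mem_range.1 hc
      omega
    have h2 : c' ≤ Q.D := by
      have := mem_range.1 hc'
      omega
    exact hne (big_inj Q K N h hK hN h1 (mem_range.1 hx) h2 (mem_range.1 hx') he.symm).1

private theorem sml_min (hDt : StmtDt) (hTh : StmtTh) (hLab : Tl.StmtLab) (Q : Pm) (h : Q.Ok)
    {i x : ℕ} (hi : i < Q.κ) (hx : x < Q.v i) :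
    ∃ w : Fin (Q.D + 1) → ℚ, ∀ k < Q.v i, k ≠ x → dot w (Q.sml i x) < dot w (Q.sml i k) := by
  have hκ := κ_le Q
  have hmono : StrictMono (Q.th i) := ((hTh Q h).1 i hi).1
  let t : ℚ := (Q.th i x : ℚ) - 1 / 2
  let w : ℕ → ℚ := fun l => if l = Q.D then 1 else t
  have hwD : w Q.D = 1 := if_pos rfl
  have hwi : w i = t := if_neg (by omega)
  have hd := fun k => (hDt Q 0 w hwD).2.1 i hi k
  refine ⟨Q.wv w, fun k hk hkx => ?_⟩
  have h1 := (hLab (fun k => (Q.th i k : ℝ)) (fun k => ((Q.sF i k w : ℚ) : ℝ)) (t : ℝ)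
    (fun a b hab => Nat.cast_lt.2 (hmono hab)) (fun k => by
      have e : Q.sF i (k + 1) w = Q.sF i k w + ((Q.th i k : ℚ) - t) := by
        unfold Pm.sF
        rw [sum_range_succ, hwi]
        push_cast
        ring
      show ((Q.sF i (k + 1) w : ℚ) : ℝ) = ((Q.sF i k w : ℚ) : ℝ) + ((Q.th i k : ℝ) - (t : ℝ))
      rw [e]
      push_cast
      ring)).2.1 (Q.v i) x hx (fun y hy => by
      have h2 : Q.th i y + 1 ≤ Q.th i x := hmono hy
      have h3 : ((Q.th i y : ℕ) : ℝ) + 1 ≤ Q.th i x := by exact_mod_cast h2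
      show (Q.th i y : ℝ) < (((Q.th i x : ℚ) - 1 / 2 : ℚ) : ℝ)
      push_cast
      linarith) (fun y hy _ => by
      have h2 : Q.th i x ≤ Q.th i y := hmono.monotone hy
      have h3 : ((Q.th i x : ℕ) : ℝ) ≤ Q.th i y := by exact_mod_cast h2
      show (((Q.th i x : ℚ) - 1 / 2 : ℚ) : ℝ) < (Q.th i y : ℝ)
      push_cast
      linarith) k hk hkx
  rw [hd x, hd k]
  exact_mod_cast h1

private theorem sml_inj (Q : Pm) {i x x' : ℕ} (hi : i < Q.κ) (he : Q.sml i x = Q.sml i x') :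
    x = x' := by
  have hκ := κ_le Q
  have h1 := congrFun he ⟨i, by omega⟩
  unfold Pm.sml at h1
  simp only at h1
  rw [if_pos trivial, if_neg (by omega : i ≠ Q.D), if_pos trivial,
    if_neg (by omega : i ≠ Q.D)] at h1
  have h2 : (x : ℤ) = x' := by linarith
  exact_mod_cast h2

private theorem facts (hDt : StmtDt) (hTh : StmtTh) (hMinB : StmtMinB) (hLab : Tl.StmtLab)
    (Q : Pm) (K : ℚ) (N : ℤ) (h : Q.Ok) (hK : KB Q K) (hN : 2 * K < N)
    (i : Fin (Q.D + 1 + 1)) : (Q.sets N i).Nonempty ∧ (Q.sets N i).card = Q.vec i ∧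
      ∀ a ∈ Q.sets N i, ∃ w : Fin (Q.D + 1) → ℚ, ∀ a' ∈ Q.sets N i, a' ≠ a →
        dot w a < dot w a' := by
  refine Fin.cases ?_ (fun l => ?_) i
  · have e : Q.sets N 0 = Q.bigS N := rfl
    have e' : Q.vec 0 = ∑ c ∈ range (Q.D + 1), Q.b c := rfl
    refine ⟨?_, ?_, ?_⟩
    · refine ⟨Q.big N Q.D 0, ?_⟩
      rw [e]
      unfold Pm.bigS
      refine mem_biUnion.2 ⟨Q.D, mem_range.2 (by omega), mem_image.2 ⟨0, ?_, rfl⟩⟩
      rw [h.bD]
      exact mem_range.2 (by omega)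
    · rw [e, e', bigS_card Q K N h hK hN]
    · intro a ha
      have ha' := ha
      rw [e] at ha'
      unfold Pm.bigS at ha'
      obtain ⟨c, hc, hcx⟩ := mem_biUnion.1 ha'
      obtain ⟨x, hx, rfl⟩ := mem_image.1 hcx
      have hc' : c ≤ Q.D := by
        have := mem_range.1 hc
        omega
      obtain ⟨w, hw⟩ := big_min hMinB Q K N h hK hN hc' (mem_range.1 hx)
      exact ⟨w, fun a' ha' hne => hw a' (subset_latticePoints_hull _ ha') hne⟩
  · have e : Q.sets N l.succ =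
        if l.val < Q.κ then (range (Q.v l)).image (Q.sml l) else {Pi.single l 1} := rfl
    have e' : Q.vec l.succ = if l.val < Q.κ then Q.v l else 1 := rfl
    rw [e, e']
    split_ifs with hl
    · have hv : 2 ≤ Q.v l := by
        have h1 := h.a_pos _ hl
        have h2 := h.G_pos _ hl
        have h3 := h.aG _ hl
        have h4 : 1 ≤ Q.a l * Q.G l := Nat.mul_pos h1 h2
        omega
      refine ⟨(nonempty_range_iff.2 (by omega)).image _, ?_, ?_⟩
      · rw [card_image_of_injOn, card_range]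
        intro x _ y _ hxy
        exact sml_inj Q hl hxy
      · intro a ha
        obtain ⟨x, hx, rfl⟩ := mem_image.1 ha
        obtain ⟨w, hw⟩ := sml_min hDt hTh hLab Q h hl (mem_range.1 hx)
        refine ⟨w, fun a' ha' hne => ?_⟩
        obtain ⟨k, hk, rfl⟩ := mem_image.1 ha'
        exact hw k (mem_range.1 hk) fun hkx => hne (by rw [hkx])
    · refine ⟨singleton_nonempty _, card_singleton _, ?_⟩
      intro a ha
      rw [mem_singleton] at ha
      subst ha
      refine ⟨0, fun a' ha' hne => ?_⟩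
      exact absurd (mem_singleton.1 ha') hne

end VtxN

theorem tVtx (hDt : StmtDt) (hTh : StmtTh) (hMinB : StmtMinB) (hLab : Tl.StmtLab) : StmtVtx := by
  intro Q K N h hK hN
  have hf := VtxN.facts hDt hTh hMinB hLab Q K N h hK hN
  refine ⟨fun i => ⟨Q.sets N i, (hf i).1, rfl⟩, fun i => ?_, fun i => ?_, fun i a ha => ?_⟩
  · rw [← (hf i).2.1]
    exact numVertices_hull _ (hf i).2.2
  · exact latticePoints_hull_finite _
  · exact subset_latticePoints_hull _ ha

end Pool.Agent.Lib.MP_4e7804_co.Av
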