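import Pool.Agent.Lib.MP_4e7804_co.Av.ActU
import Pool.Agent.Lib.MP_4e7804_co.Av.Avd
import Pool.Agent.Lib.MP_4e7804_co.Av.Bx
import Pool.Agent.Lib.MP_4e7804_co.Av.CA
import Pool.Agent.Lib.MP_4e7804_co.Av.CB
import Pool.Agent.Lib.MP_4e7804_co.Av.CntU
import Pool.Agent.Lib.MP_4e7804_co.Av.Core
import Pool.Agent.Lib.MP_4e7804_co.Av.Dig
import Pool.Agent.Lib.MP_4e7804_co.Av.Dt
import Pool.Agent.Lib.MP_4e7804_co.Av.EtaU
import Pool.Agent.Lib.MP_4e7804_co.Av.ExF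
import Pool.Agent.Lib.MP_4e7804_co.Av.ExpU
import Pool.Agent.Lib.MP_4e7804_co.Av.FinA
import Pool.Agent.Lib.MP_4e7804_co.Av.Gap
import Pool.Agent.Lib.MP_4e7804_co.Av.InjU
import Pool.Agent.Lib.MP_4e7804_co.Av.Kb
import Pool.Agent.Lib.MP_4e7804_co.Av.LemM
import Pool.Agent.Lib.MP_4e7804_co.Av.Low
import Pool.Agent.Lib.MP_4e7804_co.Av.LowC
import Pool.Agent.Lib.MP_4e7804_co.Av.MinB
import Pool.Agent.Lib.MP_4e7804_co.Av.MinS
import Pool.Agent.Lib.MP_4e7804_co.Av.Seg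
import Pool.Agent.Lib.MP_4e7804_co.Av.Sh1
import Pool.Agent.Lib.MP_4e7804_co.Av.Sh2
import Pool.Agent.Lib.MP_4e7804_co.Av.Srt
import Pool.Agent.Lib.MP_4e7804_co.Av.Sys
import Pool.Agent.Lib.MP_4e7804_co.Av.Th
import Pool.Agent.Lib.MP_4e7804_co.Av.TieS
import Pool.Agent.Lib.MP_4e7804_co.Av.Upp
import Pool.Agent.Lib.MP_4e7804_co.Av.Vtx
import Pool.Agent.Lib.MP_4e7804_co.Gp.All
import Pool.Agent.Lib.MP_4e7804_co.Tl.All

/-! MP_4e7804_co: the order of growth of `V_n(v)` for every `v`. -/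

set_option autoImplicit false

namespace Pool.Agent.Lib.MP_4e7804_co.Av

theorem tAllCore : StmtCore :=
  tCore tKb (tVtx tDt tTh (tMinB tDt tTh tGap Tl.tLab) Tl.tLab) (tExF tTh (tMinS tDt tTh Tl.tLab))
    (tSh1 tDt tTh (tMinB tDt tTh tGap Tl.tLab) (tMinS tDt tTh Tl.tLab))
    (tSh2 tDt tTh (tMinB tDt tTh tGap Tl.tLab) (tMinS tDt tTh Tl.tLab)) tDig tBx

theorem tAllLow : StmtLow :=
  tLow (tLowC (tCA tAllCore) (tCB tAllCore)) tSrt Tl.tPerm Tl.tAllLower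

theorem tAllUpp : StmtUpp :=
  tUpp (tEtaU Gp.tMom)
    (tCntU tAvd (tInjU tSeg) (tActU (tLemM Gp.tMom) tSys) tSys) tExpU tTieS

end Pool.Agent.Lib.MP_4e7804_co.Av
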