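import Pool.Agent.Lib.MP_4e7804_co.Tl.Defs
import Pool.Agent.Lib.MP_4e7804_co.Gp.Defs

/-!
# MP_4e7804_co: the order of growth of `V_n(v)` for every vector `v`: definitions

Part 1: the polytopes of the lower bound (at least two of the `v i` are equal to `1`).
Part 2: the upper bound when the product of all `v i`, `i ≠ j`, is smaller than `n - 2`.
-/

set_option autoImplicit false

open Finset

namespace Pool.Agent.Lib.MP_4e7804_co.Av

/-! ### Part 1 -/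

/-- The parameters of the construction. The colours are: the big colour (index `0`), the `κ` small
colours (index `i + 1`, `i < κ`, `v i` vertices), and `μ + 1` points (index `i + 1`, `κ ≤ i ≤ κ + μ`).
`D = κ + μ`, the polytopes are in `ℝ^(D+1)`, the last coordinate is the homogenizing one. The walls
of the small colour `i` come in `G i` clusters, every cluster has at least `a i` walls. The vertices
of the big colour come in families `c ≤ D`, the family `c` has `b c` vertices and lives near the grid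
position `g c`. `B` is an upper bound for the `v i` and the `b c`. -/
structure Pm where
  /-- the number of small colours -/
  κ : ℕ
  /-- the number of points, minus one -/
  μ : ℕ
  /-- the numbers of vertices of the small colours -/
  v : ℕ → ℕ
  /-- the number of walls in a cluster -/
  a : ℕ → ℕ
  /-- the number of clusters -/
  G : ℕ → ℕ
  /-- the grid position of the family `c` -/
  g : ℕ → ℕ → ℕ
  /-- the number of vertices of the family `c` -/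
  b : ℕ → ℕ
  /-- a bound -/
  B : ℕ

namespace Pm

variable (Q : Pm)

/-- `D = n - 2` -/
def D : ℕ := Q.κ + Q.μ

/-- the base of the digits -/
def M : ℕ := Q.B + 1

/-- the diameter of the clusters -/
def S : ℕ := (Q.B + 2) * Q.M ^ Q.κ

/-- the distance of the clusters -/
def L : ℕ := 2 * Q.S + 1

/-- the number of the cluster of the wall number `y`, minus one -/
def cl (i y : ℕ) : ℕ := min (y / Q.a i) (Q.G i - 1)

/-- the position of the wall number `y` (between the vertices `y` and `y + 1`) of the small colour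
`i` -/
def th (i y : ℕ) : ℕ := Q.L * (Q.cl i y + 1) + (y - Q.a i * Q.cl i y) * Q.M ^ i

/-- the constant term of the last vertex of the small colour `i` -/
def be (i : ℕ) : ℕ := if i < Q.κ then ∑ y ∈ range (Q.v i - 1), Q.th i y else 0

/-- the lower end of the range of the (normalized) variable number `l` -/
def lo (l : ℕ) : ℕ := if l < Q.κ then Q.L * (Q.G l + 1) else 0

/-- the small colours which have a tie at the place `c` -/
def fr (c : ℕ) : Finset ℕ := (range Q.κ).filter fun i => Q.g c i ≤ Q.G i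

/-- the position of the wall between the vertices `x` and `x + 1` of the family `c` -/
def vt (c x : ℕ) : ℕ := Q.lo c + Q.L * ∑ i ∈ Q.fr c, Q.g c i + Q.M ^ Q.κ * (1 + x)

/-- the direction of the family `c` -/
def Om (c l : ℕ) : ℤ := (if l = c then 1 else 0) + (if l ∈ Q.fr c then 1 else 0)

/-- the vertex number `x` of the family `c` of the big colour -/
def big (N : ℤ) (c x : ℕ) : Fin (Q.D + 1) → ℤ := fun l =>
  (if l.val < Q.κ then -2 * N * ((Q.g c l : ℤ) - Q.g Q.D l) else 0) - (x + 1) * Q.Om c l +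
    if l.val = Q.D then N * Q.L * (∑ i ∈ range Q.κ, ((Q.g c i : ℤ) ^ 2 - (Q.g Q.D i : ℤ) ^ 2)) +
      ∑ y ∈ range x, (Q.vt c y : ℤ) else 0

/-- the vertex number `x` of the small colour `i` -/
def sml (i x : ℕ) : Fin (Q.D + 1) → ℤ := fun l =>
  (if l.val = i then (Q.v i : ℤ) - x else 0) +
    if l.val = Q.D then ∑ y ∈ range x, (Q.th i y : ℤ) else 0

/-- the vertices of the big colour -/
def bigS (N : ℤ) : Finset (Fin (Q.D + 1) → ℤ) :=
  (range (Q.D + 1)).biUnion fun c => (range (Q.b c)).image (Q.big N c)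

/-- the vertices of all colours -/
def sets (N : ℤ) : Fin (Q.D + 1 + 1) → Finset (Fin (Q.D + 1) → ℤ) :=
  Fin.cons (Q.bigS N) fun l : Fin (Q.D + 1) =>
    if l.val < Q.κ then (range (Q.v l)).image (Q.sml l) else {Pi.single l 1}

/-- the polytopes -/
def conf (N : ℤ) : Fin (Q.D + 1 + 1) → Set (Fin (Q.D + 1) → ℝ) :=
  fun i => convexHull ℝ (toReal '' (Q.sets N i : Set (Fin (Q.D + 1) → ℤ)))

/-- the numbers of vertices -/
def vec : Fin (Q.D + 1 + 1) → ℕ :=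
  Fin.cons (∑ c ∈ range (Q.D + 1), Q.b c) fun l : Fin (Q.D + 1) =>
    if l.val < Q.κ then Q.v l else 1

/-- the direction of the family `c` at `w` -/
def om (c : ℕ) (w : ℕ → ℚ) : ℚ := w c + ∑ i ∈ Q.fr c, w i

/-- the common part of the values of the family `c` -/
def TT (N : ℤ) (c : ℕ) (w : ℕ → ℚ) : ℚ :=
  N * ∑ i ∈ range Q.κ, ((Q.g c i : ℚ) - Q.g Q.D i) *
    (Q.L * ((Q.g c i : ℚ) + Q.g Q.D i) - 2 * w i)

/-- the local part of the value of the vertex number `x` of the family `c` -/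
def lc (c x : ℕ) (w : ℕ → ℚ) : ℚ := -((x : ℚ) + 1) * Q.om c w + ∑ y ∈ range x, (Q.vt c y : ℚ)

/-- the value of the vertex number `x` of the small colour `i` -/
def sF (i x : ℕ) (w : ℕ → ℚ) : ℚ := ((Q.v i : ℚ) - x) * w i + ∑ y ∈ range x, (Q.th i y : ℚ)

/-- the linear form -/
def wv (w : ℕ → ℚ) : Fin (Q.D + 1) → ℚ := fun l => w l

/-- `w` is near the place `c` -/
def Near (c : ℕ) (w : ℕ → ℚ) : Prop :=
  w Q.D = 1 ∧ (∀ i < Q.κ, (Q.L : ℚ) * Q.g c i ≤ w i ∧ w i ≤ (Q.L : ℚ) * Q.g c i + Q.S) ∧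
    ∀ l, Q.κ ≤ l → l < Q.D → 0 ≤ w l ∧ w l ≤ Q.S

/-- the normalized variable number `l` of `y` -/
def yh (y : Fin (Q.D + 1 + 1) → ℚ) (l : ℕ) : ℚ :=
  (if h : l < Q.D + 1 then y ⟨l + 1, by omega⟩ else 0) - Q.be l

/-- the box in which the sheets are parallel to the coordinate hyperplanes -/
def Box (K : ℚ) (y : Fin (Q.D + 1 + 1) → ℚ) : Prop :=
  y (Fin.last _) = 1 ∧ -K < y 0 ∧ y 0 < 0 ∧
    ∀ l < Q.D, (Q.lo l : ℚ) < Q.yh y l ∧ Q.yh y l < (Q.lo l : ℚ) + Q.S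

/-- the conditions on the parameters -/
structure Ok : Prop where
  a_pos : ∀ i < Q.κ, 1 ≤ Q.a i
  G_pos : ∀ i < Q.κ, 1 ≤ Q.G i
  aG : ∀ i < Q.κ, Q.a i * Q.G i + 1 ≤ Q.v i
  v_le : ∀ i < Q.κ, Q.v i ≤ Q.B
  b_le : ∀ c ≤ Q.D, Q.b c ≤ Q.B
  bD : Q.b Q.D = 1
  gD : ∀ i < Q.κ, Q.g Q.D i ≤ Q.G i
  g_pos : ∀ c < Q.D, 1 ≤ Q.b c → ∀ i < Q.κ, 1 ≤ Q.g c i ∧ Q.g c i ≤ Q.G i + 1
  g_self : ∀ c < Q.κ, 1 ≤ Q.b c → Q.g c c = Q.G c + 1
  g_oth : ∀ c < Q.κ, 1 ≤ Q.b c → ∀ i < Q.κ, i ≠ c → Q.g c i ≤ Q.G i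
  g_ne : ∀ c ≤ Q.D, ∀ c' ≤ Q.D, c ≠ c' → 1 ≤ Q.b c → 1 ≤ Q.b c' →
    ∃ i < Q.κ, Q.g c i ≠ Q.g c' i

end Pm

/-- all local parts are smaller than `K` near all places -/
def KB (Q : Pm) (K : ℚ) : Prop :=
  0 < K ∧ ∀ c₀ ≤ Q.D, ∀ w, Q.Near c₀ w → ∀ c ≤ Q.D, ∀ x < Q.b c, |Q.lc c x w| < K

/-- the vector with the big number `b`, the small numbers `v i`, `i < κ`, and `μ + 1` ones -/
def vecC (κ μ b : ℕ) (v : ℕ → ℕ) : Fin (κ + μ + 1 + 1) → ℕ :=
  Fin.cons b fun l : Fin (κ + μ + 1) => if l.val < κ then v l else 1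

/-! ### Part 2 -/

section
variable {d : ℕ}

/-- the labels of the colour `i`: `none` is the variable `z i` -/
def OO (A : Fin (d + 1) → Finset (Fin d → ℤ)) (i : Fin (d + 1)) : Finset (Option (Fin d → ℤ)) :=
  insertNone (A i)

open Classical in
/-- the minimal labels of the colour `i` at `(w, z)` -/
noncomputable def Mn (A : Fin (d + 1) → Finset (Fin d → ℤ)) (η : Fin (d + 1) → (Fin d → ℤ) → ℝ)
    (z : Fin (d + 1) → ℝ) (w : Fin d → ℝ) (i : Fin (d + 1)) : Finset (Option (Fin d → ℤ)) :=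
  (OO A i).filter fun o => ∀ o' ∈ OO A i, Gp.vl η w z (i, o) ≤ Gp.vl η w z (i, o')

/-- all choices of two labels for every colour different from `j` -/
def QQ (A : Fin (d + 1) → Finset (Fin d → ℤ)) (j : Fin (d + 1)) :
    Finset (Fin d → Finset (Option (Fin d → ℤ))) :=
  Fintype.piFinset fun k => (OO A (j.succAbove k)).powersetCard 2

/-- the labels in `q k` have the same value, for all `k` -/
def Eqs (η : Fin (d + 1) → (Fin d → ℤ) → ℝ) (j : Fin (d + 1))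
    (q : Fin d → Finset (Option (Fin d → ℤ))) (z : Fin (d + 1) → ℝ) (w : Fin d → ℝ) : Prop :=
  ∀ k, ∀ o ∈ q k, ∀ o' ∈ q k,
    Gp.vl η w z (j.succAbove k, o) = Gp.vl η w z (j.succAbove k, o')

/-- the equations of `q` determine `w` -/
def Rg (q : Fin d → Finset (Option (Fin d → ℤ))) : Prop :=
  ∀ w : Fin d → ℝ, (∀ k, ∀ o ∈ q k, ∀ o' ∈ q k, Gp.vc o ⬝ᵥ w = Gp.vc o' ⬝ᵥ w) → w = 0

/-- an affine functional -/
def ev (f : (Fin (d + 1) → ℝ) × ℝ) (z : Fin (d + 1) → ℝ) : ℝ := f.1 ⬝ᵥ z + f.2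

/-- `P₁ q` is a nontrivial functional which vanishes where the singular system `q` has a solution;
`P₂ q i o o'` is nontrivial and is the difference of the values of the labels `o, o'` of the colour `i`
at the solution of the regular system `q`. -/
structure IsFnl (A : Fin (d + 1) → Finset (Fin d → ℤ)) (η : Fin (d + 1) → (Fin d → ℤ) → ℝ)
    (j : Fin (d + 1)) (P₁ : (Fin d → Finset (Option (Fin d → ℤ))) → (Fin (d + 1) → ℝ) × ℝ)
    (P₂ : (Fin d → Finset (Option (Fin d → ℤ))) → Fin (d + 1) → Option (Fin d → ℤ) →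
      Option (Fin d → ℤ) → (Fin (d + 1) → ℝ) × ℝ) : Prop where
  ne₁ : ∀ q ∈ QQ A j, ¬ Rg q → (P₁ q).1 ≠ 0 ∨ (P₁ q).2 ≠ 0
  eq₁ : ∀ q ∈ QQ A j, ¬ Rg q → ∀ z w, Eqs η j q z w → ev (P₁ q) z = 0
  ne₂ : ∀ q ∈ QQ A j, Rg q → ∀ i, ∀ o ∈ OO A i, ∀ o' ∈ OO A i, o ≠ o' →
    (∀ k, j.succAbove k = i → o ∉ q k) → (P₂ q i o o').1 ≠ 0 ∨ (P₂ q i o o').2 ≠ 0
  eq₂ : ∀ q ∈ QQ A j, Rg q → ∀ i, ∀ o ∈ OO A i, ∀ o' ∈ OO A i, o ≠ o' →
    (∀ k, j.succAbove k = i → o ∉ q k) → ∀ z w, Eqs η j q z w →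
    Gp.vl η w z (i, o) - Gp.vl η w z (i, o') = ev (P₂ q i o o') z

/-- ties of the weights `ϕ` are ties of all colours -/
def HTs (A : Fin (d + 1) → Finset (Fin d → ℤ)) (η : Fin (d + 1) → (Fin d → ℤ) → ℝ)
    (S : Finset (Fin (d + 1) →₀ ℕ)) (ϕ : (Fin (d + 1) →₀ ℕ) → ℚ) : Prop :=
  ∀ z : Fin (d + 1) → ℚ,
    (∃ α ∈ S, ∃ β ∈ S, α ≠ β ∧
      ϕ α + ∑ i, (α i : ℚ) * z i = ϕ β + ∑ i, (β i : ℚ) * z i ∧
      ∀ γ ∈ S, ϕ α + ∑ i, (α i : ℚ) * z i ≤ ϕ γ + ∑ i, (γ i : ℚ) * z i) →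
    ∃ w : Fin d → ℝ, ∀ i, 2 ≤ (Mn A η (fun i => ((z i : ℚ) : ℝ)) w i).card

/-- the region of `α` -/
def Rgn (S : Finset (Fin (d + 1) →₀ ℕ)) (ϕ : (Fin (d + 1) →₀ ℕ) → ℚ) (α : Fin (d + 1) →₀ ℕ) :
    Set (Fin (d + 1) → ℝ) :=
  {z | ∀ β ∈ S, β ≠ α → (ϕ α : ℝ) + ∑ i, (α i : ℝ) * z i < (ϕ β : ℝ) + ∑ i, (β i : ℝ) * z i}

open Classical in
/-- the regular choices which are realized at `z` -/
noncomputable def Act (A : Fin (d + 1) → Finset (Fin d → ℤ)) (j : Fin (d + 1))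
    (P₂ : (Fin d → Finset (Option (Fin d → ℤ))) → Fin (d + 1) → Option (Fin d → ℤ) →
      Option (Fin d → ℤ) → (Fin (d + 1) → ℝ) × ℝ) (z : Fin (d + 1) → ℝ) :
    Finset (Fin d → Finset (Option (Fin d → ℤ))) :=
  (QQ A j).filter fun q => Rg q ∧ ∀ k, ∀ o ∈ OO A (j.succAbove k), o ∉ q k → ∀ o' ∈ q k,
    0 < ev (P₂ q (j.succAbove k) o o') z

end

end Pool.Agent.Lib.MP_4e7804_co.Av
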