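import Pool.Agent.Lib.MP_4e7804_co.Av.SpecL
import Pool.Agent.Lib.MP_4e7804_co.Lo.Implicit
import Pool.Agent.Lib.MP_4e7804_co.Lo.Indep
import Pool.Agent.Lib.MP_4e7804_co.Lo.Hull

/-! MP_4e7804_co, module Av/ExF: existence of the implicit equation. -/

set_option autoImplicit false

open Finset

namespace Pool.Agent.Lib.MP_4e7804_co.Av

namespace ExFN

/-- The point number `j`. -/
def pt (Q : Pm) (j : Fin (Q.D + 1)) : Fin (Q.D + 1) → ℤ :=
  if j.val < Q.κ then Q.sml j (Q.v j - 1) else Pi.single j 1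

/-- The linear form. -/
def w0 (Q : Pm) (l : ℕ) : ℚ := if l < Q.κ then (Q.lo l : ℚ) else 1

lemma sets_succ (Q : Pm) (N : ℤ) (j : Fin (Q.D + 1)) :
    Q.sets N j.succ = if j.val < Q.κ then (range (Q.v j)).image (Q.sml j) else {Pi.single j 1} := by
  unfold Pm.sets
  rw [Fin.cons_succ]

lemma v_pos (Q : Pm) (hQ : Q.Ok) (i : ℕ) (hi : i < Q.κ) : 1 ≤ Q.v i := by
  have := hQ.aG i hi
  omega

lemma pt_mem (Q : Pm) (hQ : Q.Ok) (N : ℤ) (j : Fin (Q.D + 1)) : pt Q j ∈ Q.sets N j.succ := by
  rw [sets_succ, pt]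
  split_ifs with hj
  · exact mem_image_of_mem _ (mem_range.2 (by have := v_pos Q hQ _ hj; omega))
  · exact mem_singleton_self _

lemma w0_D (Q : Pm) : w0 Q Q.D = 1 := by
  unfold w0
  have : ¬ Q.D < Q.κ := by unfold Pm.D; omega
  rw [if_neg this]

lemma li (Q : Pm) (hQ : Q.Ok) : LinearIndependent ℝ (fun j => toReal (pt Q j)) := by
  set M : Matrix (Fin (Q.D + 1)) (Fin (Q.D + 1)) ℝ :=
    Matrix.of fun j l => toReal (pt Q j) l with hM
  have hD : Q.κ ≤ Q.D := by unfold Pm.D; omega
  have hdet : M.det = 1 := by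
    rw [Matrix.det_of_isUpperTriangular]
    · refine prod_eq_one (fun j _ => ?_)
      rw [hM, Matrix.of_apply]
      unfold toReal pt
      split_ifs with hj
      · have h1 := v_pos Q hQ _ hj
        have h2 : j.val ≠ Q.D := by omega
        simp only [Pm.sml]
        rw [if_pos trivial, if_neg h2]
        push_cast [Nat.cast_sub h1]
        ring
      · simp
    · intro j l hjl
      have hjl' : l < j := hjl
      have hjl2 : l.val < j.val := hjl'
      rw [hM, Matrix.of_apply]
      unfold toReal pt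
      split_ifs with hj
      · have h2 : l.val ≠ Q.D := by omega
        have h3 : l.val ≠ j.val := by omega
        simp only [Pm.sml]
        rw [if_neg h3, if_neg h2]
        simp
      · rw [Pi.single_eq_of_ne (ne_of_lt hjl')]
        simp
  have h1 := Matrix.linearIndependent_rows_of_det_ne_zero (A := M) (by rw [hdet]; exact one_ne_zero)
  exact h1

end ExFN

open ExFN in
theorem tExF (hTh : StmtTh) (hMinS : StmtMinS) : StmtExF := by
  intro Q N hQ cf hcf
  have hfin : ∀ i, (latticePoints (Q.conf N i)).Finite := fun i =>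
    latticePoints_hull_finite (Q.sets N i)
  refine exists_implicit (Q.conf N) hfin cf fun G hG => ?_
  refine indep_of_min (Q.conf N) hfin cf
    (Fin.cons 0 (fun j : Fin (Q.D + 1) => pt Q j)) (Q.wv (w0 Q)) Fin.succ ?_ ?_ ?_ ?_ G hG
  · intro j
    rw [Fin.cons_succ]
    exact subset_latticePoints_hull (Q.sets N j.succ) (pt_mem Q hQ N j)
  · intro j
    rw [Fin.cons_succ]
    exact hcf _ _ (pt_mem Q hQ N j)
  · intro j p hp hpa
    rw [Fin.cons_succ] at hpa ⊢
    by_cases hj : j.val < Q.κ
    · have h1 : pt Q j = Q.sml j (Q.v j - 1) := by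
        unfold pt
        rw [if_pos hj]
      rw [h1] at hpa ⊢
      refine ((hMinS Q N hQ (w0 Q) (w0_D Q) j hj).1 ?_).2 p hp hpa
      intro y hy
      have h2 := (((hTh Q hQ).1 j hj).2.1 y hy).2
      unfold w0
      rw [if_pos hj]
      exact_mod_cast h2
    · refine dot_lt_of_unique (Q.sets N j.succ) _ _ (pt_mem Q hQ N j) ?_ p hp hpa
      intro a' ha' hne
      rw [sets_succ, if_neg hj] at ha'
      unfold pt at hne
      rw [if_neg hj] at hne
      exact absurd (mem_singleton.1 ha') hne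
  · simp only [Fin.cons_succ]
    exact li Q hQ

end Pool.Agent.Lib.MP_4e7804_co.Av
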