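import Pool.Agent.Lib.MP_4e7804_co.Av.SpecU

set_option autoImplicit false

open Finset

namespace Pool.Agent.Lib.MP_4e7804_co.Av

namespace SegN

/-- Finitely many affine functions on `[0, 1]`: the first tie with `α`. -/
private theorem core {ι : Type} (S : Finset ι) (p q : ι → ℚ) (α β : ι) (hβ : β ∈ S)
    (h0 : ∀ γ ∈ S, γ ≠ α → p α < p γ) (h1 : q β < q α) (hne : β ≠ α) :
    ∃ θ : ℚ, 0 ≤ θ ∧ θ ≤ 1 ∧ ∃ γ ∈ S, γ ≠ α ∧
      (1 - θ) * p α + θ * q α = (1 - θ) * p γ + θ * q γ ∧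
      ∀ δ ∈ S, (1 - θ) * p α + θ * q α ≤ (1 - θ) * p δ + θ * q δ := by
  classical
  let ρ : ι → ℚ := fun γ => (p γ - p α) / ((p γ - p α) - (q γ - q α))
  obtain ⟨γ, hγ, hmin⟩ := Finset.exists_min_image (S.filter fun γ => q γ < q α) ρ
    ⟨β, Finset.mem_filter.2 ⟨hβ, h1⟩⟩
  obtain ⟨hγS, hγq⟩ := Finset.mem_filter.1 hγ
  have hγne : γ ≠ α := by
    rintro rfl
    exact lt_irrefl _ hγq
  have hγp := h0 γ hγS hγne
  have hden : 0 < (p γ - p α) - (q γ - q α) := by linarith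
  have hroot : ρ γ * ((p γ - p α) - (q γ - q α)) = p γ - p α := div_mul_cancel₀ _ hden.ne'
  have hρ0 : 0 ≤ ρ γ := div_nonneg (by linarith) hden.le
  have hρ1 : ρ γ ≤ 1 := by
    rw [div_le_one hden]
    linarith
  refine ⟨ρ γ, hρ0, hρ1, γ, hγS, hγne, by linarith, ?_⟩
  intro δ hδ
  by_cases hδα : δ = α
  · rw [hδα]
  · have hδp := h0 δ hδ hδα
    by_cases hδq : q δ < q α
    · have hle := hmin δ (Finset.mem_filter.2 ⟨hδ, hδq⟩)
      have hdenδ : 0 < (p δ - p α) - (q δ - q α) := by linarith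
      have hrootδ : ρ δ * ((p δ - p α) - (q δ - q α)) = p δ - p α := div_mul_cancel₀ _ hdenδ.ne'
      have := mul_le_mul_of_nonneg_right hle hdenδ.le
      linarith
    · have hδq : q α ≤ q δ := not_lt.1 hδq
      have e1 : 0 ≤ (1 - ρ γ) * (p δ - p α) := mul_nonneg (by linarith) (by linarith)
      have e2 : 0 ≤ ρ γ * (q δ - q α) := mul_nonneg hρ0 (by linarith)
      linarith

private theorem lin {d : ℕ} (c : ℚ) (a : Fin (d + 1) →₀ ℕ) (θ : ℚ) (z z' : Fin (d + 1) → ℚ) :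
    c + ∑ i, (a i : ℚ) * ((1 - θ) * z i + θ * z' i) =
      (1 - θ) * (c + ∑ i, (a i : ℚ) * z i) + θ * (c + ∑ i, (a i : ℚ) * z' i) := by
  have h : ∑ i, (a i : ℚ) * ((1 - θ) * z i + θ * z' i) =
      (1 - θ) * ∑ i, (a i : ℚ) * z i + θ * ∑ i, (a i : ℚ) * z' i := by
    rw [Finset.mul_sum, Finset.mul_sum, ← Finset.sum_add_distrib]
    refine Finset.sum_congr rfl fun i _ => ?_
    ring
  rw [h]
  ring

end SegN

theorem tSeg : StmtSeg := by
  intro d S ϕ α β hα hβ hne z z' hz hz'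
  have h0 : ∀ γ ∈ S, γ ≠ α → ϕ α + ∑ i, (α i : ℚ) * z i < ϕ γ + ∑ i, (γ i : ℚ) * z i := by
    intro γ hγ hγα
    have := hz γ hγ hγα
    beta_reduce at this
    exact_mod_cast this
  have h1 : ϕ β + ∑ i, (β i : ℚ) * z' i < ϕ α + ∑ i, (α i : ℚ) * z' i := by
    have := hz' α hα hne
    beta_reduce at this
    exact_mod_cast this
  obtain ⟨θ, hθ0, hθ1, γ, hγ, hγα, heq, hall⟩ := SegN.core S
    (fun γ => ϕ γ + ∑ i, (γ i : ℚ) * z i) (fun γ => ϕ γ + ∑ i, (γ i : ℚ) * z' i) α β hβ h0 h1 hne.symm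
  refine ⟨θ, hθ0, hθ1, α, hα, γ, hγ, hγα.symm, ?_, ?_⟩
  · rw [SegN.lin, SegN.lin]
    exact heq
  · intro δ hδ
    rw [SegN.lin, SegN.lin]
    exact hall δ hδ

end Pool.Agent.Lib.MP_4e7804_co.Av
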