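import Pool.Agent.Lib.MP_4e7804_co.Av.Defs
import Pool.Agent.Lib.MP_4e7804_co.Tl.Spec

/-!
# MP_4e7804_co, `V_n(v)` for every `v`: the lower bound, statements

THEOREM. Let at least two of the numbers `v i` be `1`, let `v_1` be the largest one and `E` the product
of all the others. Then `V_n(v) ≥ c_n v_1 ^ min (n - 2, E) * E ^ (n - 2)`.

Every statement is a `Prop` with a complete proof in its docstring. Delivery: file `Av/<Name>.lean`,
first line `import Pool.Agent.Lib.MP_4e7804_co.Av.SpecL` (modules of `Pool.Agent.Lib.MP_4e7804_co.Lo`,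
`.Tl`, `.Pg` may be imported too), private lemmas in the namespace
`Pool.Agent.Lib.MP_4e7804_co.Av.<Name>N`, final theorem `Pool.Agent.Lib.MP_4e7804_co.Av.t<Name>` with the
statements listed under `uses` as hypotheses.

OVERVIEW (`Q : Pm`, `D = κ + μ = n - 2`, `y_last = 1`). The small colour `i` has parallel walls
`w_i = th i y`, in clusters near `L, 2L, …, (G i) L`; beyond its last wall `y_(i+1) = w_i + be i`, and in
the box this happens near `(G i + 1) L`. The big colour has near the grid position `g c` (place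
`c < D`) the walls `w_c + ∑_(i ∈ fr c) w_i = vt c x`, and is linear near the place `D`. The tie points
of the small colours in `fr c` and of the big colour near the place `c` give sheets on which the variable
number `c` is constant: `(b c - 1) ∏_(i ∈ fr c) a i` levels, and the place `D` gives `∏ a i` levels of `y_0`.
(All claims about minimal vertices were also checked by a program with exact arithmetic.)
-/

set_option autoImplicit false

open Finset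

namespace Pool.Agent.Lib.MP_4e7804_co.Av

/-! ## Values -/

/-- **Dt** the values of the vertices. Proof. `dot (wv w) p = ∑_l w l * p l`. In `big`: the first part
gives `-2N ∑_(i<κ) (g c i - g D i) w_i` (`Fin.sum_univ_eq_sum_range`, `κ ≤ D`, `sum_filter`), the second
`-(x+1) (w_c + ∑_(i ∈ fr c) w_i)` (`c ≤ D`, `fr c ⊆ range κ`), the third is multiplied by `w_D = 1`;
`N (g - g') (L (g + g') - 2 w) = N L (g² - g'²) - 2 N (g - g') w`. In `sml`: `i < κ ≤ D`. -/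
def StmtDt : Prop := ∀ (Q : Pm) (N : ℤ) (w : ℕ → ℚ), w Q.D = 1 →
  (∀ c ≤ Q.D, ∀ x, dot (Q.wv w) (Q.big N c x) = Q.TT N c w + Q.lc c x w) ∧
  (∀ i < Q.κ, ∀ x, dot (Q.wv w) (Q.sml i x) = Q.sF i x w) ∧
  ∀ l : Fin (Q.D + 1), dot (Q.wv w) (Pi.single l 1) = w l

/-- **Th** the walls of the small colours. Let `i < κ`, `a = a i`, `G = G i`; `1 ≤ a`, `1 ≤ G`,
`a G + 1 ≤ v i ≤ B`, so `a ≤ B`, `M ^ i ≤ M ^ κ`, `B * M ^ κ < S < L`. Proof. (1) it is enough to
compare `y` and `y + 1` (`strictMono_nat_of_lt_succ`). If `cl` is the same, the digit `y - a * cl`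
grows by one (`a * cl ≤ y`). If not, then `(y + 1) / a = y / a + 1 ≤ G - 1`, `y / a ≤ G - 1`, so `y = a
* cl + a - 1`: from `L (cl+1) + (a - 1) M ^ i` to `L (cl + 2)`, and `(a - 1) M ^ i ≤ B M ^ κ < L`. (2)
`cl ≤ G - 1`, the digit is `≤ y < v i ≤ B`. `th i y < L G + S < L (G + 1) = lo i`. (3) `y = a (c' - 1)
+ t`: `y / a = c' - 1 ≤ G - 1`, `y + 1 ≤ a G < v i`. (4) `vt c (x+1) = vt c x + M ^ κ`. -/
def StmtTh : Prop := ∀ Q : Pm, Q.Ok → (∀ i < Q.κ, StrictMono (Q.th i) ∧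
    (∀ y, y + 1 < Q.v i → Q.L ≤ Q.th i y ∧ Q.th i y < Q.lo i) ∧
    ∀ c' t, 1 ≤ c' → c' ≤ Q.G i → t < Q.a i →
      ∃ y, y + 1 < Q.v i ∧ Q.th i y = Q.L * c' + t * Q.M ^ i) ∧
  ∀ c, StrictMono (Q.vt c)

/-- **Kb** a bound for the local parts. Proof. If `w` is near the place `c₀ ≤ D` then
`0 ≤ w l ≤ W := L * ∑_(c ≤ D) ∑_(i<κ) g c i + S + 1` for all `l ≤ D`. So
`|lc c x w| ≤ (x + 1) (D + 1) W + ∑_(y<x) vt c y`; take for `K` one plus the sum of all these bounds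
over `c ≤ D`, `x < b c`. -/
def StmtKb : Prop := ∀ Q : Pm, Q.Ok → ∃ K : ℚ, KB Q K

/-- **Gap** the common parts. Proof. `w_i = L g_i + δ_i`, `0 ≤ δ_i ≤ S`, `g_i = g c i`, `Δ_i = g c' i -
g_i` (integers), `h_i = g D i`. `TT c' w - TT c w = N ∑_i [(g'_i - h_i)(L (g'_i + h_i) - 2 w_i) - (g_i
- h_i) (L (g_i + h_i) - 2 w_i)] = N ∑_i Δ_i (L (g'_i + g_i) - 2 w_i) = N ∑_i (L Δ_i² - 2 δ_i Δ_i)`
`≥ N ∑_i (L - 2 S) Δ_i² = N ∑ Δ_i² ≥ N` since `|Δ_i| ≤ Δ_i²`, `L = 2 S + 1` and some `Δ_i ≠ 0` (`g_ne`).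
`TT D w = 0`: all factors `g D i - g D i` vanish. -/
def StmtGap : Prop := ∀ Q : Pm, Q.Ok → ∀ N : ℤ, 0 ≤ N → ∀ w : ℕ → ℚ, Q.TT N Q.D w = 0 ∧
  ∀ c ≤ Q.D, ∀ c' ≤ Q.D, c ≠ c' → 1 ≤ Q.b c → 1 ≤ Q.b c' → Q.Near c w →
    Q.TT N c w + N ≤ Q.TT N c' w

/-! ## Minimal vertices -/

/-- **MinB** (uses `Dt`, `Th`, `Gap`, `Tl.StmtLab`) the minimal vertices of the big colour near a place.
Proof. Let `w` be near `c`, `x < b c`. For `c' ≠ c`, `x' < b c'`: by `Dt`, `Gap`, `KB`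
`dot (big c x) = TT c + lc c x < TT c + K ≤ TT c' - N + K < TT c' + lc c' x' + 2 K - N < dot (big c'
x')`. Inside the family: `φ x = lc c x w` satisfies `φ (x + 1) = φ x + (vt c x - om c w)`, and `vt c` is
strictly increasing, so `Tl.StmtLab` (2), (3) (with `a = vt c`, `t = om c w`, cast to `ℝ`) gives the
strict minima. The elements of the polytope number `0` are in the hull of `bigS N`
(`Q.conf N 0 = convexHull ℝ (toReal '' bigS N)`, `Fin.cons_zero`). (v): `dot_lt_of_unique` of `Lo/Hull`.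
(e): `x + 1 < b c`, so `c ≠ D` (`b D = 1`), `c < D`; `dot_lt_of_edge` of `Lo/Hull`, the edge is
primitive: the coordinate number `c` of `big c (x+1) - big c x` is `- Om c c = -1` (if `c < κ` then `g
c c = G c + 1`, so `c ∉ fr c`; if `κ ≤ c` then `c ∉ range κ`; the third part of `big` vanishes since `c
≠ D`), as in `Tl/Nice.lean` (`edgeData`). (h): `c < D`: `TT c w ≤ TT D w - N = - N`, so the value is
`< K - N < - K`. The last statement is `Dt` and `TT D w = 0`, `b D = 1`, with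
`lc D 0 w = -(w D + ∑_(fr D) w_i)`, `fr D = range κ` (`gD`). -/
def StmtMinB : Prop := ∀ (Q : Pm) (K : ℚ) (N : ℤ), Q.Ok → KB Q K → 2 * K < N →
  ∀ c ≤ Q.D, 1 ≤ Q.b c → ∀ w : ℕ → ℚ, Q.Near c w →
  (∀ x, x < Q.b c → (∀ y < x, (Q.vt c y : ℚ) < Q.om c w) →
    (∀ y, x ≤ y → y + 1 < Q.b c → Q.om c w < Q.vt c y) →
    ∀ p ∈ latticePoints (Q.conf N 0), p ≠ Q.big N c x →
      dot (Q.wv w) (Q.big N c x) < dot (Q.wv w) p) ∧
  (∀ x, x + 1 < Q.b c → Q.om c w = Q.vt c x →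
    dot (Q.wv w) (Q.big N c (x + 1)) = dot (Q.wv w) (Q.big N c x) ∧
    ∀ p ∈ latticePoints (Q.conf N 0), p ≠ Q.big N c x → p ≠ Q.big N c (x + 1) →
      dot (Q.wv w) (Q.big N c x) < dot (Q.wv w) p) ∧
  (c < Q.D → ∀ x < Q.b c, dot (Q.wv w) (Q.big N c x) < -K) ∧
  (c = Q.D → dot (Q.wv w) (Q.big N c 0) = -1 - ∑ i ∈ range Q.κ, w i)

/-- **MinS** (uses `Dt`, `Th`, `Tl.StmtLab`) the minimal vertices of the small colours. Proof. For `i <
κ` `φ x = sF i x w` satisfies `φ (x + 1) = φ x + (th i x - w_i)`, `th i` is strictly increasing: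
`Tl.StmtLab`. The polytope number `i + 1` is the hull of the `sml i x`, `x < v i` (`Fin.cons_succ`,
`if_pos`). (v) with `x = v i - 1`: `Tl.StmtLab` (2); `dot_lt_of_unique`; the value is
`(v i - (v i - 1)) w_i + ∑_(y < v i - 1) th i y = w_i + be i`. (e) `Tl.StmtLab` (3); `dot_lt_of_edge`;
the coordinate number `i` of `sml i (y+1) - sml i y` is `-1` (`i < κ ≤ D`, `i ≠ D`: if `i = D` then `κ
≤ D = i < κ`); the value is at most the value of the last vertex, `w_i + be i`. -/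
def StmtMinS : Prop := ∀ (Q : Pm) (N : ℤ), Q.Ok → ∀ w : ℕ → ℚ, w Q.D = 1 →
  ∀ l : Fin (Q.D + 1), l.val < Q.κ →
  ((∀ y, y + 1 < Q.v l → (Q.th l y : ℚ) < w l) →
    dot (Q.wv w) (Q.sml l (Q.v l - 1)) = w l + Q.be l ∧
    ∀ p ∈ latticePoints (Q.conf N l.succ), p ≠ Q.sml l (Q.v l - 1) →
      dot (Q.wv w) (Q.sml l (Q.v l - 1)) < dot (Q.wv w) p) ∧
  ∀ y, y + 1 < Q.v l → w l = Q.th l y →
    dot (Q.wv w) (Q.sml l (y + 1)) = dot (Q.wv w) (Q.sml l y) ∧
    dot (Q.wv w) (Q.sml l y) ≤ w l + Q.be l ∧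
    ∀ p ∈ latticePoints (Q.conf N l.succ), p ≠ Q.sml l y → p ≠ Q.sml l (y + 1) →
      dot (Q.wv w) (Q.sml l y) < dot (Q.wv w) p

/-! ## The polytopes -/

/-- **Vtx** (uses `Dt`, `Th`, `MinB`, `Tl.StmtLab`; may import `Lo.NumV`, `Lo.Hull`; compare
`Tl/Vtx.lean`) the vertices. Proof. Big colour: let `c ≤ D`, `x < b c`. Let `w_l = L * g c l` for `l <
κ`, `w_l = M ^ κ` for `κ ≤ l < D`, `w_D = 1`, and then, if `c < D`, replace `w_c` by `lo c + M ^ κ (x +
1/2)`. This `w` is near `c`: for `c < κ` we have `L * g c c = L * (G c + 1) = lo c`, for `κ ≤ c < D`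
`lo c = 0`, and `0 ≤ M ^ κ (x + 1/2) ≤ M ^ κ B ≤ S`. If `c < D`: `c ∉ fr c`, so
`om c w = lo c + M ^ κ (x + 1/2) + L ∑_(fr c) g c i`, which lies strictly between `vt c y`, `y < x`, and
`vt c y`, `y ≥ x`; if `c = D`, then `x = 0` and `b D = 1`. By `MinB` (first part) `big c x` is the
unique minimum among all lattice points of the polytope, so among `bigS N`
(`subset_latticePoints_hull`). In particular the
points `big c x`, `c ≤ D`, `x < b c` are distinct, and the number of elements of `bigS N` is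
`∑ b c` (`card_biUnion`, `card_image_of_injOn`). Small colours: `sml l x` is the unique minimum of
`sF l · w` for `w_l` strictly between `th l (x-1)` and `th l x` (for example `w_l = th l x - 1/2` if `x
+ 1 < v l`, `w_l = lo l` for `x = v l - 1`), `Tl.StmtLab` (2); `card_image_of_injOn`. Points: one
element. Then `numVertices_hull` of `Lo/NumV.lean`. `Q.Ok` gives `v l ≥ 2`, and `bigS N` contains `big
D 0`, so all sets are not empty. -/
def StmtVtx : Prop := ∀ (Q : Pm) (K : ℚ) (N : ℤ), Q.Ok → KB Q K → 2 * K < N →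
  (∀ i, IsLatticePolytope (Q.conf N i)) ∧
  (∀ i, numVertices (Q.conf N i) = Q.vec i) ∧
  (∀ i, (latticePoints (Q.conf N i)).Finite) ∧
  ∀ i, ∀ a ∈ Q.sets N i, a ∈ latticePoints (Q.conf N i)

/-- **ExF** (uses `MinS`, `Th`; may import `Lo.Implicit`, `Lo.Indep`, `Lo.Hull`; compare `Tl/ExF.lean`)
existence of the implicit equation. Proof. `exists_implicit`; the independence of the polynomials number
`1, …, D + 1` by `indep_of_min` with `σ = Fin.succ` and `w = wv w₀`, `w₀ l = lo l` for `l < κ`, `w₀ l =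
1` for `l ≥ κ`: for `l < κ` the point `sml l (v l - 1)` is the unique minimum (`MinS`, `th l y < lo l`
by `Th`), for `κ ≤ l ≤ D` the polytope is the point `Pi.single l 1`. The vectors are linearly
independent: the matrix `(point of l)_(l')` is triangular with diagonal `1` (`sml l (v l - 1)` has the
coordinate `v l - (v l - 1) = 1` at `l`, `0` elsewhere except at `D > l`; note `κ ≤ D`, `l < κ`, so `l
≠ D`): `Matrix.det_of_upperTriangular`. -/
def StmtExF : Prop := ∀ (Q : Pm) (N : ℤ), Q.Ok →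
  ∀ cf : Fin (Q.D + 1 + 1) → (Fin (Q.D + 1) → ℤ) → ℂ,
    (∀ i, ∀ a ∈ Q.sets N i, cf i a ≠ 0) → ∃ F, IsImplicitEq (Q.conf N) cf F

/-! ## The sheets -/

/-- **Sh1** (uses `Th`, `MinB`, `MinS`, `Dt`; may import `Lo.Sheet`, `Lo.Hull`, `Lo.Implicit`; compare
`Tl/Nice.lean`) the sheets of the place `c < D`. Proof. Let `w l = L * g c l + t l * M ^ l` for `l ∈ fr
c` and `w l = yh y l` otherwise (for `l = D`: `D ∉ fr c`, `be D = 0`, so `w D = y (last) = 1`). (1) `w`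
is near `c`: for `l ∈ fr c`: `t l < a l ≤ B`, `M ^ l ≤ M ^ κ`, so `t l * M ^ l ≤ S`; for `l < κ`, `l ∉
fr c`: `g c l = G l + 1` (`g_pos`), `L * g c l = lo l < yh y l < lo l + S`; for `κ ≤ l < D`: `lo l =
0`. (2) `c ∉ fr c` (`g_self` if `c < κ`), so `om c w = yh y c + ∑_(i ∈ fr c) (L g c i + t i M ^ i) = lo
c + M ^ κ (1 + x) + L ∑ g c i = vt c x`: `MinB` (second part) for the vertices `big c x`, `big c
(x+1)`; the value is `< -K < y 0` (third part). (3) for `i ∈ fr c`: `1 ≤ g c i ≤ G i`, so by `Th` `w i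
= th i y_i` for some `y_i + 1 < v i`: `MinS` (second part), the value is `≤ w i + be i < lo i + be i <
yh y i + be i = y (i+1)` (`th i y_i < lo i`). (4) for `i < κ`,
`i ∉ fr c`: `w i = yh y i > lo i > th i y'` for all `y' + 1 < v i`: `MinS` (first part), the value is
`yh y i + be i = y (i+1)`. (5) for `κ ≤ l ≤ D` the polytope is the point `Pi.single l 1`, with the value
`w l = y (l+1)` (`be l = 0`). So `sheet_tie` of `Lo/Sheet.lean` applies with
`J = {0} ∪ {i + 1 : i ∈ fr c}`, `h i` = the value of `a i`; dual vectors: `bs 0 = - e_c`,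
`bs (i+1) = - e_i + e_c` (`i ∈ fr c`), `0` otherwise. Indeed the edge of the colour `0` is
`big c (x+1) - big c x = - Om c + (vt c x) e_D`, with the coordinates `-1` at `c` and at all `i ∈ fr
c`, and the edge of the colour `i + 1` is `sml i (y_i + 1) - sml i y_i`, with the coordinates `-1` at
`i` and `0` at `c` and at the other elements of `range κ` (`c ≠ i`, `c ≠ D`). `F` vanishes on the image:
`IsImplicitEq.eval_eq_zero`. The conclusion of `sheet_tie` for all exponents is membership in `trp (Mx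
F)` (end of `Tl/Nice.lean`). -/
def StmtSh1 : Prop := ∀ (Q : Pm) (K : ℚ) (N : ℤ), Q.Ok → KB Q K → 2 * K < N →
  ∀ (cf : Fin (Q.D + 1 + 1) → (Fin (Q.D + 1) → ℤ) → ℂ) (F : MvPolynomial (Fin (Q.D + 1 + 1)) ℂ),
    (∀ i, ∀ a ∈ Q.sets N i, cf i a ≠ 0) → IsImplicitEq (Q.conf N) cf F →
    ∀ c < Q.D, ∀ x, x + 1 < Q.b c → ∀ t : ℕ → ℕ, (∀ i ∈ Q.fr c, t i < Q.a i) →
    ∀ y, Q.Box K y →
      Q.yh y c = (Q.lo c : ℚ) + (Q.M : ℚ) ^ Q.κ * (1 + x) - ∑ i ∈ Q.fr c, (t i : ℚ) * (Q.M : ℚ) ^ i →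
      (fun i => ((y i : ℚ) : ℝ)) ∈ Tl.trp (Tl.Mx F)

/-- **Sh2** (uses `Th`, `MinB`, `MinS`, `Dt`; may import `Lo.Sheet`, `Lo.Hull`, `Lo.Implicit`; compare
`Tl/Nice.lean`) the sheets of the place `D`. Proof. `fr D = range κ` (`gD`). Let
`w l = L * g D l + t l * M ^ l` for `l < κ` and `w l = yh y l` for `l ≥ κ` (so `w D = 1`). `w` is near
`D` (as in `Sh1`). For `i < κ`: `1 ≤ g D i ≤ G i`, so `w i = th i y_i`, `y_i + 1 < v i` (`Th`): `MinS`
(second part), the value is `≤ w i + be i < lo i + be i < y (i+1)`. Big colour: `b D = 1`, so `MinB`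
(first part, `x = 0`) says that `big D 0` is the unique minimum, with the value `-1 - ∑_(i<κ) w i = y
0` (last part). Points: as in `Sh1`. `sheet_tie` with `J = {i + 1 : i < κ}` and `bs (i+1) = - e_i`: the
edge of the colour `i + 1` has the coordinates `-1` at `i` and `0` at the other elements of `range κ`.
-/
def StmtSh2 : Prop := ∀ (Q : Pm) (K : ℚ) (N : ℤ), Q.Ok → KB Q K → 2 * K < N →
  ∀ (cf : Fin (Q.D + 1 + 1) → (Fin (Q.D + 1) → ℤ) → ℂ) (F : MvPolynomial (Fin (Q.D + 1 + 1)) ℂ),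
    (∀ i, ∀ a ∈ Q.sets N i, cf i a ≠ 0) → IsImplicitEq (Q.conf N) cf F →
    (∀ i < Q.κ, 1 ≤ Q.g Q.D i) → ∀ t : ℕ → ℕ, (∀ i < Q.κ, t i < Q.a i) →
    ∀ y, Q.Box K y →
      y 0 = -1 - ∑ i ∈ range Q.κ, ((Q.L : ℚ) * Q.g Q.D i + (t i : ℚ) * (Q.M : ℚ) ^ i) →
      (fun i => ((y i : ℚ) : ℝ)) ∈ Tl.trp (Tl.Mx F)

/-! ## Counting -/

/-- **Dig** digits. Proof. Let `R` be the image of the pairs `(x, t)`, `x ∈ range (b - 1)`,
`t ∈ I.pi (fun i => range (a i))` (extended by `0` to a function on `ℕ`). The map is injective on them: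
let `X = ∑_(i ∈ I) t i (B+1)^i < (B+1)^κ` (digits `≤ B`, `I ⊆ range κ`). From
`(B+1)^κ (1 + x) - X = (B+1)^κ (1 + x') - X'` and `0 ≤ X, X' < (B+1)^κ` we get `x = x'`, `X = X'`, and
the digits of a number are unique (induction on `κ`: `X mod (B+1)` is the digit number `0`, or: compare
the largest `i` where `t i ≠ t' i`: the lower digits contribute less than `(B+1)^i`). -/
def StmtDig : Prop := ∀ (κ B b : ℕ) (a : ℕ → ℕ) (I : Finset ℕ), I ⊆ range κ → (∀ i ∈ I, a i ≤ B) →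
  ∃ R : Finset ℚ, R.card = (b - 1) * ∏ i ∈ I, a i ∧
    ∀ r ∈ R, ∃ (x : ℕ) (t : ℕ → ℕ), x + 1 < b ∧ (∀ i ∈ I, t i < a i) ∧
      r = ((B + 1 : ℕ) : ℚ) ^ κ * (1 + x) - ∑ i ∈ I, (t i : ℚ) * ((B + 1 : ℕ) : ℚ) ^ i

/-- **Bx** (may import `Lo.Boxes`; compare `boxes_le` in `Lo/Boxes.lean`) counting vertices by boxes.
Proof. For every `k : ∀ l, Fin ((R l).card + 1)` choose `u l` in the interval `(lo l, hi l)` (`l ≠ h`),
not in `R l`, with exactly `k l` elements of `R l` below it, and let `O k` be the open set of the `x :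
Fin n → ℝ` with `x h` in `(1/2, 2)`, say, such that for all `l ≠ h` `x l / x h` is in the open interval
between the neighbours of `u l` in `R l ∪ {lo l, hi l}`. For `a ≠ a'` in `M` the set `a ⬝ᵥ x ≠ a' ⬝ᵥ x`
is open and dense, so is the finite intersection, so there is a rational point in `O k` for which all
`a ⬝ᵥ x`, `a ∈ M`, are distinct; divide it by `x h > 0` (the order of the `a ⬝ᵥ x` is not changed): a
rational point `y k` with `y k h = 1`, `lo l < y k l < hi l`, `y k l` in the same interval as `u l`,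
and a unique minimum `α k ∈ M` of `a ⬝ᵥ y k`. `α k` is an extreme point (`Boxes_extreme`). `k ↦ α k` is
injective: let `α k = α k' = α`, `k l < k' l` (then `l ≠ h` since `R h = ∅`). There is `ρ ∈ R l` with
`y k l < ρ < y k' l`. The point `z = (1-θ) y k + θ y k'` with
`z l = ρ` is rational (`θ = (ρ - y k l) / (y k' l - y k l)`), `z h = 1`, `lo < z < hi`. So `z ∈ trp M`:
for `α` there is `β ≠ α` in `M` with `β ⬝ᵥ z ≤ α ⬝ᵥ z`, but `β ⬝ᵥ y k > α ⬝ᵥ y k`, `β ⬝ᵥ y k' > α ⬝ᵥ y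
k'`: contradiction. The set of extreme points is finite (`extremePoints_convexHull_subset`). -/
def StmtBx : Prop := ∀ (n : ℕ) (M : Finset (Fin n → ℝ)), M.Nonempty →
  ∀ (h : Fin n) (lo hi : Fin n → ℚ) (R : Fin n → Finset ℚ), R h = ∅ → (∀ l, l ≠ h → lo l < hi l) →
  (∀ l, ∀ r ∈ R l, lo l < r ∧ r < hi l) →
  (∀ y : Fin n → ℚ, y h = 1 → (∀ l, l ≠ h → lo l < y l ∧ y l < hi l) → (∃ l, y l ∈ R l) →
    (fun l => ((y l : ℚ) : ℝ)) ∈ Tl.trp M) →
  ∏ l, ((R l).card + 1) ≤ (Set.extremePoints ℝ (convexHull ℝ (M : Set (Fin n → ℝ)))).ncard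

/-- **Core** (uses `Kb`, `Vtx`, `ExF`, `Sh1`, `Sh2`, `Dig`, `Bx`; may import `Lo.Generic`, `Tl.Low`;
compare `Tl/Low.lean`) the number of vertices of the construction. Proof. `K` from `Kb`, `N` an integer
`> 2 K`. Generic coefficients `cf` (`exists_generic`), nonzero at all lattice points, `F` from `ExF`.
Apply `Bx` to `M = Mx F` (not empty, `F ≠ 0`), `h = Fin.last`, and: `lo 0 = -K`, `hi 0 = 0`;
`lo (l+1) = Q.lo l + be l`, `hi (l+1) = Q.lo l + S + be l` (`l < D`), anything at `last`. `R (l+1)` for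
`l < D` is the set of the numbers `lo l + be l + r`, `r ∈ R'`, where `R'` is the set of `Dig` for `I =
fr l`, `b = b l` (`a i ≤ B` by `aG`, `v_le`); these numbers are in the range, since `0 < r`: `∑ t i M ^
i < M ^ κ` (distinct exponents `< κ`, digits `< M`; or the geometric sum) and `r ≤ M ^ κ (B + 1) < S`
(`1 + x ≤ b l ≤ B`). `R (last) = ∅`. `R 0 = ∅` if some `g D i = 0`, `i < κ`; otherwise `R 0` is the set
of the `-1 - L ∑ g D i - M ^ κ + r`, `r` in the set of `Dig` for `I = range κ`, `b = 2` (so `x = 0`, `M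
^ κ - r` is `∑ t i M ^ i`); it has `∏ a i` elements. They are in `(-K, 0)`: they are `-(1 + ∑ w i)` with
`w i = L g D i + t i M ^ i ≥ 0`, and `lc D 0 w = -(1 + ∑ w i)` for a `w` near `D` (`w l = 0` for `κ ≤ l
< D`, `w D = 1`), so `> -K` by `KB`. If `y last = 1` and `lo < y < hi` then `Box K y` holds
(`yh y l = y (l+1) - be l`), and `Sh1`, `Sh2` give `y ∈ trp (Mx F)` if some `y l ∈ R l`. `Bx` gives the
claim: the product over `Fin (D + 2)` is the factor of `0`, the product over `l < D` and the factor `1`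
of `last` (`Fin.prod_univ_succ`, `Fin.prod_univ_castSucc`, `Fin.prod_univ_eq_prod_range`).
`numVertices (newton F)` is the number of extreme points of the hull of `Mx F` (`LowN.newton`). -/
def StmtCore : Prop := ∀ Q : Pm, Q.Ok → ∃ N', IsVertexNumber Q.vec N' ∧
  (∏ c ∈ range Q.D, (1 + (Q.b c - 1) * ∏ i ∈ Q.fr c, Q.a i)) *
    (if ∀ i < Q.κ, 1 ≤ Q.g Q.D i then 1 + ∏ i ∈ range Q.κ, Q.a i else 1) ≤ N'

/-! ## The cases -/

/-- **CA** (uses `Core`) a large small colour. Proof. `D = κ + μ`. Let `G 0 = μ + 1`, `G i = 1` for `i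
≥ 1`, `a 0 = (v 0 - 1) / (μ + 1)` (`≥ 1` since `v 0 ≥ μ + 2`), `a i = v i - 1`; `g c i = if c < κ then
(if i = c then G c + 1 else 1) else (if i = 0 then c - κ + 1 else 1)`; `q = (b - 1) / D ≥ 1`,
`b c = q` for `1 ≤ c < D`, `b 0 = q + (b - 1) % D`, `b D = 1`; `B = b + ∑_(i<κ) v i`. The conditions
`Ok`: `gD`: `g D 0 = μ + 1 = G 0`. `g_ne`: let `c < c'`. If `c < κ`: at `i = c`: `g c c = G c + 1`, and
`g c' c` is `1` if `c' < κ` or `c ≥ 1`, and `c' - κ + 1 ≤ μ + 1 = G 0` if `c = 0`, `c' ≥ κ`. If `κ ≤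
c`: at `i = 0`. `∑_(c ≤ D) b c = D q + (b - 1) % D + 1 = b`, so `Q.vec = vecC κ μ b v` (`Q.D = κ + μ`
by definition). For `c < κ` `fr c = range κ \ {c}`, for `κ ≤ c ≤ D` `fr c = range κ`. Let `A = ∏_(i<κ)
a i`. The product of `Core` is at least `∏_(c<κ) ((q - 1) ∏_(i≠c) a i) * ((q - 1) A) ^ μ * A`, and
`∏_(c<κ) ∏_(i≠c) a i = A ^ (κ - 1)`, so it is `≥ ((q - 1) A) ^ D`. -/
def StmtCA : Prop := ∀ (κ μ b : ℕ) (v : ℕ → ℕ), 1 ≤ κ → (∀ i < κ, 2 ≤ v i) → μ + 2 ≤ v 0 →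
  κ + μ + 1 ≤ b → ∃ N', IsVertexNumber (vecC κ μ b v) N' ∧
    (((b - 1) / (κ + μ) - 1) * ((v 0 - 1) / (μ + 1) * ∏ i ∈ Ico 1 κ, (v i - 1))) ^ (κ + μ) ≤ N'

/-- **CB** (uses `Core`) only small colours with few vertices. Proof. `D = κ + μ`, `E = ∏_(i<κ) v i ≥ 2
^ κ`, `r = min D E`, so `κ ≤ r` and `1 ≤ r` (`κ < 2 ^ κ`). `G i = v i - 1`, `a i = 1`. Grid positions:
`T = Fintype.piFinset (fun i : Fin κ => Icc 1 (v i))` has `E` elements. For `c < κ` the position is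
`g c i = if i = c then v c else 1`: `κ` distinct elements of `T` (`v c ≥ 2`); the rest of `T` has
`E - κ ≥ r - κ` elements, so there are distinct positions `g c` for `κ ≤ c < r`, different from the
first ones; `g c = 1` (all `i`) for `r ≤ c < D`, `g D = 0`. `q = (b - 1) / r ≥ 1`, `b 0 = q + (b - 1) %
r`, `b c = q` for `1 ≤ c < r`, `b c = 0` for `r ≤ c < D`, `b D = 1`, `B = b + ∑ v i`. `Ok`: all
conditions are clear (`g D i = 0` and `1 ≤ g c i` for the others; `κ ≥ 1`). `∑ b c = b`. The product of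
`Core` is at least `∏_(c<r) (1 + (b c - 1)) = ∏_(c<r) b c ≥ q ^ r`. -/
def StmtCB : Prop := ∀ (κ μ b : ℕ) (v : ℕ → ℕ), 1 ≤ κ → (∀ i < κ, 2 ≤ v i) → κ + μ + 1 ≤ b →
  ∃ N', IsVertexNumber (vecC κ μ b v) N' ∧
    ((b - 1) / min (κ + μ) (∏ i ∈ range κ, v i)) ^ min (κ + μ) (∏ i ∈ range κ, v i) ≤ N'

/-- **LowC** (uses `CA`, `CB`; imports `Lo.ExistF` or whatever is needed for `lower_special` of
`Pg.PermP`, which gives some `N'` with `IsVertexNumber` and `1 ≤ N'`) the lower bound for sorted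
vectors. Proof. `D = κ + μ ≥ 2`, `E = ∏_(i<κ) v i`, `r = min D E`, `v i ≤ v 0 ≤ b`. (1) `b < 4 D`: `b ^
r * E ^ D ≤ (4D)^D * ((4D)^κ)^D` and `N' ≥ 1` for the `N'` of `lower_special` (a product of numbers `≥
1`). (2) `b ≥ 4 D`, `v 0 ≥ μ + 2`: with `X = (b - 1) / D - 1`, `Y = (v 0 - 1) / (μ + 1) * ∏_(1≤i<κ) (v
i - 1)`: `b ≤ 2 D X` (`D (X + 2) > b - 1`, so `D X ≥ b - 2 D ≥ b / 2`), `v 0 ≤ 4 (μ + 1) ((v 0 -
1)/(μ+1))` (`x < 2 m (x / m)` for `x ≥ m`, and `v 0 ≤ 2 (v 0 - 1)`), `v i ≤ 2 (v i - 1)`: `E ≤ 4 (μ+1)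
2 ^ κ Y`, so `b ^ r * E ^ D ≤ (b E) ^ D ≤ (2 D * 4 (μ+1) 2^κ)^D (X Y)^D` and `CA`. (3) `b ≥ 4 D`, `v 0
≤ μ + 1`: `E ≤ (μ + 1)^κ`, `r ≥ 1`, `b ≤ 2 r ((b-1)/r)` (`b - 1 ≥ 4 D - 1 ≥ r`, `b ≤ 2 r ((b-1)/r)`
since `r ((b-1)/r) > b - 1 - r ≥ b/2 - 1`, integers: `r ((b-1)/r) ≥ b - r ≥ b / 2`), so
`b ^ r * E ^ D ≤ (2 D)^D ((μ+1)^κ)^D ((b-1)/r)^r` and `CB`. The constant is the sum of the three. -/
def StmtLowC : Prop := ∀ κ μ : ℕ, 1 ≤ κ → 1 ≤ μ → ∃ C : ℕ, ∀ (b : ℕ) (v : ℕ → ℕ),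
  (∀ i < κ, 2 ≤ v i ∧ v i ≤ v 0) → v 0 ≤ b → ∃ N', IsVertexNumber (vecC κ μ b v) N' ∧
    b ^ min (κ + μ) (∏ i ∈ range κ, v i) * (∏ i ∈ range κ, v i) ^ (κ + μ) ≤ C * N'

/-- **Srt** sorting a vector with a maximal entry `v a ≥ 2`, at least one further entry `≥ 2`, and at
least two entries equal to `1`. Proof. Let `s` be the set of the `i ≠ a` with `2 ≤ v i`, `κ` its
cardinality (`≥ 1`), `i₀ ∈ s` with `v i₀` maximal. The set of the `i` with `v i = 1` has `d + 1 - 1 - κ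
= μ + 1` elements, `μ ≥ 1`, so `d = κ + μ + 1`. Choose a bijection `σ` of `Fin (d+1)` onto `Fin (κ + μ
+ 1 + 1)` which sends `a` to `0`, `i₀` to `1`, the other elements of `s` to `2, …, κ` and the rest to
`κ + 1, …` (for example: `Finset.equivFin` of `s \ {i₀}` and of the complement, or a list of all
elements in this order, or `Tuple.sort` of a suitable function). `b = v a`, `v' i = v (σ⁻¹ (i + 1))`
for `i < κ`. The product over `i ≠ a` of `v i` is the product over `s`. -/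
def StmtSrt : Prop := ∀ (d : ℕ) (v : Fin (d + 1) → ℕ) (a : Fin (d + 1)), (∀ i, 1 ≤ v i) →
  (∀ i, v i ≤ v a) → (∃ i, i ≠ a ∧ 2 ≤ v i) → (∃ z z', z ≠ z' ∧ v z = 1 ∧ v z' = 1) →
  ∃ (κ μ : ℕ) (v' : ℕ → ℕ) (hd : d = κ + μ + 1)
    (σ : Equiv.Perm (Fin (d + 1))), 1 ≤ κ ∧ 1 ≤ μ ∧ (∀ i < κ, 2 ≤ v' i ∧ v' i ≤ v' 0) ∧
    v' 0 ≤ v a ∧ (∀ i, v i = vecC κ μ (v a) v' (Fin.cast (by omega) (σ i))) ∧
    ∏ i ∈ univ.erase a, v i = ∏ i ∈ range κ, v' i

/-- **Low** (uses `LowC`, `Srt`, `Tl.StmtPerm`, `Tl.StmtLower`; imports `Pg.PermP` for `lower_special`)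
the lower bound if at least two entries are `1`. Proof. `E = ∏_(i≠a) v i`. If `v a = 1`: all `v i = 1`,
the left side is `1`; `lower_special` gives `N` with `1 ≤ N`. If all `v i`, `i ≠ a`, are `1`: `E = 1`,
the left side is `v a` (`d ≥ 2`); for `d ≥ 3` `Tl.StmtLower` with `i₁ = a` and any `i₂` gives
`N ≥ ∑_(k<d) C(v a, k) C(1, k) ≥ 1 + v a` (`k = 0, 1`); for `d = 2` `lower_special` with `m` one of the
two other indices: the product over the two indices `i ≠ m` of `(∏_(j ≠ i, m) (v j - 1)) + 1` is `(v a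
- 1) + 1` for the other index and `0 + 1` for `a`. Otherwise `Srt`, `subst`, `LowC` (with the constant
of the pair `(κ, μ)`; `κ, μ ≤ d`, so take the sum of the constants over all pairs `κ, μ ≤ d` with `1 ≤
κ, μ`) and `Tl.StmtPerm`. -/
def StmtLow : Prop := ∀ d : ℕ, 2 ≤ d → ∃ C : ℕ, ∀ (v : Fin (d + 1) → ℕ) (a : Fin (d + 1)),
  (∀ i, 1 ≤ v i) → (∀ i, v i ≤ v a) → (∃ z z', z ≠ z' ∧ v z = 1 ∧ v z' = 1) →
  ∃ N, IsVertexNumber v N ∧
    v a ^ min (d - 1) (∏ i ∈ univ.erase a, v i) * (∏ i ∈ univ.erase a, v i) ^ (d - 1) ≤ C * N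

end Pool.Agent.Lib.MP_4e7804_co.Av
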